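import Pool.Agent.MP_3a192b_co.Transport

namespace Pool.Agent.MP_3a192b_co

open Finset

theorem centralBinom_sq_le (k : ℕ) : (2 * k + 1) * (Nat.centralBinom k) ^ 2 ≤ 16 ^ k := by
  induction k with
  | zero => simp
  | succ k ih =>
    have h := Nat.succ_mul_centralBinom_succ k
    have h2 : (k + 1) ^ 2 * ((2 * (k + 1) + 1) * (Nat.centralBinom (k + 1)) ^ 2) ≤
        (k + 1) ^ 2 * 16 ^ (k + 1) := by
      calc (k + 1) ^ 2 * ((2 * (k + 1) + 1) * (Nat.centralBinom (k + 1)) ^ 2)
          = (2 * k + 3) * ((k + 1) * Nat.centralBinom (k + 1)) ^ 2 := by ring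
        _ = (4 * (2 * k + 3) * (2 * k + 1)) * ((2 * k + 1) * (Nat.centralBinom k) ^ 2) := by
            rw [h]; ring
        _ ≤ (16 * (k + 1) ^ 2) * 16 ^ k := Nat.mul_le_mul (by nlinarith) ih
        _ = (k + 1) ^ 2 * 16 ^ (k + 1) := by ring
    exact Nat.le_of_mul_le_mul_left h2 (by positivity)

theorem choose_half_sq_le (d : ℕ) : d * (d.choose (d / 2)) ^ 2 ≤ 4 ^ d := by
  rcases Nat.even_or_odd' d with ⟨k, rfl | rfl⟩
  · have h := centralBinom_sq_le k
    rw [Nat.centralBinom_eq_two_mul_choose] at h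
    rw [Nat.mul_div_cancel_left k (by norm_num), pow_mul]
    calc 2 * k * (2 * k).choose k ^ 2 ≤ (2 * k + 1) * (2 * k).choose k ^ 2 :=
          Nat.mul_le_mul_right _ (Nat.le_succ _)
      _ ≤ 16 ^ k := h
      _ = (4 ^ 2) ^ k := by norm_num
  · have h := centralBinom_sq_le (k + 1)
    rw [Nat.centralBinom_eq_two_mul_choose] at h
    have e : (2 * (k + 1)).choose (k + 1) = 2 * (2 * k + 1).choose k := by
      rw [show 2 * (k + 1) = (2 * k + 1) + 1 by ring, Nat.choose_succ_succ', Nat.choose_symm_half]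
      ring
    have e2 : (2 * k + 1) / 2 = k := by omega
    rw [e] at h
    rw [e2]
    have h3 : 4 * ((2 * k + 1) * ((2 * k + 1).choose k) ^ 2) ≤ 4 * 4 ^ (2 * k + 1) := by
      calc 4 * ((2 * k + 1) * ((2 * k + 1).choose k) ^ 2)
          ≤ (2 * (k + 1) + 1) * (2 * (2 * k + 1).choose k) ^ 2 := by nlinarith
        _ ≤ 16 ^ (k + 1) := h
        _ = 4 * 4 ^ (2 * k + 1) := by
          rw [show (16 : ℕ) = 4 ^ 2 by norm_num, ← pow_mul]; ring
    exact Nat.le_of_mul_le_mul_left h3 (by norm_num)

theorem choose_half_le {d : ℕ} (hd : 0 < d) : (d.choose (d / 2) : ℝ) ≤ 2 ^ d / √d := by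
  have hdR : (0 : ℝ) < d := by exact_mod_cast hd
  have hs : 0 < √(d : ℝ) := Real.sqrt_pos.2 hdR
  rw [le_div_iff₀ hs]
  refine (pow_le_pow_iff_left₀ (by positivity) (by positivity) two_ne_zero).1 ?_
  rw [mul_pow, Real.sq_sqrt hdR.le, ← pow_mul, mul_comm d 2, pow_mul, mul_comm]
  have : ((d * (d.choose (d / 2)) ^ 2 : ℕ) : ℝ) ≤ ((4 ^ d : ℕ) : ℝ) := by
    exact_mod_cast choose_half_sq_le d
  push_cast at this
  norm_num
  exact this

/-- Points of the grid whose coordinate sum lies in a window of length `L`. -/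
theorem window_card {L : ℕ} (hL : 0 < L) (d : ℕ) (a : ℝ) :
    (Finset.univ.filter fun x : Fin d → Fin (2 * L) =>
      a ≤ ∑ i, ((x i : ℕ) : ℝ) ∧ ∑ i, ((x i : ℕ) : ℝ) < a + L).card ≤
      d.choose (d / 2) * L ^ d := by
  classical
  set s := Finset.univ.filter fun x : Fin d → Fin (2 * L) =>
      a ≤ ∑ i, ((x i : ℕ) : ℝ) ∧ ∑ i, ((x i : ℕ) : ℝ) < a + L with hs
  let f : (Fin d → Fin (2 * L)) → (Fin d → Fin L) := fun x i => ⟨(x i : ℕ) % L, Nat.mod_lt _ hL⟩
  let b : (Fin d → Fin (2 * L)) → Finset (Fin d) := fun x =>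
    Finset.univ.filter fun i => L ≤ (x i : ℕ)
  have hdec : ∀ (x : Fin d → Fin (2 * L)) i,
      (x i : ℕ) = (if L ≤ (x i : ℕ) then L else 0) + (f x i : ℕ) := by
    intro x i
    have := (x i).2
    simp only [f]
    split_ifs with h
    · rw [Nat.mod_eq_sub_mod h, Nat.mod_eq_of_lt (by omega)]; omega
    · rw [Nat.mod_eq_of_lt (by omega)]; omega
  have hsum : ∀ x : Fin d → Fin (2 * L),
      ∑ i, ((x i : ℕ) : ℝ) = L * (b x).card + ∑ i, ((f x i : ℕ) : ℝ) := by
    intro x
    have : ∑ i, (x i : ℕ) = L * (b x).card + ∑ i, (f x i : ℕ) := by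
      rw [Finset.sum_congr rfl fun i _ => hdec x i, Finset.sum_add_distrib, Finset.sum_ite,
        sum_const, sum_const_zero, add_zero, smul_eq_mul, mul_comm]
    exact_mod_cast this
  have h1 := card_le_mul_card_image (f := f) s (d.choose (d / 2)) (by
    intro r hr
    obtain ⟨x0, hx0, rfl⟩ := mem_image.1 hr
    calc (s.filter fun x => f x = f x0).card
        ≤ (powersetCard (b x0).card (Finset.univ : Finset (Fin d))).card := by
          refine card_le_card_of_injOn b ?_ ?_
          · intro x hx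
            obtain ⟨hx1, hx2⟩ := mem_filter.1 (mem_coe.1 hx)
            obtain ⟨-, c1, c2⟩ := mem_filter.1 hx1
            obtain ⟨-, c3, c4⟩ := mem_filter.1 hx0
            rw [hsum, hx2] at c1 c2
            rw [hsum] at c3 c4
            have hLR : (0 : ℝ) < L := by exact_mod_cast hL
            have d1 : ((b x).card : ℝ) < (b x0).card + 1 := by
              by_contra hc
              push Not at hc
              nlinarith
            have d2 : ((b x0).card : ℝ) < (b x).card + 1 := by
              by_contra hc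
              push Not at hc
              nlinarith
            have d3 : (b x).card < (b x0).card + 1 := by exact_mod_cast d1
            have d4 : (b x0).card < (b x).card + 1 := by exact_mod_cast d2
            simp only [mem_coe, mem_powersetCard, subset_univ, true_and]
            omega
          · intro x hx y hy hxy
            have hx2 := (mem_filter.1 (mem_coe.1 hx)).2
            have hy2 := (mem_filter.1 (mem_coe.1 hy)).2
            funext i
            apply Fin.ext
            have e : (L ≤ (x i : ℕ)) ↔ (L ≤ (y i : ℕ)) := by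
              have := Finset.ext_iff.1 hxy i
              simpa [b] using this
            rw [hdec x i, hdec y i, hx2, hy2]
            simp only [e]
      _ = d.choose (b x0).card := by simp
      _ ≤ d.choose (d / 2) := Nat.choose_le_middle _ _)
  refine h1.trans (Nat.mul_le_mul_left _ ?_)
  simpa using card_le_univ (s.image f)

/-- The centred value of a grid coordinate. -/
def zc {K : ℕ} (i : Fin K) : ℝ := 2 * (i : ℕ) + 1 - K

theorem zc_rev {K : ℕ} (i : Fin K) : zc (Fin.rev i) = -zc i := by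
  unfold zc
  rw [Fin.val_rev, Nat.cast_sub (by omega)]
  push_cast
  ring

theorem small_sum_card {L : ℕ} (hL : 0 < L) {d : ℕ} (hd : 0 < d) {u : ℝ} (hu : 0 ≤ u) :
    ((Finset.univ.filter fun x : Fin d → Fin (2 * L) => |∑ i, zc (x i)| ≤ u).card : ℝ) ≤
      (u / L + 1) / √d * ((2 * L : ℕ) : ℝ) ^ d := by
  classical
  have hLR : (0 : ℝ) < L := by exact_mod_cast hL
  set s := Finset.univ.filter fun x : Fin d → Fin (2 * L) => |∑ i, zc (x i)| ≤ u with hs
  set a : ℝ := (d * (2 * L - 1) - u) / 2 with ha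
  have hz : ∀ x : Fin d → Fin (2 * L),
      ∑ i, zc (x i) = 2 * ∑ i, ((x i : ℕ) : ℝ) - d * (2 * L - 1) := by
    intro x
    simp only [zc]
    rw [Finset.sum_sub_distrib, Finset.sum_add_distrib, ← Finset.mul_sum]
    simp only [sum_const, card_univ, Fintype.card_fin, nsmul_eq_mul]
    push_cast
    ring
  have hb : ∀ x ∈ s, a ≤ ∑ i, ((x i : ℕ) : ℝ) ∧ ∑ i, ((x i : ℕ) : ℝ) ≤ a + u := by
    intro x hx
    have := abs_le.1 (mem_filter.1 hx).2
    rw [hz] at this
    constructor <;> linarith [this.1, this.2]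
  let f : (Fin d → Fin (2 * L)) → ℕ := fun x => ⌊(∑ i, ((x i : ℕ) : ℝ) - a) / L⌋₊
  have h1 := card_le_mul_card_image (f := f) s (d.choose (d / 2) * L ^ d) (by
    intro j _
    refine le_trans (card_le_card ?_) (window_card hL d (a + j * L))
    intro x hx
    obtain ⟨hx1, hx2⟩ := mem_filter.1 hx
    have h0 : 0 ≤ (∑ i, ((x i : ℕ) : ℝ) - a) / L := div_nonneg (by linarith [(hb x hx1).1]) hLR.le
    have c1 := Nat.floor_le h0
    have c2 := Nat.lt_floor_add_one ((∑ i, ((x i : ℕ) : ℝ) - a) / L)
    change (f x : ℝ) ≤ _ at c1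
    change _ < (f x : ℝ) + 1 at c2
    rw [hx2] at c1 c2
    rw [le_div_iff₀ hLR] at c1
    rw [div_lt_iff₀ hLR] at c2
    refine mem_filter.2 ⟨mem_univ _, ?_, ?_⟩ <;> linarith)
  have h2 : (s.image f).card ≤ ⌊u / L⌋₊ + 1 := by
    rw [← card_range (⌊u / L⌋₊ + 1)]
    refine card_le_card fun j hj => ?_
    obtain ⟨x, hx, rfl⟩ := mem_image.1 hj
    refine mem_range.2 (Nat.lt_succ_of_le (Nat.floor_le_floor ?_))
    exact div_le_div_of_nonneg_right (by linarith [(hb x hx).2]) hLR.le
  have h3 : (s.card : ℝ) ≤ (d.choose (d / 2) * L ^ d) * (⌊u / L⌋₊ + 1) := by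
    exact_mod_cast h1.trans (Nat.mul_le_mul_left _ h2)
  have h4 : (⌊u / L⌋₊ : ℝ) ≤ u / L := Nat.floor_le (by positivity)
  have h5 := choose_half_le hd
  calc (s.card : ℝ) ≤ _ := h3
    _ ≤ (2 ^ d / √d * L ^ d) * (u / L + 1) := by gcongr
    _ = _ := by push_cast; rw [mul_pow]; ring

/-- The signed sum. -/
def sg {d : ℕ} (g : Fin d → Bool) (w : Fin d → ℝ) : ℝ := ∑ i, if g i = true then w i else -w i

theorem sg_not {d : ℕ} (g : Fin d → Bool) (w : Fin d → ℝ) : sg (fun i => !g i) w = -sg g w := by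
  unfold sg
  rw [← Finset.sum_neg_distrib]
  refine Finset.sum_congr rfl fun i _ => ?_
  cases h : g i <;> simp [h]

theorem sg_add {d : ℕ} (g : Fin d → Bool) (w w' : Fin d → ℝ) :
    sg g (fun i => w i + w' i) = sg g w + sg g w' := by
  unfold sg
  rw [← Finset.sum_add_distrib]
  refine Finset.sum_congr rfl fun i _ => ?_
  cases g i <;> simp [add_comm]

theorem signed_small_card {K d : ℕ} (g : Fin d → Bool) (u : ℝ) :
    (Finset.univ.filter fun x : Fin d → Fin K => |sg g fun i => zc (x i)| ≤ u).card ≤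
      (Finset.univ.filter fun x : Fin d → Fin K => |∑ i, zc (x i)| ≤ u).card := by
  classical
  refine card_le_card_of_injOn (fun x i => if g i = true then x i else Fin.rev (x i)) ?_ ?_
  · intro x hx
    simp only [coe_filter, mem_univ, true_and, Set.mem_ofPred_eq] at hx ⊢
    convert hx using 2
    unfold sg
    refine Finset.sum_congr rfl fun i _ => ?_
    split_ifs
    · rfl
    · exact zc_rev _
  · intro x _ y _ hxy
    funext i
    have := congrFun hxy i
    simp only at this
    split_ifs at this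
    · exact this
    · exact Fin.rev_injective this

/-- At least half of the grid points have an anti-concentrated signed sum. -/
theorem exists_good {K d : ℕ} {u τ : ℝ} (hτ : 0 < τ)
    (h : ((Finset.univ.filter fun x : Fin d → Fin K => |∑ i, zc (x i)| ≤ u).card : ℝ) ≤
      τ * (K : ℝ) ^ d) :
    (K : ℝ) ^ d / 2 ≤ ((Finset.univ.filter fun x : Fin d → Fin K =>
      ((Finset.univ.filter fun g : Fin d → Bool => |sg g fun i => zc (x i)| ≤ u).card : ℝ) ≤
        2 * τ * 2 ^ d).card : ℝ) := by
  classical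
  set N : (Fin d → Fin K) → ℝ := fun x =>
    ((Finset.univ.filter fun g : Fin d → Bool => |sg g fun i => zc (x i)| ≤ u).card : ℝ) with hN
  have hsum : ∑ x, N x ≤ 2 ^ d * (τ * (K : ℝ) ^ d) := by
    have e : ∑ x, N x = ∑ g : Fin d → Bool,
        ((Finset.univ.filter fun x : Fin d → Fin K => |sg g fun i => zc (x i)| ≤ u).card : ℝ) := by
      simp only [hN, card_filter]
      push_cast
      exact Finset.sum_comm
    rw [e]
    calc _ ≤ ∑ _g : Fin d → Bool, τ * (K : ℝ) ^ d := Finset.sum_le_sum fun g _ =>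
          le_trans (by exact_mod_cast signed_small_card g u) h
      _ = _ := by simp
  have h1 : ((Finset.univ.filter fun x => ¬ N x ≤ 2 * τ * 2 ^ d).card : ℝ) * (2 * τ * 2 ^ d) ≤
      ∑ x, N x := by
    rw [← nsmul_eq_mul, ← Finset.sum_const]
    refine le_trans (Finset.sum_le_sum fun x hx => (not_le.1 (mem_filter.1 hx).2).le) ?_
    exact Finset.sum_le_sum_of_subset_of_nonneg (filter_subset _ _) fun x _ _ => by
      simp only [hN]; positivity
  have h2 := card_filter_add_card_filter_not (s := (Finset.univ : Finset (Fin d → Fin K)))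
    (fun x => N x ≤ 2 * τ * 2 ^ d)
  simp only [card_univ, Fintype.card_pi, prod_const, Fintype.card_fin] at h2
  have h3 : ((Finset.univ.filter fun x => N x ≤ 2 * τ * 2 ^ d).card : ℝ) +
      ((Finset.univ.filter fun x => ¬ N x ≤ 2 * τ * 2 ^ d).card : ℝ) = (K : ℝ) ^ d := by
    exact_mod_cast h2
  have h4 : ((Finset.univ.filter fun x => ¬ N x ≤ 2 * τ * 2 ^ d).card : ℝ) ≤ (K : ℝ) ^ d / 2 := by
    have hp : (0 : ℝ) < 2 * τ * 2 ^ d := by positivity
    refine le_of_mul_le_mul_right ((h1.trans hsum).trans (le_of_eq ?_)) hp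
    ring
  change _ ≤ ((Finset.univ.filter fun x => N x ≤ 2 * τ * 2 ^ d).card : ℝ)
  linarith

theorem halfspace_card {d : ℕ} (w : Fin d → ℝ) (u : ℝ) :
    2 ^ d ≤ 2 * (Finset.univ.filter fun g : Fin d → Bool => u < sg g w).card +
      (Finset.univ.filter fun g : Fin d → Bool => |sg g w| ≤ u).card := by
  classical
  have h1 : (Finset.univ.filter fun g : Fin d → Bool => sg g w < -u).card ≤
      (Finset.univ.filter fun g : Fin d → Bool => u < sg g w).card := by
    refine card_le_card_of_injOn (fun g i => !g i) ?_ ?_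
    · intro g hg
      simp only [coe_filter, mem_univ, true_and, Set.mem_ofPred_eq] at hg ⊢
      rw [sg_not]; linarith
    · intro g _ g' _ h
      funext i
      simpa using congrFun h i
  have h2 : (Finset.univ : Finset (Fin d → Bool)) ⊆
      ((Finset.univ.filter fun g : Fin d → Bool => u < sg g w) ∪
        (Finset.univ.filter fun g : Fin d → Bool => sg g w < -u)) ∪
        (Finset.univ.filter fun g : Fin d → Bool => |sg g w| ≤ u) := by
    intro g _
    simp only [mem_union, mem_filter, mem_univ, true_and, abs_le]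
    by_cases c1 : u < sg g w
    · exact Or.inl (Or.inl c1)
    · by_cases c2 : sg g w < -u
      · exact Or.inl (Or.inr c2)
      · exact Or.inr ⟨not_lt.1 c2, not_lt.1 c1⟩
  have h3 := (card_le_card h2).trans ((card_union_le _ _).trans
    (Nat.add_le_add_right (card_union_le _ _) _))
  simp only [card_univ, Fintype.card_pi, prod_const, Fintype.card_fin, Fintype.card_bool] at h3
  omega

/-- Hoeffding's tail bound for signed sums. -/
theorem tail_card {d : ℕ} (w : Fin d → ℝ) {v ρ : ℝ} (hv : 0 ≤ v) (hρ : 0 < ρ)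
    (hw : ∑ i, w i ^ 2 ≤ ρ) :
    ((Finset.univ.filter fun g : Fin d → Bool => v < sg g w).card : ℝ) ≤
      Real.exp (-(v ^ 2 / (2 * ρ))) * 2 ^ d := by
  classical
  set t := v / ρ with ht
  have ht0 : 0 ≤ t := by positivity
  have h1 : ((Finset.univ.filter fun g : Fin d → Bool => v < sg g w).card : ℝ) *
      Real.exp (t * v) ≤ ∑ g : Fin d → Bool, Real.exp (t * sg g w) := by
    rw [← nsmul_eq_mul, ← Finset.sum_const]
    refine le_trans (Finset.sum_le_sum fun g hg => Real.exp_le_exp.2
      (mul_le_mul_of_nonneg_left (mem_filter.1 hg).2.le ht0)) ?_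
    exact Finset.sum_le_sum_of_subset_of_nonneg (filter_subset _ _) fun x _ _ => by positivity
  have h2 : ∑ g : Fin d → Bool, Real.exp (t * sg g w) =
      ∏ i, ∑ b : Bool, Real.exp (t * if b = true then w i else -w i) := by
    rw [Fintype.prod_sum]
    refine Finset.sum_congr rfl fun g _ => ?_
    unfold sg
    rw [Finset.mul_sum, Real.exp_sum]
  have h3 : ∏ i, ∑ b : Bool, Real.exp (t * if b = true then w i else -w i) ≤
      ∏ i : Fin d, (2 * Real.exp (t ^ 2 * w i ^ 2 / 2)) := by
    refine Finset.prod_le_prod (fun i _ => by positivity) fun i _ => ?_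
    have := Real.cosh_le_exp_half_sq (t * w i)
    rw [Real.cosh_eq, mul_pow] at this
    simp only [Fintype.sum_bool, if_true, Bool.false_eq_true, if_false, mul_neg]
    linarith
  have h4 : ∏ i : Fin d, (2 * Real.exp (t ^ 2 * w i ^ 2 / 2)) ≤
      2 ^ d * Real.exp (t ^ 2 * ρ / 2) := by
    rw [Finset.prod_mul_distrib, prod_const, card_univ, Fintype.card_fin, ← Real.exp_sum]
    refine mul_le_mul_of_nonneg_left (Real.exp_le_exp.2 ?_) (by positivity)
    rw [← Finset.sum_div, ← Finset.mul_sum]
    gcongr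
  have h5 : Real.exp (t ^ 2 * ρ / 2) = Real.exp (-(v ^ 2 / (2 * ρ))) * Real.exp (t * v) := by
    rw [← Real.exp_add]; congr 1; rw [ht]; field_simp; ring
  have h6 := h1.trans (h2.le.trans (h3.trans h4))
  rw [h5, ← mul_assoc, mul_comm (2 ^ d : ℝ)] at h6
  exact le_of_mul_le_mul_right h6 (Real.exp_pos _)

/-- Sampling a finite probability space. -/
theorem sampling {S ι : Type*} [Fintype S] [DecidableEq S] [Nonempty S] (n : ℕ) (J : Finset ι)
    (P : ι → Finset S) (p q t : ι → ℝ) {r : ℝ} (ht0 : ∀ j ∈ J, 0 ≤ t j)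
    (hr : ∀ j ∈ J, p j * (Real.exp (t j) - 1) - t j * q j ≤ -r)
    (hP : ∀ j ∈ J, ((P j).card : ℝ) ≤ p j * Fintype.card S)
    (hJ : (J.card : ℝ) * Real.exp (-(r * n)) < 1) :
    ∃ T : Fin n → S, ∀ j ∈ J,
      ((Finset.univ.filter fun i => T i ∈ P j).card : ℝ) < q j * n := by
  classical
  set N : ℝ := (Fintype.card S : ℝ) with hN
  have hN0 : 0 < N := by rw [hN]; exact_mod_cast Fintype.card_pos
  let bad : ι → Finset (Fin n → S) := fun j => Finset.univ.filter fun T =>
    q j * n ≤ ((Finset.univ.filter fun i => T i ∈ P j).card : ℝ)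
  have hbad : ∀ j ∈ J, ((bad j).card : ℝ) ≤ Real.exp (-(r * n)) * N ^ n := by
    intro j hj
    have h1 : ((bad j).card : ℝ) * Real.exp (t j * (q j * n)) ≤
        ∑ T : Fin n → S, ∏ i, (if T i ∈ P j then Real.exp (t j) else 1) := by
      rw [← nsmul_eq_mul, ← Finset.sum_const]
      refine le_trans (Finset.sum_le_sum
        (g := fun T => ∏ i, (if T i ∈ P j then Real.exp (t j) else 1)) fun T hT => ?_) ?_
      · rw [Finset.prod_ite, prod_const, prod_const_one, mul_one, ← Real.exp_nat_mul,
          mul_comm _ (t j)]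
        exact Real.exp_le_exp.2 (mul_le_mul_of_nonneg_left (mem_filter.1 hT).2 (ht0 j hj))
      · exact Finset.sum_le_sum_of_subset_of_nonneg (filter_subset _ _) fun T _ _ =>
          Finset.prod_nonneg fun i _ => by split_ifs <;> positivity
    have h3 : ∑ T : Fin n → S, ∏ i, (if T i ∈ P j then Real.exp (t j) else 1) =
        (∑ x : S, (if x ∈ P j then Real.exp (t j) else 1)) ^ n := by
      rw [← Fintype.prod_sum (fun (_ : Fin n) (x : S) => if x ∈ P j then Real.exp (t j) else 1)]
      simp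
    have h4 : ∑ x : S, (if x ∈ P j then Real.exp (t j) else 1) ≤
        N * Real.exp (t j * q j - r) := by
      have e : ∀ x : S, (if x ∈ P j then Real.exp (t j) else 1) =
          1 + (if x ∈ P j then Real.exp (t j) - 1 else 0) := by
        intro x; split_ifs <;> ring
      simp only [e]
      rw [Finset.sum_add_distrib, Finset.sum_ite_mem, univ_inter, sum_const, sum_const, card_univ,
        nsmul_eq_mul, nsmul_eq_mul, mul_one, ← hN]
      have c1 : 0 ≤ Real.exp (t j) - 1 := by linarith [Real.one_le_exp (ht0 j hj)]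
      have c2 := Real.add_one_le_exp (t j * q j - r)
      have c3 := mul_le_mul_of_nonneg_right (hP j hj) c1
      have c4 := hr j hj
      nlinarith
    have h5 : (∑ x : S, (if x ∈ P j then Real.exp (t j) else 1)) ^ n ≤
        (N * Real.exp (t j * q j - r)) ^ n :=
      pow_le_pow_left₀ (Finset.sum_nonneg fun x _ => by split_ifs <;> positivity) h4 n
    have h6 : (N * Real.exp (t j * q j - r)) ^ n =
        Real.exp (-(r * n)) * N ^ n * Real.exp (t j * (q j * n)) := by
      rw [mul_pow, ← Real.exp_nat_mul, mul_comm (Real.exp _) (N ^ n), mul_assoc, ← Real.exp_add]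
      congr 2
      ring
    have h7 := h1.trans (h3.le.trans (h5.trans h6.le))
    exact le_of_mul_le_mul_right h7 (Real.exp_pos _)
  have hlt : (J.biUnion bad).card < (Finset.univ : Finset (Fin n → S)).card := by
    have c1 : ((J.biUnion bad).card : ℝ) ≤ J.card * (Real.exp (-(r * n)) * N ^ n) := by
      calc ((J.biUnion bad).card : ℝ) ≤ ∑ j ∈ J, ((bad j).card : ℝ) := by
            exact_mod_cast card_biUnion_le
        _ ≤ ∑ _j ∈ J, Real.exp (-(r * n)) * N ^ n := Finset.sum_le_sum hbad
        _ = _ := by rw [sum_const, nsmul_eq_mul]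
    have c2 : (((Finset.univ : Finset (Fin n → S)).card : ℕ) : ℝ) = N ^ n := by
      simp [hN]
    have c3 : (0 : ℝ) < N ^ n := by positivity
    have : ((J.biUnion bad).card : ℝ) < (((Finset.univ : Finset (Fin n → S)).card : ℕ) : ℝ) := by
      rw [c2]; nlinarith
    exact_mod_cast this
  obtain ⟨T, -, hT⟩ := exists_mem_notMem_of_card_lt_card hlt
  refine ⟨T, fun j hj => ?_⟩
  by_contra hc
  exact hT (mem_biUnion.2 ⟨j, hj, mem_filter.2 ⟨mem_univ _, not_lt.1 hc⟩⟩)

end Pool.Agent.MP_3a192b_co
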