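import Mathlib

namespace Pool.Agent.MP_3a192b_co.HS

/-- The linear threshold set with weights `v` and level `s` in the discrete cube, whose points are
read as vectors of signs. -/
noncomputable def ltf {d : ℕ} (v : Fin d → ℝ) (s : ℝ) : Finset (Fin d → Bool) :=
  Finset.univ.filter fun x => s < ∑ k, if x k = true then v k else -v k

/-- The graph on the indices of a family of threshold sets in which two distinct indices are
adjacent iff their sets meet in fewer than `ε 2 ^ d` points. -/
def cubeGraph {d m : ℕ} (ε : ℝ) (v : Fin m → Fin d → ℝ) (s : Fin m → ℝ) : SimpleGraph (Fin m) :=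
  SimpleGraph.fromRel fun i j => ((ltf (v i) (s i) ∩ ltf (v j) (s j)).card : ℝ) < ε * 2 ^ d

/-- The largest chromatic number of such a graph over all families of `m` threshold sets in the
cube of dimension `d`, each of size greater than `c 2 ^ d`. -/
noncomputable def chiCube (d m : ℕ) (c ε : ℝ) : ℕ :=
  sSup {k : ℕ | ∃ (v : Fin m → Fin d → ℝ) (s : Fin m → ℝ),
    (∀ i, c * 2 ^ d < ((ltf (v i) (s i)).card : ℝ)) ∧
      (cubeGraph ε v s).chromaticNumber = (k : ℕ∞)}

end Pool.Agent.MP_3a192b_co.HS
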