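import Mathlib

namespace Pool.Agent.MP_3a192b_co

/-- The graph on the indices of a family of `m` subsets of an `n`-set in which two distinct
indices are adjacent iff their sets meet in fewer than `ε n` points. -/
def smallGraph {n m : ℕ} (ε : ℝ) (A : Fin m → Finset (Fin n)) : SimpleGraph (Fin m) :=
  SimpleGraph.fromRel fun i j => ((A i ∩ A j).card : ℝ) < ε * n

/-- The largest chromatic number of such a graph over all families of `m` subsets of an `n`-set,
each of size greater than `c n`. -/
noncomputable def chiStar (n m : ℕ) (c ε : ℝ) : ℕ :=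
  sSup {k : ℕ | ∃ A : Fin m → Finset (Fin n),
    (∀ i, c * n < ((A i).card : ℝ)) ∧ (smallGraph ε A).chromaticNumber = (k : ℕ∞)}

end Pool.Agent.MP_3a192b_co
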