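import Pool.Agent.MP_3a192b_co.Sharp

namespace Pool.Agent.MP_3a192b_co

open Finset

/-- Many members of the family contain a common set of `⌈ε n⌉` points. -/
theorem exists_indep_star {n : ℕ} {c ε : ℝ} (hc : 0 < c) (hc1 : c < 1) (hε : 0 < ε)
    (hεc : ε ≤ c / 2) (𝒜 : Finset (Finset (Fin n))) (hne : 𝒜.Nonempty)
    (h𝒜 : ∀ B ∈ 𝒜, c * n < (B.card : ℝ)) :
    ∃ W ⊆ 𝒜, (∀ B ∈ W, ∀ B' ∈ W, ε * n ≤ ((B ∩ B').card : ℝ)) ∧
      (c / 2) ^ ⌈ε * n⌉₊ * (𝒜.card : ℝ) ≤ W.card := by
  classical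
  set t := ⌈ε * n⌉₊ with ht
  have hn0 : (0 : ℝ) ≤ n := by positivity
  have ht1 : ε * n ≤ t := Nat.le_ceil _
  have ht2 : (t : ℝ) < ε * n + 1 := Nat.ceil_lt_add_one (by positivity)
  have htn : t ≤ n := by
    rw [ht, Nat.ceil_le]; nlinarith
  let W : Finset (Fin n) → Finset (Finset (Fin n)) := fun T => 𝒜.filter fun B => T ⊆ B
  have hsum : ∑ _T ∈ powersetCard t (Finset.univ : Finset (Fin n)), (c / 2) ^ t * (𝒜.card : ℝ) ≤
      ∑ T ∈ powersetCard t (Finset.univ : Finset (Fin n)), ((W T).card : ℝ) := by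
    have e : ∑ T ∈ powersetCard t (Finset.univ : Finset (Fin n)), ((W T).card : ℝ) =
        ∑ B ∈ 𝒜, (B.card.choose t : ℝ) := by
      simp only [W, card_filter]
      push_cast
      rw [Finset.sum_comm]
      refine Finset.sum_congr rfl fun B _ => ?_
      rw [Finset.sum_boole, ← card_powersetCard]
      congr 2
      ext T
      simp [mem_powersetCard, and_comm]
    rw [e, sum_const, card_powersetCard, card_univ, Fintype.card_fin, nsmul_eq_mul]
    have h1 : ∀ B ∈ 𝒜, (n.choose t : ℝ) * (c / 2) ^ t ≤ (B.card.choose t : ℝ) := by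
      intro B hB
      have c1 : (n.choose t : ℝ) ≤ (n : ℝ) ^ t / t.factorial := Nat.choose_le_pow_div t n
      have c2 : (((B.card + 1 - t : ℕ) : ℝ)) ^ t / t.factorial ≤ (B.card.choose t : ℝ) :=
        Nat.pow_le_choose t B.card
      have c3 : c / 2 * n ≤ ((B.card + 1 - t : ℕ) : ℝ) := by
        have c4 := h𝒜 B hB
        have c5 : t ≤ B.card + 1 := by
          have : (t : ℝ) ≤ B.card + 1 := by nlinarith
          exact_mod_cast this
        rw [Nat.cast_sub c5]
        push_cast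
        nlinarith
      calc (n.choose t : ℝ) * (c / 2) ^ t ≤ (n : ℝ) ^ t / t.factorial * (c / 2) ^ t := by gcongr
        _ = (c / 2 * n) ^ t / t.factorial := by rw [mul_pow]; ring
        _ ≤ (((B.card + 1 - t : ℕ) : ℝ)) ^ t / t.factorial := by gcongr
        _ ≤ _ := c2
    calc (n.choose t : ℝ) * ((c / 2) ^ t * (𝒜.card : ℝ))
        = ∑ _B ∈ 𝒜, (n.choose t : ℝ) * (c / 2) ^ t := by rw [sum_const, nsmul_eq_mul]; ring
      _ ≤ _ := Finset.sum_le_sum h1
  have hne' : (powersetCard t (Finset.univ : Finset (Fin n))).Nonempty :=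
    powersetCard_nonempty.2 (by simpa using htn)
  obtain ⟨T, hT1, hT2⟩ := Finset.exists_le_of_sum_le hne' hsum
  refine ⟨W T, filter_subset _ _, fun B hB B' hB' => ?_, hT2⟩
  have h1 : T ⊆ B ∩ B' := subset_inter (mem_filter.1 hB).2 (mem_filter.1 hB').2
  have h2 := card_le_card h1
  rw [(mem_powersetCard.1 hT1).2] at h2
  exact ht1.trans (by exact_mod_cast h2)

theorem chiStar_le_star {c ε : ℝ} (hc : 0 < c) (hc1 : c < 1) (hε : 0 < ε) (hεc : ε ≤ c / 2)
    {n : ℕ} (hn : 1 ≤ n) (m : ℕ) :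
    (chiStar n m c ε : ℝ) ≤ 2 * n * (2 / c) ^ ⌈ε * n⌉₊ := by
  classical
  have hnR : (1 : ℝ) ≤ n := by exact_mod_cast hn
  refine chiStar_le_of_forall (by positivity) fun A hA => ?_
  obtain ⟨k, f, hk, hf1, hf2⟩ := exists_colouring
    (fun B B' : Finset (Fin n) => ε * n ≤ ((B ∩ B').card : ℝ))
    (fun B => c * n < (B.card : ℝ)) (a := (c / 2) ^ ⌈ε * n⌉₊) (γ := 1 / n) (by positivity)
    (by positivity) (by rw [div_le_one (by linarith)]; exact hnR)
    (fun 𝒜 hne h𝒜 => by
      obtain ⟨W, h1, h2, h3⟩ := exists_indep_star hc hc1 hε hεc 𝒜 hne h𝒜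
      refine ⟨W, h1, h2, le_trans (mul_le_mul_of_nonneg_left ?_ (by positivity)) h3⟩
      have hM : (1 : ℝ) ≤ 𝒜.card := by exact_mod_cast hne.card_pos
      have : (0 : ℝ) < 1 / n := by positivity
      calc (𝒜.card : ℝ) ^ (1 - 1 / (n : ℝ)) ≤ (𝒜.card : ℝ) ^ (1 : ℝ) :=
            Real.rpow_le_rpow_of_exponent_le hM (by linarith)
        _ = _ := Real.rpow_one _)
    (Finset.univ.image A) (by simpa using hA)
  refine ⟨k, hk.trans ?_, ?_⟩
  · have h1 : ((Finset.univ.image A).card : ℝ) ≤ 2 ^ n := by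
      have : (Finset.univ.image A).card ≤ 2 ^ n := by
        simpa using card_le_univ (Finset.univ.image A)
      exact_mod_cast this
    have h2 : ((Finset.univ.image A).card : ℝ) ^ (1 / (n : ℝ)) ≤ 2 := by
      calc ((Finset.univ.image A).card : ℝ) ^ (1 / (n : ℝ)) ≤ ((2 : ℝ) ^ n) ^ (1 / (n : ℝ)) := by
            gcongr
        _ = 2 := by
            rw [one_div, Real.pow_rpow_inv_natCast (by norm_num) (by omega)]
    have h3 : 1 / ((c / 2) ^ ⌈ε * n⌉₊ * (1 / (n : ℝ))) = n * (2 / c) ^ ⌈ε * n⌉₊ := by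
      rw [div_pow, div_pow]; field_simp
    rw [h3]
    calc n * (2 / c) ^ ⌈ε * n⌉₊ * ((Finset.univ.image A).card : ℝ) ^ (1 / (n : ℝ))
        ≤ n * (2 / c) ^ ⌈ε * n⌉₊ * 2 := by gcongr
      _ = _ := by ring
  · rw [SimpleGraph.colorable_iff_exists_bdd_nat_coloring]
    refine ⟨SimpleGraph.Coloring.mk (fun i => f (A i)) ?_,
      fun i => hf1 _ (mem_image_of_mem _ (mem_univ _))⟩
    intro i j hij he
    rw [smallGraph_adj] at hij
    have := hf2 _ (mem_image_of_mem _ (mem_univ i)) _ (mem_image_of_mem _ (mem_univ j)) he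
    linarith [hij.2]

theorem log_growth {c : ℝ} (hc0 : 0 < c) (hc : c < 1 / 2) :
    ∃ a b ε₀ : ℝ, 0 < a ∧ 0 < b ∧ 0 < ε₀ ∧ ∀ ε : ℝ, 0 < ε → ε < ε₀ → ∃ C : ℝ, ∀ n m : ℕ,
      1 ≤ n → 1 ≤ m →
      a / Real.log (Real.log (1 / ε)) * min (ε * n) (Real.log m / Real.log (1 / ε)) - C ≤
          Real.log (chiStar n m c ε) ∧
        Real.log (chiStar n m c ε) ≤ b * min (ε * n) (Real.log m / Real.log (1 / ε)) + C := by
  obtain ⟨a, ha, ε₀, hε₀, hlow⟩ := sharp_lower hc0 hc
  have hc1 : c < 1 := by linarith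
  have hl1 : 0 < Real.log (1 / c) := Real.log_pos (by rw [lt_div_iff₀ hc0]; linarith)
  have hl2 : 0 < Real.log (2 / c) := Real.log_pos (by rw [lt_div_iff₀ hc0]; linarith)
  refine ⟨a, 1 + Real.log (2 / c) + 2 * Real.log (1 / c), min ε₀ (c ^ 2), ha, by positivity,
    lt_min hε₀ (by positivity), fun ε hε hε0 => ?_⟩
  have hε1 : ε < ε₀ := hε0.trans_le (min_le_left _ _)
  have hε2 : ε ≤ c ^ 2 := (hε0.trans_le (min_le_right _ _)).le
  have hε3 : ε ≤ c / 2 := by nlinarith
  obtain ⟨hγ, hγ1⟩ := gamma_pos hc0 hc1 hε hε2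
  set γ := Real.log (1 / c) / Real.log (c / ε) with hγdef
  set Λ := Real.log (1 / ε) with hΛ
  have hΛc : 2 * Real.log (1 / c) ≤ Λ := by
    rw [hΛ, show 2 * Real.log (1 / c) = Real.log ((1 / c) ^ 2) by rw [Real.log_pow]; norm_num]
    refine Real.log_le_log (by positivity) ?_
    rw [div_pow, one_pow]
    exact one_div_le_one_div_of_le hε hε2
  have hΛ0 : 0 < Λ := by linarith
  have hcε : Real.log (c / ε) = Λ - Real.log (1 / c) := by
    rw [hΛ, ← Real.log_div (by positivity) (by positivity)]; congr 1; field_simp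
  have hγΛ : γ ≤ 2 * Real.log (1 / c) / Λ := by
    rw [hγdef, hcε, div_le_div_iff₀ (by linarith) hΛ0]; nlinarith
  refine ⟨2 + |Real.log (4 / (c * γ))| + |Real.log (2 / ε)| + Real.log (2 / c),
    fun n m hn hm => ?_⟩
  have hnR : (1 : ℝ) ≤ n := by exact_mod_cast hn
  have hmR : (1 : ℝ) ≤ m := by exact_mod_cast hm
  have hχ : (1 : ℝ) ≤ chiStar n m c ε := one_le_chiStar hc1 hn hm
  have a1 := abs_nonneg (Real.log (4 / (c * γ)))
  have a2 := abs_nonneg (Real.log (2 / ε))
  have a3 := le_abs_self (Real.log (4 / (c * γ)))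
  have a4 := le_abs_self (Real.log (2 / ε))
  constructor
  · have h1 := Real.log_le_log (by positivity) (hlow ε hε hε1 n m hn hm)
    rw [Real.log_mul (by norm_num) (Real.exp_pos _).ne', Real.log_exp] at h1
    have h2 : -2 ≤ Real.log (1 / 3) := by
      rw [Real.le_log_iff_exp_le (by norm_num), Real.exp_neg, inv_eq_one_div]
      refine one_div_le_one_div_of_le (by norm_num) ?_
      linarith [Real.add_one_le_exp (2 : ℝ)]
    linarith
  · have hlm : 0 ≤ Real.log m := Real.log_nonneg hmR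
    rcases min_choice (ε * n) (Real.log m / Λ) with h | h <;> rw [h]
    · have h1 := Real.log_le_log (by linarith) (chiStar_le_star hc0 hc1 hε hε3 hn m)
      have e : (2 : ℝ) * n = 2 / ε * (ε * n) := by field_simp
      rw [Real.log_mul (by positivity) (by positivity), Real.log_pow, e,
        Real.log_mul (by positivity) (by positivity)] at h1
      have h2 := Real.log_le_sub_one_of_pos (show 0 < ε * n by positivity)
      have h3 : (⌈ε * n⌉₊ : ℝ) < ε * n + 1 := Nat.ceil_lt_add_one (by positivity)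
      have h4 := mul_le_mul_of_nonneg_right h3.le hl2.le
      have h5 : 0 ≤ 2 * Real.log (1 / c) * (ε * n) := by positivity
      nlinarith
    · have h0 := chiStar_le hc0 hc1 hε hε2 n m
      rw [← hγdef] at h0
      have h00 : ((min m (2 ^ n) : ℕ) : ℝ) ^ γ ≤ (m : ℝ) ^ γ := by
        gcongr
        exact min_le_left _ _
      have h1 := Real.log_le_log (by linarith)
        (h0.trans (mul_le_mul_of_nonneg_left h00 (by positivity)))
      rw [Real.log_mul (by positivity) (by positivity), Real.log_rpow (by linarith)] at h1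
      have h2 := mul_le_mul_of_nonneg_right hγΛ hlm
      have e : 2 * Real.log (1 / c) / Λ * Real.log m =
          2 * Real.log (1 / c) * (Real.log m / Λ) := by ring
      have h3 : 0 ≤ (1 + Real.log (2 / c)) * (Real.log m / Λ) := by positivity
      nlinarith

end Pool.Agent.MP_3a192b_co
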