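import Mathlib

/-! General finite lemmas for the planted reflection chain (case `c = 1/2`). -/

open Finset

namespace Pool.Agent.MP_3a192b_co.Half

/-- Transfer along a maximal fractional matching. -/
theorem transfer {W : Type*} [Fintype W] (adj : W → W → Prop) (hsymm : ∀ u v, adj u v → adj v u)
    (hirr : ∀ u, ¬ adj u u) (φ ψ : W → ℝ) (B : ℝ) (hadj : ∀ u v, adj u v → φ u ≤ ψ v)
    (hB : ∀ v, φ v - B ≤ ψ v) (k : ℕ) :
    ∀ π : W → ℝ, (∀ w, 0 ≤ π w) → (univ.filter fun w => π w ≠ 0).card ≤ k →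
      ∃ (I : Finset W) (β : W → ℝ), (∀ u ∈ I, ∀ v ∈ I, ¬ adj u v) ∧ (∀ w, 0 ≤ β w) ∧
        (∀ w, β w ≤ π w) ∧ (∀ w, w ∉ I → β w = 0) ∧
        ∑ w, π w * φ w - B * ∑ w, β w ≤ ∑ w, π w * ψ w := by
  classical
  have base : ∀ π : W → ℝ, (∀ w, 0 ≤ π w) →
      (∀ u, π u ≠ 0 → ∀ v, π v ≠ 0 → ¬ adj u v) →
      ∃ (I : Finset W) (β : W → ℝ), (∀ u ∈ I, ∀ v ∈ I, ¬ adj u v) ∧ (∀ w, 0 ≤ β w) ∧
        (∀ w, β w ≤ π w) ∧ (∀ w, w ∉ I → β w = 0) ∧
        ∑ w, π w * φ w - B * ∑ w, β w ≤ ∑ w, π w * ψ w := by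
    intro π hπ hind
    refine ⟨univ.filter fun w => π w ≠ 0, π, ?_, hπ, fun _ => le_rfl, ?_, ?_⟩
    · intro u hu v hv
      exact hind u (mem_filter.1 hu).2 v (mem_filter.1 hv).2
    · intro w hw
      by_contra h
      exact hw (mem_filter.2 ⟨mem_univ _, h⟩)
    · rw [mul_sum, ← sum_sub_distrib]
      refine sum_le_sum fun w _ => ?_
      nlinarith [mul_le_mul_of_nonneg_left (hB w) (hπ w)]
  induction k with
  | zero =>
    intro π hπ hk
    refine base π hπ fun u hu => ?_
    exfalso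
    have : u ∈ univ.filter fun w => π w ≠ 0 := mem_filter.2 ⟨mem_univ _, hu⟩
    have := card_pos.2 ⟨u, this⟩
    omega
  | succ k ih =>
    intro π hπ hk
    by_cases hind : ∀ u, π u ≠ 0 → ∀ v, π v ≠ 0 → ¬ adj u v
    · exact base π hπ hind
    push Not at hind
    have key : ∀ u v, π u ≠ 0 → adj u v → π u ≤ π v →
        ∃ (I : Finset W) (β : W → ℝ), (∀ u ∈ I, ∀ v ∈ I, ¬ adj u v) ∧ (∀ w, 0 ≤ β w) ∧
          (∀ w, β w ≤ π w) ∧ (∀ w, w ∉ I → β w = 0) ∧
          ∑ w, π w * φ w - B * ∑ w, β w ≤ ∑ w, π w * ψ w := by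
      intro u v hu huv hle
      have hne : u ≠ v := by
        rintro rfl
        exact hirr u huv
      set π' : W → ℝ := fun w => π w - (if w = u then π u else 0) - (if w = v then π u else 0)
        with hπ'
      have h0 : ∀ w, 0 ≤ π' w := by
        intro w
        simp only [hπ']
        by_cases h1 : w = u
        · subst h1
          simp [hne]
        · by_cases h2 : w = v
          · subst h2
            simp only [h1, if_false, if_true]
            linarith
          · simp only [h1, h2, if_false]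
            linarith [hπ w]
      have h1 : ∀ w, π' w ≤ π w := by
        intro w
        simp only [hπ']
        have := hπ u
        split_ifs <;> linarith
      have hcard : (univ.filter fun w => π' w ≠ 0).card ≤ k := by
        have hsub : (univ.filter fun w => π' w ≠ 0) ⊆ (univ.filter fun w => π w ≠ 0).erase u := by
          intro w hw
          have hw' := (mem_filter.1 hw).2
          refine mem_erase.2 ⟨?_, mem_filter.2 ⟨mem_univ _, ?_⟩⟩
          · rintro rfl
            apply hw'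
            simp [hπ', hne]
          · intro h
            apply hw'
            exact le_antisymm (h ▸ h1 w) (h0 w)
        have := card_le_card hsub
        have hmem : u ∈ univ.filter fun w => π w ≠ 0 := mem_filter.2 ⟨mem_univ _, hu⟩
        rw [card_erase_of_mem hmem] at this
        omega
      obtain ⟨I, β, hI, hβ0, hβ1, hβ2, hsum⟩ := ih π' h0 hcard
      refine ⟨I, β, hI, hβ0, fun w => (hβ1 w).trans (h1 w), hβ2, ?_⟩
      have e : ∀ f : W → ℝ, ∑ w, π' w * f w = ∑ w, π w * f w - π u * f u - π u * f v := by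
        intro f
        simp only [hπ', sub_mul, sum_sub_distrib, ite_mul, zero_mul, sum_ite_eq', mem_univ, if_true]
      rw [e, e] at hsum
      have h2 := mul_le_mul_of_nonneg_left (hadj u v huv) (hπ u)
      have h3 := mul_le_mul_of_nonneg_left (hadj v u (hsymm u v huv)) (hπ u)
      linarith
    obtain ⟨u, hu, v, hv, huv⟩ := hind
    rcases le_total (π u) (π v) with h | h
    · exact key u v hu huv h
    · exact key v u hv (hsymm u v huv) h

theorem sum_prod_eq {Z : Type*} [Fintype Z] {N : ℕ} (R : Fin N → Z → ℝ) :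
    ∑ g : Fin N → Z, ∏ i, R i (g i) = ∏ i, ∑ z, R i z := by
  classical
  rw [Finset.prod_univ_sum, Fintype.piFinset_univ]

/-- Marginal of a product weight. -/
theorem marginal {Z : Type*} [Fintype Z] {N : ℕ} (R : Fin N → Z → ℝ) (hR : ∀ i, ∑ z, R i z = 1)
    (j : Fin N) (f : Z → ℝ) :
    ∑ g : Fin N → Z, (∏ i, R i (g i)) * f (g j) = ∑ z, R j z * f z := by
  classical
  have h := sum_prod_eq (fun i z => R i z * (if i = j then f z else 1))
  have e1 : ∀ g : Fin N → Z, ∏ i, (R i (g i) * (if i = j then f (g i) else 1)) =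
      (∏ i, R i (g i)) * f (g j) := by
    intro g
    rw [prod_mul_distrib, prod_ite_eq']
    simp
  have e2 : ∏ i, ∑ z, R i z * (if i = j then f z else 1) = ∑ z, R j z * f z := by
    rw [Finset.prod_eq_single j]
    · simp
    · intro i _ hi
      simp [hi, hR i]
    · simp
  simp only [e1, e2] at h
  exact h

theorem linear_mean {Z : Type*} [Fintype Z] {N : ℕ} (R : Fin N → Z → ℝ)
    (hR : ∀ i, ∑ z, R i z = 1) (f : Z → ℝ) :
    ∑ g : Fin N → Z, (∏ i, R i (g i)) * ∑ j, f (g j) = ∑ j, ∑ z, R j z * f z := by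
  simp only [mul_sum]
  rw [sum_comm]
  exact sum_congr rfl fun j _ => marginal R hR j f

/-- Expected maximum of a finite family of sums of bounded independent terms. -/
theorem max_bound {Z κ : Type*} [Fintype Z] {N : ℕ} (p : Z → ℝ) (hp0 : ∀ z, 0 ≤ p z)
    (hp1 : ∑ z, p z = 1) (K : Finset κ) (f : κ → Z → ℝ) (hf : ∀ k z, |f k z| ≤ 1) (θ l : ℝ)
    (hl0 : 0 < l) (hl1 : l ≤ 1) (hθ : ∀ k ∈ K, ∑ z, p z * f k z ≤ θ)
    (sel : (Fin N → Z) → κ) (hsel : ∀ g, sel g ∈ K) :
    ∑ g : Fin N → Z, (∏ i, p (g i)) * ∑ i, f (sel g) (g i) ≤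
      (θ + 2 * l) * N + K.card / l * Real.exp (-(l ^ 2 * N)) := by
  set T : ℝ := (θ + 2 * l) * N with hT
  have hP : ∀ g : Fin N → Z, 0 ≤ ∏ i, p (g i) := fun g => prod_nonneg fun i _ => hp0 _
  have h1 : ∀ g : Fin N → Z, ∑ i, f (sel g) (g i) ≤
      T + 1 / l * Real.exp (-(l * T)) * ∑ k ∈ K, ∏ i, Real.exp (l * f k (g i)) := by
    intro g
    have h2 : ∏ i, Real.exp (l * f (sel g) (g i)) ≤ ∑ k ∈ K, ∏ i, Real.exp (l * f k (g i)) :=
      single_le_sum (f := fun k => ∏ i, Real.exp (l * f k (g i)))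
        (fun k _ => prod_nonneg fun i _ => (Real.exp_pos _).le) (hsel g)
    rw [← Real.exp_sum, ← mul_sum] at h2
    set X := ∑ i, f (sel g) (g i)
    have h3 := Real.add_one_le_exp (l * X - l * T)
    have h4 : Real.exp (l * X - l * T) = Real.exp (-(l * T)) * Real.exp (l * X) := by
      rw [← Real.exp_add]; congr 1; ring
    have h5 := mul_le_mul_of_nonneg_left h2 (Real.exp_pos (-(l * T))).le
    have h6 : l * (X - T) ≤ Real.exp (-(l * T)) * ∑ k ∈ K, ∏ i, Real.exp (l * f k (g i)) := by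
      linarith
    have h7 : X - T ≤ 1 / l * (Real.exp (-(l * T)) * ∑ k ∈ K, ∏ i, Real.exp (l * f k (g i))) := by
      rw [one_div, inv_mul_eq_div, le_div_iff₀ hl0]
      linarith
    linarith
  have h8 : ∀ k ∈ K, ∑ g : Fin N → Z, (∏ i, p (g i)) * ∏ i, Real.exp (l * f k (g i)) ≤
      Real.exp ((l * θ + l ^ 2) * N) := by
    intro k hk
    simp only [← prod_mul_distrib]
    rw [sum_prod_eq (fun _ z => p z * Real.exp (l * f k z))]
    have h9 : ∑ z, p z * Real.exp (l * f k z) ≤ Real.exp (l * θ + l ^ 2) := by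
      have h10 : ∀ z, p z * Real.exp (l * f k z) ≤ p z * (1 + l ^ 2) + l * (p z * f k z) := by
        intro z
        have h11 : |l * f k z| ≤ 1 := by
          rw [abs_mul, abs_of_pos hl0]
          nlinarith [hf k z, abs_nonneg (f k z)]
        have h12 := (abs_le.1 (Real.abs_exp_sub_one_sub_id_le h11)).2
        have h13 : (l * f k z) ^ 2 ≤ l ^ 2 := by
          rw [mul_pow]
          have : f k z ^ 2 ≤ 1 := by
            rw [← sq_abs]
            nlinarith [hf k z, abs_nonneg (f k z)]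
          nlinarith [sq_nonneg l]
        nlinarith [mul_le_mul_of_nonneg_left (show Real.exp (l * f k z) ≤
          1 + l ^ 2 + l * f k z by linarith) (hp0 z)]
      have h14 := sum_le_sum fun z (_ : z ∈ univ) => h10 z
      rw [sum_add_distrib, ← sum_mul, ← mul_sum, hp1] at h14
      have h15 := mul_le_mul_of_nonneg_left (hθ k hk) hl0.le
      have h16 := Real.add_one_le_exp (l * θ + l ^ 2)
      linarith
    rw [prod_const, card_univ, Fintype.card_fin, mul_comm _ (N : ℝ), Real.exp_nat_mul]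
    exact pow_le_pow_left₀ (sum_nonneg fun z _ => mul_nonneg (hp0 z) (Real.exp_pos _).le) h9 N
  have hsum1 : ∑ g : Fin N → Z, ∏ i, p (g i) = 1 := by
    rw [sum_prod_eq (fun _ z => p z)]
    simp [hp1]
  calc _ ≤ ∑ g : Fin N → Z, (∏ i, p (g i)) *
        (T + 1 / l * Real.exp (-(l * T)) * ∑ k ∈ K, ∏ i, Real.exp (l * f k (g i))) :=
        sum_le_sum fun g _ => mul_le_mul_of_nonneg_left (h1 g) (hP g)
    _ = T + 1 / l * Real.exp (-(l * T)) *
        ∑ k ∈ K, ∑ g : Fin N → Z, (∏ i, p (g i)) * ∏ i, Real.exp (l * f k (g i)) := by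
        simp only [mul_add, sum_add_distrib]
        rw [← sum_mul, hsum1, one_mul, sum_comm, mul_sum]
        congr 1
        refine sum_congr rfl fun g _ => ?_
        rw [← mul_sum]
        ring
    _ ≤ T + 1 / l * Real.exp (-(l * T)) * (K.card * Real.exp ((l * θ + l ^ 2) * N)) := by
        gcongr
        have := sum_le_card_nsmul K _ _ h8
        rwa [nsmul_eq_mul] at this
    _ = T + K.card / l * Real.exp (-(l ^ 2 * N)) := by
        have : Real.exp (-(l * T)) * Real.exp ((l * θ + l ^ 2) * N) = Real.exp (-(l ^ 2 * N)) := by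
          rw [← Real.exp_add, hT]; congr 1; ring
        rw [← this]
        ring

end Pool.Agent.MP_3a192b_co.Half
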