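import Pool.Agent.MP_3a192b_co.HalfA

/-! The planted model, the reflection kernel and their elementary properties. -/

open Finset

namespace Pool.Agent.MP_3a192b_co.Half

variable {Ω W : Type*}

/-- Correlation of a labelled point with the sign vector of `w`. -/
def corr (y : W → Ω → Bool) (w : W) (z : Ω × Bool) : ℝ := if z.2 = y w z.1 then 1 else -1

/-- The law of one labelled point planted at `w`. -/
noncomputable def pl [Fintype Ω] (y : W → Ω → Bool) (ρ : ℝ) (w : W) (z : Ω × Bool) : ℝ :=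
  (1 + ρ * corr y w z) / (2 * Fintype.card Ω)

/-- Hamming distance of the sign vectors. -/
def dis [Fintype Ω] (y : W → Ω → Bool) (w w' : W) : ℝ := ∑ x, if y w x = y w' x then 0 else 1

/-- Flip probability. -/
def tt (y : W → Ω → Bool) (q : ℝ) (v : W) (z : Ω × Bool) : ℝ := if z.2 = y v z.1 then q else 0

open Classical in
/-- The reflection kernel. -/
noncomputable def ker (y : W → Ω → Bool) (q : ℝ) (v : W) (z z' : Ω × Bool) : ℝ :=
  (if z' = z then 1 - tt y q v z else 0) + (if z' = (z.1, !z.2) then tt y q v z else 0)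

/-- Agreement indicator. -/
def agr (y : W → Ω → Bool) (w v : W) (z : Ω × Bool) : ℝ := if y w z.1 = y v z.1 then 1 else 0

variable (y : W → Ω → Bool)

theorem corr_abs (w : W) (z : Ω × Bool) : |corr y w z| ≤ 1 := by
  unfold corr; split_ifs <;> simp

theorem agr_abs (w v : W) (z : Ω × Bool) : |agr y w v z| ≤ 1 := by
  unfold agr; split_ifs <;> simp

theorem corr_flip (w : W) (z : Ω × Bool) : corr y w (z.1, !z.2) = - corr y w z := by
  unfold corr
  rcases z with ⟨x, b⟩
  cases b <;> cases h : y w x <;> simp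

theorem sum_corr_le {N : ℕ} (w : W) (g : Fin N → Ω × Bool) : |∑ i, corr y w (g i)| ≤ N := by
  refine (abs_sum_le_sum_abs _ _).trans ?_
  have := sum_le_card_nsmul univ (fun i => |corr y w (g i)|) 1 fun i _ => corr_abs y w (g i)
  simpa using this

variable [Fintype Ω]

theorem pl_nonneg {ρ : ℝ} (h0 : 0 ≤ ρ) (h1 : ρ ≤ 1) (w : W) (z : Ω × Bool) : 0 ≤ pl y ρ w z := by
  unfold pl corr
  split_ifs
  · positivity
  · exact div_nonneg (by linarith) (by positivity)

theorem pl_mean (ρ : ℝ) (w : W) (h : Ω × Bool → ℝ) :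
    ∑ z, pl y ρ w z * h z = (∑ x, ((1 + ρ) / 2 * h (x, y w x) + (1 - ρ) / 2 * h (x, !y w x))) /
      Fintype.card Ω := by
  rw [Fintype.sum_prod_type, sum_div]
  refine sum_congr rfl fun x _ => ?_
  rw [Fintype.sum_bool]
  unfold pl corr
  cases hx : y w x <;> simp <;> ring

theorem pl_sum (hn : 0 < Fintype.card Ω) (ρ : ℝ) (w : W) : ∑ z, pl y ρ w z = 1 := by
  have h := pl_mean y ρ w fun _ => 1
  have hn' : (Fintype.card Ω : ℝ) ≠ 0 := by exact_mod_cast hn.ne'
  simp only [mul_one] at h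
  rw [h, sum_const, card_univ, nsmul_eq_mul]
  field_simp
  ring

theorem pl_corr_self (hn : 0 < Fintype.card Ω) (ρ : ℝ) (w : W) :
    ∑ z, pl y ρ w z * corr y w z = ρ := by
  have hn' : (Fintype.card Ω : ℝ) ≠ 0 := by exact_mod_cast hn.ne'
  rw [pl_mean]
  have : ∀ x, (1 + ρ) / 2 * corr y w (x, y w x) + (1 - ρ) / 2 * corr y w (x, !y w x) = ρ := by
    intro x
    unfold corr
    simp
    ring
  simp only [this]
  rw [sum_const, card_univ, nsmul_eq_mul]
  field_simp

theorem pl_corr_le (hn : 0 < Fintype.card Ω) {ρ : ℝ} (h0 : 0 ≤ ρ) (w w' : W) :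
    ∑ z, pl y ρ w z * corr y w' z ≤ ρ := by
  have hn' : (0 : ℝ) < Fintype.card Ω := by exact_mod_cast hn
  rw [pl_mean, div_le_iff₀ hn']
  have : ∀ x, (1 + ρ) / 2 * corr y w' (x, y w x) + (1 - ρ) / 2 * corr y w' (x, !y w x) ≤ ρ := by
    intro x
    have h1 := corr_flip y w' (x, y w x)
    have h2 := (abs_le.1 (corr_abs y w' (x, y w x))).2
    simp only at h1
    rw [h1]
    nlinarith
  have h3 := sum_le_card_nsmul univ _ ρ fun x _ => this x
  rw [card_univ, nsmul_eq_mul] at h3
  linarith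

theorem pl_tt (hn : 0 < Fintype.card Ω) {ρ q : ℝ} (hq : q * (1 + ρ) = 2 * ρ) (v : W) :
    ∑ z, pl y ρ v z * tt y q v z = ρ := by
  have hn' : (Fintype.card Ω : ℝ) ≠ 0 := by exact_mod_cast hn.ne'
  rw [pl_mean]
  have : ∀ x, (1 + ρ) / 2 * tt y q v (x, y v x) + (1 - ρ) / 2 * tt y q v (x, !y v x) = ρ := by
    intro x
    unfold tt
    simp
    linarith
  simp only [this]
  rw [sum_const, card_univ, nsmul_eq_mul]
  field_simp

theorem pl_agr (ρ : ℝ) (v v' w : W) (hv : ∀ x, y v' x = !y v x) :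
    ∑ z, pl y ρ v z * agr y w v z = dis y v' w / Fintype.card Ω := by
  rw [pl_mean]
  congr 1
  unfold dis
  refine sum_congr rfl fun x _ => ?_
  unfold agr
  rw [hv x]
  cases y w x <;> cases y v x <;> simp <;> ring

theorem sq_mean (hn : 0 < Fintype.card Ω) (ρ : ℝ) (w : W) :
    ∑ z, (1 + ρ * corr y w z) ^ 2 / (2 * Fintype.card Ω) = 1 + ρ ^ 2 := by
  have h : ∀ z, (1 + ρ * corr y w z) ^ 2 / (2 * Fintype.card Ω) =
      pl y ρ w z + ρ * (pl y ρ w z * corr y w z) := by
    intro z
    unfold pl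
    ring
  simp only [h]
  rw [sum_add_distrib, ← mul_sum, pl_sum y hn, pl_corr_self y hn]
  ring

theorem dis_self (w : W) : dis y w w = 0 := by simp [dis]

theorem dis_triangle (u v w : W) : dis y u w ≤ dis y u v + dis y v w := by
  unfold dis
  rw [← sum_add_distrib]
  refine sum_le_sum fun x _ => ?_
  cases y u x <;> cases y v x <;> cases y w x <;> simp

theorem ker_mean (q : ℝ) (v : W) (z : Ω × Bool) (h : Ω × Bool → ℝ) :
    ∑ z', ker y q v z z' * h z' = (1 - tt y q v z) * h z + tt y q v z * h (z.1, !z.2) := by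
  classical
  unfold ker
  simp only [add_mul, sum_add_distrib, ite_mul, zero_mul, sum_ite_eq', mem_univ, if_true]

theorem ker_sum (q : ℝ) (v : W) (z : Ω × Bool) : ∑ z', ker y q v z z' = 1 := by
  have h := ker_mean y q v z fun _ => 1
  simpa using h

omit [Fintype Ω] in
theorem ker_nonneg {q : ℝ} (h0 : 0 ≤ q) (h1 : q ≤ 1) (v : W) (z z' : Ω × Bool) :
    0 ≤ ker y q v z z' := by
  unfold ker tt
  split_ifs <;> linarith

theorem pl_ker {ρ q : ℝ} (hq : q * (1 + ρ) = 2 * ρ) (v v' : W) (hv : ∀ x, y v' x = !y v x)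
    (z' : Ω × Bool) : ∑ z, pl y ρ v z * ker y q v z z' = pl y ρ v' z' := by
  classical
  rcases z' with ⟨x, b⟩
  have e : ∀ z : Ω × Bool, pl y ρ v z * ker y q v z (x, b) =
      (if z = (x, b) then pl y ρ v (x, b) * (1 - tt y q v (x, b)) else 0) +
        (if z = (x, !b) then pl y ρ v (x, !b) * tt y q v (x, !b) else 0) := by
    rintro ⟨x', b'⟩
    unfold ker
    by_cases hx : x' = x
    · subst hx
      cases b <;> cases b' <;> simp
    · have hx' : ¬ x = x' := fun h => hx h.symm
      simp [hx, hx']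
  simp only [e, sum_add_distrib, sum_ite_eq', mem_univ, if_true]
  unfold pl tt corr
  simp only [hv x]
  cases b <;> cases y v x <;> simp <;> rw [← sub_eq_zero] <;>
    first
      | (have : ∀ c : ℝ, (1 + ρ) * c * (1 - q) - (1 + -ρ) * c = 0 := fun c => by
            linear_combination (-c) * hq
         simpa [div_eq_mul_inv] using this _)
      | (have : ∀ c : ℝ, (1 + -ρ) * c + (1 + ρ) * c * q - (1 + ρ) * c = 0 := fun c => by
            linear_combination c * hq
         simpa [div_eq_mul_inv] using this _)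

omit [Fintype Ω] in
theorem refl_gain {q : ℝ} (h0 : 0 ≤ q) (v w : W) (z : Ω × Bool) :
    corr y w z + 2 * tt y q v z - 4 * q * agr y w v z ≤
      (1 - tt y q v z) * corr y w z + tt y q v z * corr y w (z.1, !z.2) := by
  rw [corr_flip]
  unfold corr tt agr
  rcases z with ⟨x, b⟩
  cases b <;> cases y w x <;> cases y v x <;> simp <;> linarith

end Pool.Agent.MP_3a192b_co.Half
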