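import Pool.Agent.MP_3a192b_co.HalfB

/-! The planted reflection chain: one step and the iteration. -/

open Finset

namespace Pool.Agent.MP_3a192b_co.Half

variable {Ω W : Type*} [Fintype Ω] [Fintype W] (y : W → Ω → Bool)

/-- The planted weight of a sample. -/
noncomputable def PP (ρ : ℝ) {N : ℕ} (w : W) (g : Fin N → Ω × Bool) : ℝ := ∏ i, pl y ρ w (g i)

/-- The correlation of a sample with `w`. -/
def SS {N : ℕ} (w : W) (g : Fin N → Ω × Bool) : ℝ := ∑ i, corr y w (g i)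

omit [Fintype W] in
theorem reflect {ρ q : ℝ} (hq : q * (1 + ρ) = 2 * ρ) {N : ℕ} (v v' : W)
    (hv : ∀ x, y v' x = !y v x) (H : (Fin N → Ω × Bool) → ℝ) :
    ∑ g, PP y ρ v g * ∑ g' : Fin N → Ω × Bool, (∏ i, ker y q v (g i) (g' i)) * H g' =
      ∑ g', PP y ρ v' g' * H g' := by
  simp only [mul_sum]
  rw [sum_comm]
  refine sum_congr rfl fun g' _ => ?_
  simp only [← mul_assoc]
  rw [← sum_mul]
  congr 1
  unfold PP
  simp only [← prod_mul_distrib]
  rw [sum_prod_eq (fun i z => pl y ρ v z * ker y q v z (g' i))]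
  exact prod_congr rfl fun i _ => pl_ker y hq v v' hv (g' i)

omit [Fintype W] in
theorem reflect_ge {q : ℝ} (h0 : 0 ≤ q) (h1 : q ≤ 1) {N : ℕ} (v w : W) (g : Fin N → Ω × Bool)
    (H : (Fin N → Ω × Bool) → ℝ) (hH : ∀ g', SS y w g' ≤ H g') :
    SS y w g + 2 * ∑ i, tt y q v (g i) - 4 * q * ∑ i, agr y w v (g i) ≤
      ∑ g' : Fin N → Ω × Bool, (∏ i, ker y q v (g i) (g' i)) * H g' := by
  have h2 : ∑ g' : Fin N → Ω × Bool, (∏ i, ker y q v (g i) (g' i)) * SS y w g' ≤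
      ∑ g' : Fin N → Ω × Bool, (∏ i, ker y q v (g i) (g' i)) * H g' :=
    sum_le_sum fun g' _ => mul_le_mul_of_nonneg_left (hH g')
      (prod_nonneg fun i _ => ker_nonneg y h0 h1 v _ _)
  refine le_trans ?_ h2
  unfold SS
  rw [linear_mean (fun i z => ker y q v (g i) z) (fun i => ker_sum y q v (g i)) (corr y w),
    mul_sum, mul_sum, ← sum_add_distrib, ← sum_sub_distrib]
  refine sum_le_sum fun i _ => ?_
  rw [ker_mean]
  exact refl_gain y h0 v w (g i)

omit [Fintype W] in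
theorem PP_le (ρ τ : ℝ) (hτ : 0 < τ) {N : ℕ} (w : W) (g : Fin N → Ω × Bool) :
    PP y ρ w g ≤ τ * ∏ i, ((1 + ρ * corr y w (g i)) ^ 2 / (2 * Fintype.card Ω)) +
      1 / (4 * τ) * ∏ _i : Fin N, (1 / (2 * Fintype.card Ω) : ℝ) := by
  set U : ℝ := ∏ _i : Fin N, (1 / (2 * Fintype.card Ω) : ℝ) with hU
  set Λ : ℝ := ∏ i, (1 + ρ * corr y w (g i)) with hΛ
  have hU0 : 0 ≤ U := prod_nonneg fun _ _ => by positivity
  have e1 : PP y ρ w g = Λ * U := by
    unfold PP pl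
    rw [hΛ, hU, ← prod_mul_distrib]
    exact prod_congr rfl fun i _ => by ring
  have e2 : ∏ i, ((1 + ρ * corr y w (g i)) ^ 2 / (2 * Fintype.card Ω)) = Λ ^ 2 * U := by
    rw [hΛ, hU, ← prod_pow, ← prod_mul_distrib]
    exact prod_congr rfl fun i _ => by ring
  rw [e1, e2]
  have h : Λ ≤ τ * Λ ^ 2 + 1 / (4 * τ) := by
    have h1 : τ * Λ ^ 2 + 1 / (4 * τ) - Λ = (2 * τ * Λ - 1) ^ 2 / (4 * τ) := by
      field_simp
      ring
    have h2 : 0 ≤ (2 * τ * Λ - 1) ^ 2 / (4 * τ) := by positivity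
    linarith
  nlinarith [mul_le_mul_of_nonneg_right h hU0]

theorem step (hn : 0 < Fintype.card Ω) (neg : W ≃ W) (hneg : ∀ w x, y (neg w) x = !y w x)
    (adj : W → W → Prop) (hsymm : ∀ u v, adj u v → adj v u) (hirr : ∀ u, ¬ adj u u)
    (s : ℝ) (hs : 0 ≤ s) (hadj : ∀ u v, adj u v → dis y (neg v) u ≤ s)
    {ρ : ℝ} (hρ0 : 0 < ρ) (hρ1 : ρ ≤ 1) {N : ℕ}
    (hN : 64 * (Fintype.card W : ℝ) * Real.exp (-((1 / 64) ^ 2 * N)) ≤ N / 32)
    (A : ℝ) (hA : ∀ I : Finset W, (∀ u ∈ I, ∀ v ∈ I, ¬ adj u v) → (I.card : ℝ) ≤ A)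
    (hAρ : A ≤ ρ ^ 2 * Fintype.card W / (64 * Real.exp (ρ ^ 2 * N)))
    (r : ℝ) (hr0 : 0 ≤ r) (hr : r + s ≤ Fintype.card Ω / 16)
    (a0 a1 : W → (Fin N → Ω × Bool) → W) (h0 : ∀ w g, dis y w (a0 w g) ≤ r)
    (h1 : ∀ w g w', dis y w w' ≤ r + s → SS y w' g ≤ SS y (a1 w g) g) :
    ∑ w, ∑ g, PP y ρ w g * SS y (a0 w g) g + 3 / 4 * ρ * N * Fintype.card W ≤
      ∑ w, ∑ g, PP y ρ w g * SS y (a1 w g) g := by
  classical
  set M : ℝ := (Fintype.card W : ℝ) with hM
  set q : ℝ := 2 * ρ / (1 + ρ) with hqdef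
  have hq : q * (1 + ρ) = 2 * ρ := by rw [hqdef]; field_simp
  have hq0 : 0 ≤ q := by positivity
  have hq1 : q ≤ 1 := by rw [hqdef, div_le_one (by positivity)]; linarith
  have hq2 : q ≤ 2 * ρ := by nlinarith
  have hnR : (0 : ℝ) < Fintype.card Ω := by exact_mod_cast hn
  have hP0 : ∀ w (g : Fin N → Ω × Bool), 0 ≤ PP y ρ w g := fun w g =>
    prod_nonneg fun i _ => pl_nonneg y hρ0.le hρ1 w _
  set Ψ : W → (Fin N → Ω × Bool) → ℝ := fun v g =>
    ∑ g' : Fin N → Ω × Bool, (∏ i, ker y q v (g i) (g' i)) * SS y (a1 (neg v) g') g' with hΨ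
  have e1 : ∑ v, ∑ g, PP y ρ v g * Ψ v g = ∑ w, ∑ g, PP y ρ w g * SS y (a1 w g) g := by
    rw [← Equiv.sum_comp neg (fun w => ∑ g, PP y ρ w g * SS y (a1 w g) g)]
    exact sum_congr rfl fun v _ => reflect y hq v (neg v) (hneg v) _
  have hsel : ∀ (v : W) (g : Fin N → Ω × Bool),
      ∃ w ∈ univ.filter (fun w => dis y (neg v) w ≤ r + s),
        ∀ w' ∈ univ.filter (fun w => dis y (neg v) w ≤ r + s),
          ∑ i, agr y w' v (g i) ≤ ∑ i, agr y w v (g i) := fun v g =>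
    exists_max_image _ _ ⟨neg v, mem_filter.2 ⟨mem_univ _, by rw [dis_self]; linarith⟩⟩
  choose sel hsel1 hsel2 using hsel
  set ψ : W → (Fin N → Ω × Bool) → ℝ := fun v g =>
    Ψ v g - 2 * ∑ i, tt y q v (g i) + 4 * q * ∑ i, agr y (sel v g) v (g i) with hψ
  have hge : ∀ v g w, dis y (neg v) w ≤ r + s → SS y w g ≤ ψ v g := by
    intro v g w hw
    have h2 := reflect_ge y hq0 hq1 v w g (fun g' => SS y (a1 (neg v) g') g')
      fun g' => h1 (neg v) g' w hw
    have h3 := mul_le_mul_of_nonneg_left (hsel2 v g w (mem_filter.2 ⟨mem_univ _, hw⟩))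
      (show 0 ≤ 4 * q by positivity)
    simp only [hψ, hΨ]
    linarith
  set E : ℝ := Real.exp (ρ ^ 2 * N) with hE
  have hE0 : 0 < E := Real.exp_pos _
  set τ : ℝ := ρ / (16 * E) with hτ
  have hτ0 : 0 < τ := by positivity
  set U : ℝ := ∏ _i : Fin N, (1 / (2 * Fintype.card Ω) : ℝ) with hU
  have hU0 : 0 ≤ U := prod_nonneg fun _ _ => by positivity
  have hg : ∀ g : Fin N → Ω × Bool,
      ∑ w, PP y ρ w g * SS y (a0 w g) g - 2 * N *
        (τ * ∑ w, ∏ i, ((1 + ρ * corr y w (g i)) ^ 2 / (2 * Fintype.card Ω)) +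
          A * (1 / (4 * τ) * U)) ≤ ∑ w, PP y ρ w g * ψ w g := by
    intro g
    obtain ⟨I, β, hI, hβ0, hβ1, hβ2, hsum⟩ := transfer adj hsymm hirr
      (fun u => SS y (a0 u g) g) (fun v => ψ v g) (2 * N)
      (fun u v huv => hge v g _ ((dis_triangle y _ u _).trans (by
        have := hadj u v huv
        have := h0 u g
        linarith)))
      (fun v => by
        have h2 := hge v g (neg v) (by rw [dis_self]; linarith)
        have h3 := (abs_le.1 (sum_corr_le y (neg v) g)).1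
        have h4 := (abs_le.1 (sum_corr_le y (a0 v g) g)).2
        unfold SS at h2 ⊢
        linarith)
      _ (fun w => PP y ρ w g) (fun w => hP0 w g) le_rfl
    have h5 : ∀ w, β w ≤ τ * ∏ i, ((1 + ρ * corr y w (g i)) ^ 2 / (2 * Fintype.card Ω)) +
        (if w ∈ I then 1 / (4 * τ) * U else 0) := by
      intro w
      split_ifs with hw
      · exact (hβ1 w).trans (PP_le y ρ τ hτ0 w g)
      · rw [hβ2 w hw, add_zero]
        exact mul_nonneg hτ0.le (prod_nonneg fun i _ => by positivity)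
    have h6 := sum_le_sum fun w (_ : w ∈ univ) => h5 w
    rw [sum_add_distrib, ← mul_sum, sum_ite_mem, univ_inter, sum_const, nsmul_eq_mul] at h6
    have h7 := mul_le_mul_of_nonneg_right (hA I hI) (show 0 ≤ 1 / (4 * τ) * U by positivity)
    have h8 := mul_le_mul_of_nonneg_left (h6.trans (add_le_add_right h7 _))
      (show (0 : ℝ) ≤ 2 * N by positivity)
    linarith
  have hsumg := sum_le_sum fun g (_ : g ∈ univ) => hg g
  have e2 : ∑ _g : Fin N → Ω × Bool, U = 1 := by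
    rw [hU, sum_prod_eq (fun _ (_ : Ω × Bool) => (1 / (2 * Fintype.card Ω) : ℝ))]
    refine prod_eq_one fun i _ => ?_
    rw [sum_const, card_univ, Fintype.card_prod, Fintype.card_bool, nsmul_eq_mul]
    push_cast
    field_simp
  have e3 : ∑ g : Fin N → Ω × Bool, ∑ w,
      ∏ i, ((1 + ρ * corr y w (g i)) ^ 2 / (2 * Fintype.card Ω)) ≤ M * E := by
    rw [sum_comm]
    have h2 : ∀ w, ∑ g : Fin N → Ω × Bool,
        ∏ i, ((1 + ρ * corr y w (g i)) ^ 2 / (2 * Fintype.card Ω)) ≤ E := by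
      intro w
      rw [sum_prod_eq (fun _ z => (1 + ρ * corr y w z) ^ 2 / (2 * Fintype.card Ω)), sq_mean y hn,
        prod_const, card_univ, Fintype.card_fin, hE, mul_comm _ (N : ℝ), Real.exp_nat_mul]
      exact pow_le_pow_left₀ (by positivity) (by linarith [Real.add_one_le_exp (ρ ^ 2)]) N
    have := sum_le_card_nsmul univ _ E fun w _ => h2 w
    rwa [card_univ, nsmul_eq_mul] at this
  have e4 : ∀ v, ∑ g : Fin N → Ω × Bool, PP y ρ v g * ∑ i, tt y q v (g i) = N * ρ := by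
    intro v
    unfold PP
    rw [linear_mean (fun _ z => pl y ρ v z) (fun _ => pl_sum y hn ρ v) (tt y q v), pl_tt y hn hq]
    simp
  have e5 : ∀ v, ∑ g : Fin N → Ω × Bool, PP y ρ v g * ∑ i, agr y (sel v g) v (g i) ≤ N / 8 := by
    intro v
    have h2 := max_bound (N := N) (pl y ρ v) (pl_nonneg y hρ0.le hρ1 v) (pl_sum y hn ρ v)
      (univ.filter (fun w => dis y (neg v) w ≤ r + s)) (fun w z => agr y w v z)
      (fun w z => agr_abs y w v z) (1 / 16) (1 / 64) (by norm_num) (by norm_num)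
      (fun w hw => by
        rw [pl_agr y ρ v (neg v) w (hneg v), div_le_iff₀ hnR]
        have := (mem_filter.1 hw).2
        linarith)
      (sel v) (hsel1 v)
    have h3 : ((univ.filter (fun w => dis y (neg v) w ≤ r + s)).card : ℝ) ≤ M := by
      rw [hM]
      exact_mod_cast card_le_univ _
    have h4 := mul_le_mul_of_nonneg_right h3 (Real.exp_pos (-((1 / 64 : ℝ) ^ 2 * N))).le
    unfold PP
    have h5 : ((univ.filter (fun w => dis y (neg v) w ≤ r + s)).card : ℝ) / (1 / 64) *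
        Real.exp (-((1 / 64 : ℝ) ^ 2 * N)) = 64 * (((univ.filter
          (fun w => dis y (neg v) w ≤ r + s)).card : ℝ) * Real.exp (-((1 / 64 : ℝ) ^ 2 * N))) := by
      ring
    linarith
  have e6 : ∑ g : Fin N → Ω × Bool, ∑ w, PP y ρ w g * ψ w g ≤
      ∑ w, ∑ g, PP y ρ w g * SS y (a1 w g) g - 2 * (M * (N * ρ)) + 4 * q * (M * (N / 8)) := by
    rw [sum_comm, ← e1]
    have h2 : ∀ w, ∑ g : Fin N → Ω × Bool, PP y ρ w g * ψ w g ≤
        ∑ g, PP y ρ w g * Ψ w g - 2 * (N * ρ) + 4 * q * (N / 8) := by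
      intro w
      have h3 : ∑ g : Fin N → Ω × Bool, PP y ρ w g * ψ w g = ∑ g, PP y ρ w g * Ψ w g -
          2 * ∑ g : Fin N → Ω × Bool, PP y ρ w g * ∑ i, tt y q w (g i) +
          4 * q * ∑ g : Fin N → Ω × Bool, PP y ρ w g * ∑ i, agr y (sel w g) w (g i) := by
        rw [mul_sum univ _ (2 : ℝ), mul_sum univ _ (4 * q), ← sum_sub_distrib, ← sum_add_distrib]
        refine sum_congr rfl fun g _ => ?_
        simp only [hψ]
        ring
      rw [h3, e4]
      have := mul_le_mul_of_nonneg_left (e5 w) (show 0 ≤ 4 * q by positivity)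
      linarith
    have h4 := sum_le_sum fun w (_ : w ∈ univ) => h2 w
    rw [sum_add_distrib, sum_sub_distrib, sum_const, sum_const, card_univ, nsmul_eq_mul,
      nsmul_eq_mul, ← hM] at h4
    linarith
  rw [sum_sub_distrib, ← mul_sum, sum_add_distrib, ← mul_sum, ← mul_sum, ← mul_sum, e2,
    sum_comm] at hsumg
  have hM0 : 0 ≤ M := by positivity
  have hN0 : (0 : ℝ) ≤ N := by positivity
  have e7 : τ * (M * E) = ρ * M / 16 := by rw [hτ]; field_simp
  have e8 : A * (1 / (4 * τ) * 1) ≤ ρ * M / 16 := by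
    have h2 : ρ ^ 2 * M / (64 * E) * (1 / (4 * τ) * 1) = ρ * M / 16 := by
      rw [hτ]; field_simp; ring
    rw [← h2]
    exact mul_le_mul_of_nonneg_right hAρ (by positivity)
  have e9 := mul_le_mul_of_nonneg_left e3 hτ0.le
  have e10 : τ * ∑ g : Fin N → Ω × Bool, ∑ w,
      ∏ i, ((1 + ρ * corr y w (g i)) ^ 2 / (2 * Fintype.card Ω)) + A * (1 / (4 * τ) * 1) ≤
      ρ * M / 8 := by linarith
  have e11 := mul_le_mul_of_nonneg_left e10 (show (0 : ℝ) ≤ 2 * N by positivity)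
  have e12 := mul_le_mul_of_nonneg_right hq2 (show 0 ≤ M * N by positivity)
  nlinarith

end Pool.Agent.MP_3a192b_co.Half
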