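import Pool.Agent.MP_3a192b_co.Defs

namespace Pool.Agent.MP_3a192b_co

open Finset

theorem smallGraph_adj {n m : ℕ} (ε : ℝ) (A : Fin m → Finset (Fin n)) (i j : Fin m) :
    (smallGraph ε A).Adj i j ↔ i ≠ j ∧ ((A i ∩ A j).card : ℝ) < ε * n := by
  unfold smallGraph
  rw [SimpleGraph.fromRel_adj, inter_comm (A j) (A i), or_self]

theorem bddAbove_chi (n m : ℕ) (c ε : ℝ) : BddAbove {k : ℕ | ∃ A : Fin m → Finset (Fin n),
    (∀ i, c * n < ((A i).card : ℝ)) ∧ (smallGraph ε A).chromaticNumber = (k : ℕ∞)} := by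
  refine ⟨m, ?_⟩
  rintro k ⟨A, -, hk⟩
  have := (smallGraph ε A).chromaticNumber_le_card
  rw [hk, Fintype.card_fin] at this
  exact_mod_cast this

theorem chiStar_le_of_forall {n m : ℕ} {c ε : ℝ} {x : ℝ} (hx : 0 ≤ x)
    (h : ∀ A : Fin m → Finset (Fin n), (∀ i, c * n < ((A i).card : ℝ)) →
      ∃ k : ℕ, (k : ℝ) ≤ x ∧ (smallGraph ε A).Colorable k) : (chiStar n m c ε : ℝ) ≤ x := by
  unfold chiStar
  set S := {k : ℕ | ∃ A : Fin m → Finset (Fin n),
    (∀ i, c * n < ((A i).card : ℝ)) ∧ (smallGraph ε A).chromaticNumber = (k : ℕ∞)} with hS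
  rcases S.eq_empty_or_nonempty with h0 | h0
  · rw [h0]; simpa using hx
  · obtain ⟨A, hA, hk⟩ := Nat.sSup_mem h0 (bddAbove_chi n m c ε)
    obtain ⟨k, hk1, hk2⟩ := h A hA
    have := hk2.chromaticNumber_le
    rw [hk] at this
    have h3 : sSup S ≤ k := by exact_mod_cast this
    exact le_trans (by exact_mod_cast h3) hk1

theorem colorable_chiStar {n m : ℕ} {c ε : ℝ} (A : Fin m → Finset (Fin n))
    (hA : ∀ i, c * n < ((A i).card : ℝ)) : (smallGraph ε A).Colorable (chiStar n m c ε) := by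
  have h1 := (smallGraph ε A).colorable_chromaticNumber_of_fintype
  refine h1.mono (le_csSup (bddAbove_chi n m c ε) ⟨A, hA, ?_⟩)
  have : (smallGraph ε A).chromaticNumber ≠ ⊤ :=
    SimpleGraph.chromaticNumber_ne_top_iff_exists.2 ⟨_, h1⟩
  exact (ENat.natCast_toNat this).symm

/-- Number of `t`-tuples of points lying in a set. -/
theorem sum_indicator_tuple {n : ℕ} (t : ℕ) (B : Finset (Fin n)) :
    ∑ T : Fin t → Fin n, (if ∀ i, T i ∈ B then (1 : ℝ) else 0) = (B.card : ℝ) ^ t := by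
  classical
  rw [Finset.sum_boole]
  have : (Finset.univ.filter fun T : Fin t → Fin n => ∀ i, T i ∈ B) =
      Fintype.piFinset fun _ : Fin t => B := by
    ext T; simp [Fintype.mem_piFinset]
  rw [this, Fintype.card_piFinset_const]
  push_cast; rfl

/-- Dependent random choice: a large subfamily with pairwise large intersections. -/
theorem exists_indep_aux {n : ℕ} (hn : 0 < n) {c ε : ℝ} (hc : 0 ≤ c) (t : ℕ)
    (𝒜 : Finset (Finset (Fin n))) (h𝒜 : ∀ B ∈ 𝒜, c * n < (B.card : ℝ)) :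
    ∃ W ⊆ 𝒜, (∀ B ∈ W, ∀ B' ∈ W, ε * n ≤ ((B ∩ B').card : ℝ)) ∧
      (𝒜.card : ℝ) * c ^ t - (𝒜.card : ℝ) ^ 2 * |ε| ^ t ≤ W.card := by
  classical
  let V : (Fin t → Fin n) → Finset (Finset (Fin n)) := fun T => 𝒜.filter fun B => ∀ i, T i ∈ B
  let W : (Fin t → Fin n) → Finset (Finset (Fin n)) := fun T =>
    (V T).filter fun B => ∀ B' ∈ V T, ε * n ≤ ((B ∩ B').card : ℝ)
  let P : Finset (Finset (Fin n) × Finset (Fin n)) :=
    (𝒜 ×ˢ 𝒜).filter fun p => ((p.1 ∩ p.2).card : ℝ) < ε * n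
  have hW : ∀ T, (∑ B ∈ 𝒜, (if ∀ i, T i ∈ B then (1 : ℝ) else 0)) -
      (∑ p ∈ P, (if ∀ i, T i ∈ p.1 ∩ p.2 then (1 : ℝ) else 0)) ≤ (W T).card := by
    intro T
    rw [Finset.sum_boole, Finset.sum_boole]
    have h1 : V T ⊆ W T ∪ (P.filter fun p => ∀ i, T i ∈ p.1 ∩ p.2).image Prod.fst := by
      intro B hB
      by_cases hBW : B ∈ W T
      · exact mem_union_left _ hBW
      · refine mem_union_right _ ?_
        simp only [W, mem_filter, not_and, not_forall, not_le] at hBW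
        obtain ⟨B', hB', hlt⟩ := hBW (by simpa [V] using hB)
        simp only [V, mem_filter] at hB hB'
        refine mem_image.2 ⟨(B, B'), ?_, rfl⟩
        simp only [P, mem_filter, mem_product, mem_inter]
        exact ⟨⟨⟨hB.1, hB'.1⟩, hlt⟩, fun i => ⟨hB.2 i, hB'.2 i⟩⟩
    have h2 := (card_le_card h1).trans ((card_union_le _ _).trans
      (Nat.add_le_add_left card_image_le _))
    have h3 : ((V T).card : ℝ) ≤ (W T).card +
        ((P.filter fun p => ∀ i, T i ∈ p.1 ∩ p.2).card : ℝ) := by exact_mod_cast h2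
    simp only [V] at h3
    linarith
  have hsum : ∑ _T : Fin t → Fin n, ((𝒜.card : ℝ) * c ^ t - (𝒜.card : ℝ) ^ 2 * |ε| ^ t) ≤
      ∑ T : Fin t → Fin n, ((W T).card : ℝ) := by
    refine le_trans ?_ (Finset.sum_le_sum fun T _ => hW T)
    rw [Finset.sum_sub_distrib, Finset.sum_sub_distrib, Finset.sum_comm (s := Finset.univ) (t := 𝒜),
      Finset.sum_comm (s := Finset.univ) (t := P)]
    simp only [sum_indicator_tuple, sum_const, card_univ, Fintype.card_pi, Fintype.card_fin,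
      prod_const, nsmul_eq_mul]
    have e1 : (𝒜.card : ℝ) * (c * n) ^ t ≤ ∑ B ∈ 𝒜, (B.card : ℝ) ^ t := by
      rw [← nsmul_eq_mul, ← Finset.sum_const]
      exact Finset.sum_le_sum fun B hB =>
        pow_le_pow_left₀ (by positivity) (h𝒜 B hB).le t
    have e2 : ∑ p ∈ P, (((p.1 ∩ p.2).card : ℝ)) ^ t ≤ (𝒜.card : ℝ) ^ 2 * (|ε| * n) ^ t := by
      calc ∑ p ∈ P, (((p.1 ∩ p.2).card : ℝ)) ^ t ≤ ∑ _p ∈ P, (|ε| * n) ^ t := by
            refine Finset.sum_le_sum fun p hp => pow_le_pow_left₀ (by positivity) ?_ t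
            have := (mem_filter.1 hp).2
            have h5 : ε * n ≤ |ε| * n := mul_le_mul_of_nonneg_right (le_abs_self ε) (by positivity)
            linarith
        _ = (P.card : ℝ) * (|ε| * n) ^ t := by rw [sum_const, nsmul_eq_mul]
        _ ≤ (𝒜.card : ℝ) ^ 2 * (|ε| * n) ^ t := by
            refine mul_le_mul_of_nonneg_right ?_ (by positivity)
            have : P.card ≤ 𝒜.card * 𝒜.card := by
              rw [← card_product]; exact card_filter_le _ _
            rw [sq]; exact_mod_cast this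
    rw [mul_pow] at e1 e2
    push_cast
    nlinarith [e1, e2]
  have hne : (Finset.univ : Finset (Fin t → Fin n)).Nonempty :=
    ⟨fun _ => ⟨0, hn⟩, mem_univ _⟩
  obtain ⟨T, -, hT⟩ := Finset.exists_le_of_sum_le hne hsum
  refine ⟨W T, (filter_subset _ _).trans (filter_subset _ _), fun B hB B' hB' => ?_, hT⟩
  exact (mem_filter.1 hB).2 B' (mem_filter.1 hB').1

theorem exists_indep {n : ℕ} (hn : 0 < n) {c ε : ℝ} (hc : 0 < c) (hc1 : c < 1) (hε : 0 < ε)
    (hεc : ε ≤ c ^ 2) (𝒜 : Finset (Finset (Fin n))) (hne : 𝒜.Nonempty)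
    (h𝒜 : ∀ B ∈ 𝒜, c * n < (B.card : ℝ)) :
    ∃ W ⊆ 𝒜, (∀ B ∈ W, ∀ B' ∈ W, ε * n ≤ ((B ∩ B').card : ℝ)) ∧
      c / 4 * (𝒜.card : ℝ) ^ (1 - Real.log (1 / c) / Real.log (c / ε)) ≤ W.card := by
  set γ := Real.log (1 / c) / Real.log (c / ε) with hγ
  set M : ℝ := (𝒜.card : ℝ) with hM
  have hM1 : 1 ≤ M := by rw [hM]; exact_mod_cast hne.card_pos
  have h1c : 1 < 1 / c := by rw [lt_div_iff₀ hc]; linarith
  have hcε : 1 / c ≤ c / ε := by rw [div_le_div_iff₀ hc hε]; nlinarith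
  have hl1 : 0 < Real.log (1 / c) := Real.log_pos h1c
  have hl2 : Real.log (1 / c) ≤ Real.log (c / ε) := Real.log_le_log (by positivity) hcε
  have hl3 : 0 < Real.log (c / ε) := lt_of_lt_of_le hl1 hl2
  have hγ1 : γ ≤ 1 := by rw [hγ, div_le_one hl3]; exact hl2
  have hlM : 0 ≤ Real.log (2 * M) := Real.log_nonneg (by linarith)
  set t := ⌈Real.log (2 * M) / Real.log (c / ε)⌉₊ with ht
  have ht1 : Real.log (2 * M) / Real.log (c / ε) ≤ t := Nat.le_ceil _
  have ht2 : (t : ℝ) < Real.log (2 * M) / Real.log (c / ε) + 1 :=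
    Nat.ceil_lt_add_one (by positivity)
  obtain ⟨W, hW1, hW2, hW3⟩ := exists_indep_aux (ε := ε) hn hc.le t 𝒜 h𝒜
  refine ⟨W, hW1, hW2, le_trans ?_ hW3⟩
  rw [abs_of_pos hε, ← hM]
  have e1 : 2 * M ≤ (c / ε) ^ t := by
    rw [← Real.log_le_log_iff (by positivity) (by positivity), Real.log_pow]
    rwa [div_le_iff₀ hl3] at ht1
  have e2 : M * ε ^ t ≤ c ^ t / 2 := by
    rw [div_pow, le_div_iff₀ (by positivity)] at e1
    linarith
  have e3 : c * (2 * M) ^ (-γ) ≤ c ^ t := by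
    rw [← Real.log_le_log_iff (by positivity) (by positivity), Real.log_pow,
      Real.log_mul hc.ne' (by positivity), Real.log_rpow (by positivity)]
    have hlc : Real.log c = -Real.log (1 / c) := by rw [one_div, Real.log_inv, neg_neg]
    have h5 : γ * Real.log (2 * M) = Real.log (2 * M) / Real.log (c / ε) * Real.log (1 / c) := by
      rw [hγ]; ring
    rw [hlc]
    nlinarith [mul_lt_mul_of_pos_right ht2 hl1]
  have e4 : (1 / 2) * M ^ (-γ) ≤ (2 * M) ^ (-γ) := by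
    rw [Real.mul_rpow (by norm_num) (by linarith)]
    refine mul_le_mul_of_nonneg_right ?_ (by positivity)
    have : (2 : ℝ) ^ (-1 : ℝ) ≤ 2 ^ (-γ) :=
      Real.rpow_le_rpow_of_exponent_le (by norm_num) (by linarith)
    rw [Real.rpow_neg_one] at this
    linarith
  have e5 : M ^ (1 - γ) = M * M ^ (-γ) := by
    rw [sub_eq_add_neg, Real.rpow_add (by linarith), Real.rpow_one]
  rw [e5]
  have e6 : c * ((1 / 2) * M ^ (-γ)) ≤ c ^ t := le_trans (mul_le_mul_of_nonneg_left e4 hc.le) e3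
  have hM0 : 0 ≤ M := by linarith
  calc c / 4 * (M * M ^ (-γ)) = M * (c * ((1 / 2) * M ^ (-γ))) / 2 := by ring
    _ ≤ M * c ^ t / 2 := by gcongr
    _ ≤ M * c ^ t - M ^ 2 * ε ^ t := by nlinarith [mul_le_mul_of_nonneg_left e2 hM0]

/-- Greedy colouring from large independent subfamilies. -/
theorem exists_colouring {α : Type*} [DecidableEq α] (R : α → α → Prop) (Q : α → Prop)
    {a γ : ℝ} (ha : 0 < a) (hγ : 0 < γ) (hγ1 : γ ≤ 1)
    (h : ∀ 𝒜 : Finset α, 𝒜.Nonempty → (∀ B ∈ 𝒜, Q B) →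
      ∃ W ⊆ 𝒜, (∀ B ∈ W, ∀ B' ∈ W, R B B') ∧ a * (𝒜.card : ℝ) ^ (1 - γ) ≤ W.card)
    (𝒜 : Finset α) (h𝒜 : ∀ B ∈ 𝒜, Q B) :
    ∃ (k : ℕ) (f : α → ℕ), (k : ℝ) ≤ 1 / (a * γ) * (𝒜.card : ℝ) ^ γ ∧ (∀ B ∈ 𝒜, f B < k) ∧
      ∀ B ∈ 𝒜, ∀ B' ∈ 𝒜, f B = f B' → R B B' := by
  induction 𝒜 using Finset.strongInduction with
  | H 𝒜 ih =>
    rcases 𝒜.eq_empty_or_nonempty with rfl | hne
    · exact ⟨0, fun _ => 0, by simp [Real.zero_rpow hγ.ne'], by simp, by simp⟩
    obtain ⟨W, hW1, hW2, hW3⟩ := h 𝒜 hne h𝒜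
    set M : ℝ := (𝒜.card : ℝ) with hM
    have hM1 : 0 < M := by rw [hM]; exact_mod_cast hne.card_pos
    have hWpos : (0 : ℝ) < W.card := lt_of_lt_of_le (by positivity) hW3
    have hWne : W.Nonempty := card_pos.1 (by exact_mod_cast hWpos)
    obtain ⟨k, f, hk, hf1, hf2⟩ := ih (𝒜 \ W) (sdiff_ssubset hW1 hWne)
      fun B hB => h𝒜 B (mem_sdiff.1 hB).1
    refine ⟨k + 1, fun B => if B ∈ W then k else f B, ?_, ?_, ?_⟩
    · have hWM : (W.card : ℝ) ≤ M := by rw [hM]; exact_mod_cast card_le_card hW1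
      have e1 : ((𝒜 \ W).card : ℝ) = M * (1 + -(W.card / M)) := by
        rw [card_sdiff_of_subset hW1, Nat.cast_sub (card_le_card hW1), ← hM]
        field_simp
        ring
      have hs : -1 ≤ -((W.card : ℝ) / M) := by
        rw [neg_le_neg_iff, div_le_one hM1]; exact hWM
      have e2 : ((𝒜 \ W).card : ℝ) ^ γ ≤ M ^ γ * (1 + γ * -(W.card / M)) := by
        rw [e1, Real.mul_rpow hM1.le (by linarith)]
        exact mul_le_mul_of_nonneg_left (rpow_one_add_le_one_add_mul_self hs hγ.le hγ1)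
          (by positivity)
      have e3 : a ≤ M ^ γ * (W.card / M) := by
        have : M ^ γ * M ^ (1 - γ) = M := by
          rw [← Real.rpow_add hM1]; simp
        rw [← mul_div_assoc, le_div_iff₀ hM1]
        calc a * M = M ^ γ * (a * M ^ (1 - γ)) := by rw [mul_left_comm, this]
          _ ≤ M ^ γ * W.card := by gcongr
      have e4 : ((𝒜 \ W).card : ℝ) ^ γ ≤ M ^ γ - a * γ := by nlinarith
      have e5 : 1 / (a * γ) * ((𝒜 \ W).card : ℝ) ^ γ ≤ 1 / (a * γ) * (M ^ γ - a * γ) := by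
        gcongr
      have e6 : 1 / (a * γ) * (M ^ γ - a * γ) = 1 / (a * γ) * M ^ γ - 1 := by
        field_simp
      push_cast
      linarith
    · intro B hB
      by_cases hBW : B ∈ W
      · simp [hBW]
      · simp only [hBW, if_false]
        exact (hf1 B (mem_sdiff.2 ⟨hB, hBW⟩)).trans (Nat.lt_succ_self k)
    · intro B hB B' hB' hBB
      by_cases hBW : B ∈ W <;> by_cases hBW' : B' ∈ W
      · exact hW2 B hBW B' hBW'
      · simp only [hBW, hBW', if_true, if_false] at hBB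
        have := hf1 B' (mem_sdiff.2 ⟨hB', hBW'⟩)
        omega
      · simp only [hBW, hBW', if_true, if_false] at hBB
        have := hf1 B (mem_sdiff.2 ⟨hB, hBW⟩)
        omega
      · simp only [hBW, hBW', if_false] at hBB
        exact hf2 B (mem_sdiff.2 ⟨hB, hBW⟩) B' (mem_sdiff.2 ⟨hB', hBW'⟩) hBB

theorem gamma_pos {c ε : ℝ} (hc : 0 < c) (hc1 : c < 1) (hε : 0 < ε) (hεc : ε ≤ c ^ 2) :
    0 < Real.log (1 / c) / Real.log (c / ε) ∧ Real.log (1 / c) / Real.log (c / ε) ≤ 1 := by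
  have h1c : 1 < 1 / c := by rw [lt_div_iff₀ hc]; linarith
  have hcε : 1 / c ≤ c / ε := by rw [div_le_div_iff₀ hc hε]; nlinarith
  have hl1 : 0 < Real.log (1 / c) := Real.log_pos h1c
  have hl2 : Real.log (1 / c) ≤ Real.log (c / ε) := Real.log_le_log (by positivity) hcε
  have hl3 : 0 < Real.log (c / ε) := lt_of_lt_of_le hl1 hl2
  exact ⟨by positivity, by rw [div_le_one hl3]; exact hl2⟩

theorem chiStar_le {c ε : ℝ} (hc : 0 < c) (hc1 : c < 1) (hε : 0 < ε) (hεc : ε ≤ c ^ 2)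
    (n m : ℕ) : (chiStar n m c ε : ℝ) ≤
      4 / (c * (Real.log (1 / c) / Real.log (c / ε))) *
        ((min m (2 ^ n) : ℕ) : ℝ) ^ (Real.log (1 / c) / Real.log (c / ε)) := by
  classical
  obtain ⟨hγ, hγ1⟩ := gamma_pos hc hc1 hε hεc
  set γ := Real.log (1 / c) / Real.log (c / ε) with hγdef
  refine chiStar_le_of_forall (by positivity) fun A hA => ?_
  rcases Nat.eq_zero_or_pos m with rfl | hm
  · exact ⟨0, by rw [Nat.cast_zero]; positivity, SimpleGraph.Colorable.of_isEmpty 0⟩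
  have hn : 0 < n := by
    rcases Nat.eq_zero_or_pos n with rfl | hn
    · have := hA ⟨0, hm⟩
      have h2 : (A ⟨0, hm⟩).card = 0 := by simp [Finset.eq_empty_of_isEmpty]
      rw [h2] at this
      simp at this
    · exact hn
  obtain ⟨k, f, hk, hf1, hf2⟩ := exists_colouring
    (fun B B' : Finset (Fin n) => ε * n ≤ ((B ∩ B').card : ℝ))
    (fun B => c * n < (B.card : ℝ)) (a := c / 4) (by positivity) hγ hγ1
    (fun 𝒜 hne h𝒜 => exists_indep hn hc hc1 hε hεc 𝒜 hne h𝒜) (Finset.univ.image A)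
    (by simpa using hA)
  refine ⟨k, hk.trans ?_, ?_⟩
  · have h1 : (Finset.univ.image A).card ≤ min m (2 ^ n) := by
      refine le_min (card_image_le.trans (by simp)) ?_
      simpa using card_le_univ (Finset.univ.image A)
    have h2 : 1 / (c / 4 * γ) = 4 / (c * γ) := by field_simp
    rw [h2]
    gcongr
  · rw [SimpleGraph.colorable_iff_exists_bdd_nat_coloring]
    refine ⟨SimpleGraph.Coloring.mk (fun i => f (A i)) ?_, fun i => hf1 _ (mem_image_of_mem _ (mem_univ _))⟩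
    intro i j hij he
    rw [smallGraph_adj] at hij
    have := hf2 _ (mem_image_of_mem _ (mem_univ i)) _ (mem_image_of_mem _ (mem_univ j)) he
    linarith [hij.2]

end Pool.Agent.MP_3a192b_co
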