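import Pool.Agent.MP_3a192b_co.HalfC
import Pool.Agent.MP_3a192b_co.Upper

/-! The iteration of the chain and the upper bound for `c` near `1/2`. -/

open Finset

namespace Pool.Agent.MP_3a192b_co.Half

theorem chain {Ω W : Type*} [Fintype Ω] [Fintype W] [Nonempty W] (y : W → Ω → Bool)
    (hn : 0 < Fintype.card Ω) (neg : W ≃ W) (hneg : ∀ w x, y (neg w) x = !y w x)
    (adj : W → W → Prop) (hsymm : ∀ u v, adj u v → adj v u) (hirr : ∀ u, ¬ adj u u)
    {δ : ℝ} (hδ0 : 0 < δ) (hδ1 : δ ≤ 1 / 128)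
    (hadj : ∀ u v, adj u v → dis y (neg v) u ≤ δ * Fintype.card Ω) {N : ℕ} (hN0 : 0 < N)
    (hN : 64 * (Fintype.card W : ℝ) * Real.exp (-((1 / 64) ^ 2 * N)) ≤ N / 32)
    (A : ℝ) (hA : ∀ I : Finset W, (∀ u ∈ I, ∀ v ∈ I, ¬ adj u v) → (I.card : ℝ) ≤ A) :
    δ ^ 2 * Fintype.card W / Real.exp (64 * δ ^ 2 * N) < A := by
  classical
  by_contra hcon
  rw [not_lt] at hcon
  set M : ℝ := (Fintype.card W : ℝ) with hM
  set n : ℝ := (Fintype.card Ω : ℝ) with hndef
  have hM0 : 0 < M := by rw [hM]; exact_mod_cast Fintype.card_pos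
  have hn0 : 0 < n := by rw [hndef]; exact_mod_cast hn
  have hNR : (0 : ℝ) < N := by exact_mod_cast hN0
  have hρ0 : 0 < 8 * δ := by positivity
  have hρ1 : 8 * δ ≤ 1 := by linarith
  have hAρ : A ≤ (8 * δ) ^ 2 * M / (64 * Real.exp ((8 * δ) ^ 2 * N)) := by
    have e1 : (8 * δ) ^ 2 * N = 64 * δ ^ 2 * N := by ring
    rw [e1]
    refine hcon.trans (le_of_eq ?_)
    field_simp
    ring
  have harg : ∀ (j : ℕ) (w : W) (g : Fin N → Ω × Bool),
      ∃ w' ∈ univ.filter (fun w' => dis y w w' ≤ j * (δ * n)),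
        ∀ w'' ∈ univ.filter (fun w' => dis y w w' ≤ j * (δ * n)), SS y w'' g ≤ SS y w' g :=
    fun j w g => exists_max_image _ _
      ⟨w, mem_filter.2 ⟨mem_univ _, by rw [dis_self]; positivity⟩⟩
  choose arg harg1 harg2 using harg
  set k : ℕ := ⌊1 / (16 * δ)⌋₊ with hk
  have hk1 : (k : ℝ) * δ ≤ 1 / 16 := by
    have h1 : (k : ℝ) ≤ 1 / (16 * δ) := Nat.floor_le (by positivity)
    rw [le_div_iff₀ (by positivity)] at h1
    linarith
  have hk2 : 1 / 32 ≤ (k : ℝ) * δ := by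
    have h1 : 1 / (16 * δ) < (k : ℝ) + 1 := Nat.lt_floor_add_one _
    rw [div_lt_iff₀ (by positivity)] at h1
    nlinarith
  have hP0 : ∀ w (g : Fin N → Ω × Bool), 0 ≤ PP y (8 * δ) w g := fun w g =>
    prod_nonneg fun i _ => pl_nonneg y hρ0.le hρ1 w _
  have hind : ∀ j : ℕ, j ≤ k → (j : ℝ) * (3 / 4 * (8 * δ) * N * M) ≤
      ∑ w, ∑ g, PP y (8 * δ) w g * SS y (arg j w g) g := by
    intro j
    induction j with
    | zero =>
      intro _
      rw [Nat.cast_zero, zero_mul]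
      refine sum_nonneg fun w _ => ?_
      have h1 : ∑ g : Fin N → Ω × Bool, PP y (8 * δ) w g * SS y w g ≤
          ∑ g, PP y (8 * δ) w g * SS y (arg 0 w g) g :=
        sum_le_sum fun g _ => mul_le_mul_of_nonneg_left
          (harg2 0 w g w (mem_filter.2 ⟨mem_univ _, by rw [dis_self]; positivity⟩)) (hP0 w g)
      refine le_trans ?_ h1
      unfold PP SS
      rw [linear_mean (fun _ z => pl y (8 * δ) w z) (fun _ => pl_sum y hn _ w) (corr y w),
        pl_corr_self y hn]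
      positivity
    | succ j ih =>
      intro hj
      have hjR : (j : ℝ) + 1 ≤ k := by exact_mod_cast hj
      have h1 := step y hn neg hneg adj hsymm hirr (δ * n) (by positivity) hadj hρ0 hρ1 hN A hA hAρ
        (j * (δ * n)) (by positivity)
        (by
          have := mul_le_mul_of_nonneg_right hjR (show 0 ≤ δ * n by positivity)
          have := mul_le_mul_of_nonneg_right hk1 hn0.le
          nlinarith)
        (arg j) (arg (j + 1)) (fun w g => (mem_filter.1 (harg1 j w g)).2)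
        (fun w g w' hw' => harg2 (j + 1) w g w' (mem_filter.2 ⟨mem_univ _, by
          push_cast
          linarith⟩))
      have h2 := ih (by omega)
      push_cast
      linarith
  have hup : ∀ w, ∑ g, PP y (8 * δ) w g * SS y (arg k w g) g ≤ N / 8 := by
    intro w
    have h2 := max_bound (N := N) (pl y (8 * δ) w) (pl_nonneg y hρ0.le hρ1 w) (pl_sum y hn _ w)
      (univ : Finset W) (fun w' z => corr y w' z) (fun w' z => corr_abs y w' z) (1 / 16) (1 / 64)
      (by norm_num) (by norm_num)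
      (fun w' _ => (pl_corr_le y hn hρ0.le w w').trans (by linarith))
      (arg k w) (fun _ => mem_univ _)
    rw [card_univ, ← hM] at h2
    have h5 : M / (1 / 64) * Real.exp (-((1 / 64 : ℝ) ^ 2 * N)) =
        64 * M * Real.exp (-((1 / 64 : ℝ) ^ 2 * N)) := by ring
    unfold PP SS
    linarith
  have h3 := sum_le_card_nsmul univ _ _ fun w _ => hup w
  rw [card_univ, nsmul_eq_mul, ← hM] at h3
  have h4 := (hind k le_rfl).trans h3
  have h5 : 0 < N * M := by positivity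
  nlinarith [mul_le_mul_of_nonneg_right hk2 h5.le]

/-- The chain bound with the sample size chosen. -/
theorem chain_pow {Ω W : Type*} [Fintype Ω] [Fintype W] [Nonempty W] (y : W → Ω → Bool)
    (hn : 0 < Fintype.card Ω) (neg : W ≃ W) (hneg : ∀ w x, y (neg w) x = !y w x)
    (adj : W → W → Prop) (hsymm : ∀ u v, adj u v → adj v u) (hirr : ∀ u, ¬ adj u u)
    {δ : ℝ} (hδ0 : 0 < δ) (hδ1 : δ ≤ 1 / 512)
    (hadj : ∀ u v, adj u v → dis y (neg v) u ≤ δ * Fintype.card Ω)
    (A : ℝ) (hA : ∀ I : Finset W, (∀ u ∈ I, ∀ v ∈ I, ¬ adj u v) → (I.card : ℝ) ≤ A) :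
    δ ^ 2 / 3 * (Fintype.card W : ℝ) ^ (1 - 2 ^ 18 * δ ^ 2) < A := by
  set M : ℝ := (Fintype.card W : ℝ) with hM
  have hM1 : 1 ≤ M := by rw [hM]; exact_mod_cast Fintype.card_pos
  have hM0 : 0 < M := by linarith
  have hL : 0 ≤ Real.log M := Real.log_nonneg hM1
  obtain ⟨N, hN1, hN2⟩ : ∃ N : ℕ, 4096 * Real.log M + 2048 ≤ N ∧
      (N : ℝ) ≤ 4096 * Real.log M + 2049 :=
    ⟨⌈4096 * Real.log M + 2048⌉₊, Nat.le_ceil _,
      by linarith [Nat.ceil_lt_add_one (show 0 ≤ 4096 * Real.log M + 2048 by positivity)]⟩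
  have hNpos : 0 < N := by
    have : (0 : ℝ) < N := by linarith
    exact_mod_cast this
  have hN : 64 * M * Real.exp (-((1 / 64) ^ 2 * N)) ≤ N / 32 := by
    have h1 : Real.exp (-((1 / 64 : ℝ) ^ 2 * N)) ≤ Real.exp (-Real.log M) :=
      Real.exp_le_exp.2 (by linarith)
    rw [Real.exp_neg (Real.log M), Real.exp_log hM0] at h1
    have h2 : M * Real.exp (-((1 / 64 : ℝ) ^ 2 * N)) ≤ 1 := by
      have := mul_le_mul_of_nonneg_left h1 hM0.le
      rwa [mul_inv_cancel₀ hM0.ne'] at this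
    linarith
  have h := chain y hn neg hneg adj hsymm hirr hδ0 (by linarith) hadj hNpos hN A hA
  refine lt_of_le_of_lt ?_ h
  rw [← hM, le_div_iff₀ (Real.exp_pos _), Real.rpow_def_of_pos hM0, mul_assoc, ← Real.exp_add]
  have hδ2 : δ ^ 2 ≤ 1 / 262144 := by nlinarith
  have h3 : Real.log M * (1 - 2 ^ 18 * δ ^ 2) + 64 * δ ^ 2 * N ≤ Real.log M + 1 := by
    have := mul_le_mul_of_nonneg_left hN2 (show 0 ≤ 64 * δ ^ 2 by positivity)
    nlinarith
  have h4 := Real.exp_le_exp.2 h3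
  rw [Real.exp_add (Real.log M) 1, Real.exp_log hM0] at h4
  have h5 : Real.exp 1 ≤ 3 := by linarith [Real.exp_one_lt_d9]
  have h6 := h4.trans (mul_le_mul_of_nonneg_left h5 hM0.le)
  nlinarith [mul_le_mul_of_nonneg_left h6 (show 0 ≤ δ ^ 2 / 3 by positivity)]

theorem agree_count {n : ℕ} (B B' : Finset (Fin n)) :
    ∑ x : Fin n, (if (x ∈ B ↔ x ∈ B') then (1 : ℝ) else 0) =
      2 * (B ∩ B').card + n - B.card - B'.card := by
  have e : ∀ x : Fin n, (if (x ∈ B ↔ x ∈ B') then (1 : ℝ) else 0) =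
      2 * (if x ∈ B ∩ B' then 1 else 0) + 1 - (if x ∈ B then 1 else 0) -
        (if x ∈ B' then 1 else 0) := by
    intro x
    by_cases h1 : x ∈ B <;> by_cases h2 : x ∈ B' <;> simp [h1, h2]
    norm_num
  simp only [e, sum_sub_distrib, sum_add_distrib, ← mul_sum, sum_ite_mem, univ_inter, sum_const,
    card_univ, Fintype.card_fin, nsmul_eq_mul, mul_one]

theorem exists_indep_half {n : ℕ} (hn : 0 < n) {c ε δ : ℝ} (hεc : ε ≤ c) (hδ0 : 0 < δ)
    (hδ1 : δ ≤ 1 / 512) (hδ : 1 - 2 * c + 2 * ε ≤ δ) (𝒜 : Finset (Finset (Fin n)))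
    (hne : 𝒜.Nonempty) (h𝒜 : ∀ B ∈ 𝒜, c * n < (B.card : ℝ)) :
    ∃ W ⊆ 𝒜, (∀ B ∈ W, ∀ B' ∈ W, ε * n ≤ ((B ∩ B').card : ℝ)) ∧
      δ ^ 2 / 6 * (𝒜.card : ℝ) ^ (1 - 2 ^ 18 * δ ^ 2) ≤ W.card := by
  classical
  by_contra hcon
  push Not at hcon
  have : Nonempty 𝒜 := hne.to_subtype
  have hnR : (0 : ℝ) < n := by exact_mod_cast hn
  let y : 𝒜 × Bool → Fin n → Bool := fun w x => xor (decide (x ∈ w.1.1)) w.2
  let neg : 𝒜 × Bool ≃ 𝒜 × Bool :=
    ⟨fun w => (w.1, !w.2), fun w => (w.1, !w.2), fun w => by simp, fun w => by simp⟩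
  let adj : 𝒜 × Bool → 𝒜 × Bool → Prop := fun u v =>
    u.2 = v.2 ∧ ((u.1.1 ∩ v.1.1).card : ℝ) < ε * n
  have h := chain_pow y (by simpa using hn) neg
    (fun w x => by simp [y, neg]) adj
    (fun u v huv => ⟨huv.1.symm, by rw [inter_comm]; exact huv.2⟩)
    (fun u huu => by
      have h1 := huu.2
      rw [inter_self] at h1
      have h2 := h𝒜 _ u.1.2
      nlinarith)
    hδ0 hδ1
    (fun u v huv => by
      have h1 : dis y (neg v) u = ∑ x : Fin n, (if (x ∈ u.1.1 ↔ x ∈ v.1.1) then (1 : ℝ) else 0) := by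
        unfold dis
        refine sum_congr rfl fun x _ => ?_
        have h0 := huv.1
        by_cases h1 : x ∈ u.1.1 <;> by_cases h2 : x ∈ v.1.1 <;> simp [y, neg, h0, h1, h2]
      rw [h1, agree_count, Fintype.card_fin]
      have h2 := h𝒜 _ u.1.2
      have h3 := h𝒜 _ v.1.2
      have h4 := huv.2
      nlinarith)
    (2 * (δ ^ 2 / 6 * (𝒜.card : ℝ) ^ (1 - 2 ^ 18 * δ ^ 2)))
    (fun I hI => by
      have hs : ∀ s : Bool, ((I.filter fun w => w.2 = s).card : ℝ) ≤
          δ ^ 2 / 6 * (𝒜.card : ℝ) ^ (1 - 2 ^ 18 * δ ^ 2) := by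
        intro s
        have h1 := hcon ((I.filter fun w => w.2 = s).image fun w => w.1.1)
          (by
            intro B hB
            obtain ⟨w, -, rfl⟩ := mem_image.1 hB
            exact w.1.2)
          (by
            intro B hB B' hB'
            obtain ⟨w, hw, rfl⟩ := mem_image.1 hB
            obtain ⟨w', hw', rfl⟩ := mem_image.1 hB'
            by_contra hlt
            exact hI w (mem_filter.1 hw).1 w' (mem_filter.1 hw').1
              ⟨(mem_filter.1 hw).2.trans (mem_filter.1 hw').2.symm, not_le.1 hlt⟩)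
        rw [card_image_of_injOn] at h1
        · exact h1.le
        · intro w hw w' hw' hww
          have h2 := (mem_filter.1 (mem_coe.1 hw)).2
          have h3 := (mem_filter.1 (mem_coe.1 hw')).2
          exact Prod.ext (Subtype.ext hww) (h2.trans h3.symm)
      have h4 := card_filter_add_card_filter_not (s := I) (fun w => w.2 = true)
      have h5 : (I.filter fun w => ¬ w.2 = true) = I.filter fun w => w.2 = false := by
        ext w; simp
      rw [h5] at h4
      have h6 : (I.card : ℝ) = (I.filter fun w => w.2 = true).card +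
          (I.filter fun w => w.2 = false).card := by exact_mod_cast h4.symm
      linarith [hs true, hs false])
  rw [Fintype.card_prod, Fintype.card_coe, Fintype.card_bool] at h
  have hδ2 : δ ^ 2 ≤ 1 / 262144 := by nlinarith
  have h7 : (𝒜.card : ℝ) ^ (1 - 2 ^ 18 * δ ^ 2) ≤ ((𝒜.card * 2 : ℕ) : ℝ) ^ (1 - 2 ^ 18 * δ ^ 2) := by
    refine Real.rpow_le_rpow (by positivity) ?_ (by nlinarith)
    push_cast
    linarith [show (0 : ℝ) ≤ 𝒜.card by positivity]
  nlinarith [mul_le_mul_of_nonneg_left h7 (show 0 ≤ δ ^ 2 / 3 by positivity)]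

/-- The upper bound for nearly complementary pairs. -/
theorem chiStar_le_half {c ε δ : ℝ} (hεc : ε ≤ c) (hδ0 : 0 < δ) (hδ1 : δ ≤ 1 / 512)
    (hδ : 1 - 2 * c + 2 * ε ≤ δ) (n m : ℕ) : (chiStar n m c ε : ℝ) ≤
      6 / (2 ^ 18 * δ ^ 4) * ((min m (2 ^ n) : ℕ) : ℝ) ^ (2 ^ 18 * δ ^ 2) := by
  classical
  have hγ : 0 < 2 ^ 18 * δ ^ 2 := by positivity
  have hγ1 : 2 ^ 18 * δ ^ 2 ≤ 1 := by nlinarith
  refine chiStar_le_of_forall (by positivity) fun A hA => ?_
  rcases Nat.eq_zero_or_pos m with rfl | hm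
  · exact ⟨0, by rw [Nat.cast_zero]; positivity, SimpleGraph.Colorable.of_isEmpty 0⟩
  have hn : 0 < n := by
    rcases Nat.eq_zero_or_pos n with rfl | hn
    · have := hA ⟨0, hm⟩
      have h2 : (A ⟨0, hm⟩).card = 0 := by simp [Finset.eq_empty_of_isEmpty]
      rw [h2] at this
      simp at this
    · exact hn
  obtain ⟨k, f, hk, hf1, hf2⟩ := exists_colouring
    (fun B B' : Finset (Fin n) => ε * n ≤ ((B ∩ B').card : ℝ))
    (fun B => c * n < (B.card : ℝ)) (a := δ ^ 2 / 6) (by positivity) hγ hγ1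
    (fun 𝒜 hne h𝒜 => exists_indep_half hn hεc hδ0 hδ1 hδ 𝒜 hne h𝒜) (Finset.univ.image A)
    (by simpa using hA)
  refine ⟨k, hk.trans ?_, ?_⟩
  · have h1 : (Finset.univ.image A).card ≤ min m (2 ^ n) := by
      refine le_min (card_image_le.trans (by simp)) ?_
      simpa using card_le_univ (Finset.univ.image A)
    have h2 : 1 / (δ ^ 2 / 6 * (2 ^ 18 * δ ^ 2)) = 6 / (2 ^ 18 * δ ^ 4) := by field_simp
    rw [h2]
    gcongr
  · rw [SimpleGraph.colorable_iff_exists_bdd_nat_coloring]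
    refine ⟨SimpleGraph.Coloring.mk (fun i => f (A i)) ?_,
      fun i => hf1 _ (mem_image_of_mem _ (mem_univ _))⟩
    intro i j hij he
    rw [smallGraph_adj] at hij
    have := hf2 _ (mem_image_of_mem _ (mem_univ i)) _ (mem_image_of_mem _ (mem_univ j)) he
    linarith [hij.2]

end Pool.Agent.MP_3a192b_co.Half
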