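import Pool.Agent.MP_3a192b_co.Tensor

namespace Pool.Agent.MP_3a192b_co

open Finset

theorem cube_one_dim {r : ℝ} (hr : 1 ≤ r) (s : ℝ) (α β : Bool → ℝ) (hs : 0 ≤ s)
    (hα : ∀ x, 0 ≤ α x) (hβ : ∀ y, 0 ≤ β y)
    (h : ∀ x y, α x * β y ≤ s * (if x = true ∧ y = true then r ^ 2 else 1)) :
    (∑ x, α x) * (∑ y, β y) ≤ s * (r + r⁻¹) ^ 2 := by
  have h00 := h false false
  have h01 := h false true
  have h10 := h true false
  have h11 := h true true
  simp at h00 h01 h10 h11
  simp only [Fintype.sum_bool]
  set a0 := α false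
  set a1 := α true
  set b0 := β false
  set b1 := β true
  have ha0 : 0 ≤ a0 := hα _
  have ha1 : 0 ≤ a1 := hα _
  have hb0 : 0 ≤ b0 := hβ _
  have hb1 : 0 ≤ b1 := hβ _
  have hr0 : 0 < r := by linarith
  have hr2 : 1 ≤ r ^ 2 := one_le_pow₀ hr
  set R := r ^ 2 with hR
  have hR0 : 0 < R := by positivity
  have e : (r + r⁻¹) ^ 2 = R + 2 + R⁻¹ := by rw [hR]; field_simp; ring
  rw [e]
  have huv : (a0 * b0) * (a1 * b1) ≤ s * s := by
    calc (a0 * b0) * (a1 * b1) = (a0 * b1) * (a1 * b0) := by ring
      _ ≤ s * s := mul_le_mul h01 h10 (by positivity) hs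
  set u := a0 * b0 with hu
  set v := a1 * b1 with hv
  have hu0 : 0 ≤ u := by positivity
  have hv0 : 0 ≤ v := by positivity
  have key : u + v ≤ s * (R + R⁻¹) := by
    have hRi : R * R⁻¹ = 1 := mul_inv_cancel₀ hR0.ne'
    have hRi0 : 0 < R⁻¹ := by positivity
    by_cases hc : u ≤ s * R⁻¹
    · nlinarith
    · push Not at hc
      have hupos : 0 < u := lt_of_le_of_lt (by positivity) hc
      have h3 : u ≤ s * R := by nlinarith
      have h4 : 0 ≤ (u - s * R⁻¹) * (s * R - u) := mul_nonneg (by linarith) (by linarith)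
      have h5 : u * (u + v) ≤ u * (s * (R + R⁻¹)) := by
        have : (u - s * R⁻¹) * (s * R - u) = u * (s * (R + R⁻¹)) - u * u - s * s * (R * R⁻¹) := by
          ring
        rw [this, hRi] at h4
        nlinarith
      exact le_of_mul_le_mul_left h5 hupos
  nlinarith

/-- A family of points of the cube with pairwise large intersections is exponentially small. -/
theorem cube_intersecting (d : ℕ) {x : ℝ} (hx : 0 ≤ x) (W : Finset (Fin d → Bool))
    (hW : ∀ u ∈ W, ∀ v ∈ W,
      x * d ≤ ((Finset.univ.filter fun i => u i = true ∧ v i = true).card : ℝ)) :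
    (W.card : ℝ) ≤ 2 ^ d * Real.exp (-(x ^ 2 * d / 2)) := by
  classical
  set r := Real.exp x with hr
  have hr1 : 1 ≤ r := Real.one_le_exp hx
  have h := tensor (fun x y : Bool => if x = true ∧ y = true then r ^ 2 else 1) ((r + r⁻¹) ^ 2)
    (by positivity) (fun x y => by split_ifs <;> positivity) (cube_one_dim hr1) d 1
    (fun u => if u ∈ W then Real.exp (x ^ 2 * d) else 0)
    (fun u => if u ∈ W then Real.exp (x ^ 2 * d) else 0) zero_le_one
    (fun u => by split_ifs <;> positivity) (fun u => by split_ifs <;> positivity)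
    (fun u v => by
      have hp : 0 ≤ ∏ i, (if u i = true ∧ v i = true then r ^ 2 else 1) :=
        Finset.prod_nonneg fun i _ => by split_ifs <;> positivity
      by_cases hu : u ∈ W
      · by_cases hv : v ∈ W
        · simp only [hu, hv, if_true, one_mul]
          rw [Finset.prod_ite, prod_const, prod_const_one, mul_one, ← Real.exp_add, hr,
            ← Real.exp_nat_mul, ← Real.exp_nat_mul]
          apply Real.exp_le_exp.2
          have := mul_le_mul_of_nonneg_left (hW u hu v hv) hx
          push_cast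
          nlinarith
        · simpa [hv] using hp
      · simpa [hu] using hp)
  have e1 : ∑ u : Fin d → Bool, (if u ∈ W then Real.exp (x ^ 2 * d) else 0) =
      W.card * Real.exp (x ^ 2 * d) := by
    rw [Finset.sum_ite_mem, univ_inter, sum_const, nsmul_eq_mul]
  rw [e1, one_mul, ← pow_mul, mul_comm 2 d, pow_mul, ← sq] at h
  have h2 : W.card * Real.exp (x ^ 2 * d) ≤ (r + r⁻¹) ^ d :=
    (pow_le_pow_iff_left₀ (by positivity) (by positivity) two_ne_zero).1 h
  have h3 : r + r⁻¹ ≤ 2 * Real.exp (x ^ 2 / 2) := by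
    have := Real.cosh_le_exp_half_sq x
    rw [Real.cosh_eq, Real.exp_neg] at this
    linarith
  have h4 : (r + r⁻¹) ^ d ≤ 2 ^ d * Real.exp (x ^ 2 * d / 2) := by
    calc (r + r⁻¹) ^ d ≤ (2 * Real.exp (x ^ 2 / 2)) ^ d := by gcongr
      _ = 2 ^ d * Real.exp (x ^ 2 * d / 2) := by
        rw [mul_pow, ← Real.exp_nat_mul]; congr 2; ring
  have h5 : Real.exp (x ^ 2 * d / 2) = Real.exp (-(x ^ 2 * d / 2)) * Real.exp (x ^ 2 * d) := by
    rw [← Real.exp_add]; congr 1; ring
  have h6 := h2.trans h4
  rw [h5, ← mul_assoc] at h6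
  exact le_of_mul_le_mul_right h6 (Real.exp_pos _)

/-- At least half of the points of the cube have at least half of their coordinates `true`. -/
theorem half_cube (d : ℕ) : 2 ^ d ≤ 2 * (Finset.univ.filter fun u : Fin d → Bool =>
    d ≤ 2 * (Finset.univ.filter fun i => u i = true).card).card := by
  classical
  set P : (Fin d → Bool) → Prop := fun u =>
    d ≤ 2 * (Finset.univ.filter fun i => u i = true).card with hP
  have h1 : (Finset.univ.filter fun u => ¬ P u).card ≤ (Finset.univ.filter P).card := by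
    refine card_le_card_of_injOn (fun u i => !u i) ?_ ?_
    · intro u hu
      simp only [coe_filter, mem_univ, true_and, Set.mem_ofPred_eq, hP, not_le] at hu ⊢
      have := card_filter_add_card_filter_not (s := (Finset.univ : Finset (Fin d)))
        (fun i => u i = true)
      simp only [card_univ, Fintype.card_fin] at this
      have e : (Finset.univ.filter fun i => (!u i) = true) =
          (Finset.univ.filter fun i => ¬ u i = true) := by
        ext i; simp
      rw [e]
      omega
    · intro u _ v _ huv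
      funext i
      have := congrFun huv i
      simpa using this
  have h2 := card_filter_add_card_filter_not (s := (Finset.univ : Finset (Fin d → Bool))) P
  simp only [card_univ, Fintype.card_pi, Fintype.card_bool, prod_const, Fintype.card_fin] at h2
  change 2 ^ d ≤ 2 * (Finset.univ.filter P).card
  omega

/-- The basic lower bound from the blown-up half cube. -/
theorem exp_le_chiStar {c ε : ℝ} (hc : c ≤ 1 / 2) (hε : 0 < ε) (hε1 : ε ≤ 1) {n m d : ℕ}
    (hd : 0 < d) (hdm : 2 ^ d ≤ m) (hdn : (d : ℝ) ≤ ε * n / 2) :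
    Real.exp (ε ^ 2 * d / 8) / 2 ≤ chiStar n m c ε := by
  classical
  have hn0 : (0 : ℝ) < n := by
    have : (0 : ℝ) < d := by exact_mod_cast hd
    by_contra h
    have : (n : ℝ) = 0 := le_antisymm (not_lt.1 h) (by positivity)
    rw [this] at hdn
    linarith
  have hn : 0 < n := by exact_mod_cast hn0
  have hdn' : d < n := by
    have : (d : ℝ) < n := by nlinarith
    exact_mod_cast this
  set q := (n - 1) / d with hq
  set l := n - q * d with hl
  have hqd : q * d ≤ n - 1 := Nat.div_mul_le_self _ _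
  have hqd2 : n - 1 < q * d + d := by
    have := Nat.lt_div_mul_add (a := n - 1) hd
    omega
  have hl1 : 1 ≤ l := by omega
  have hl2 : l ≤ d := by omega
  have hnl : n = q * d + l := by omega
  have hq0 : 0 < q := Nat.div_pos (by omega) hd
  let A : (Fin d → Bool) → Finset ((Fin q × Fin d) ⊕ Fin l) := fun u =>
    (Finset.univ ×ˢ (Finset.univ.filter fun i => u i = true)).disjSum Finset.univ
  have hAcard : ∀ u, (A u).card = q * (Finset.univ.filter fun i => u i = true).card + l := by
    intro u; simp [A, card_disjSum]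
  have hAint : ∀ u v, (A u ∩ A v).card =
      q * (Finset.univ.filter fun i => u i = true ∧ v i = true).card + l := by
    intro u v
    have : A u ∩ A v = (Finset.univ ×ˢ
        (Finset.univ.filter fun i => u i = true ∧ v i = true)).disjSum Finset.univ := by
      ext (⟨a, b⟩ | z) <;> simp [A]
    rw [this]; simp [card_disjSum]
  set 𝒱 := Finset.univ.filter fun u : Fin d → Bool =>
    d ≤ 2 * (Finset.univ.filter fun i => u i = true).card with h𝒱
  have hV := half_cube d
  rw [← h𝒱] at hV
  have hne : 𝒱.Nonempty := by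
    rw [← card_pos]
    have : 0 < 2 ^ d := by positivity
    omega
  have hnR : (n : ℝ) = q * d + l := by exact_mod_cast hnl
  have h := card_le_chiStar_mul (c := c) (ε := ε) (n := n) (m := m)
    (a := 2 ^ d * Real.exp (-((ε / 2) ^ 2 * d / 2))) (S := (Fin q × Fin d) ⊕ Fin l)
    (by simp [hnl.symm]) 𝒱 hne
    (le_trans (by simpa using card_le_univ 𝒱) hdm) A
    (by
      intro u hu
      rw [hAcard]
      have h1 := (mem_filter.1 hu).2
      have h2 : (d : ℝ) ≤ 2 * ((Finset.univ.filter fun i => u i = true).card : ℝ) := by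
        exact_mod_cast h1
      have h3 : (1 : ℝ) ≤ l := by exact_mod_cast hl1
      have h4 : c * n ≤ 1 / 2 * n := mul_le_mul_of_nonneg_right hc hn0.le
      have h5 : (0 : ℝ) ≤ q := by positivity
      push_cast
      nlinarith [mul_le_mul_of_nonneg_left h2 h5])
    (by
      intro W hW hind
      refine cube_intersecting d (by positivity) W fun u hu v hv => ?_
      by_cases huv : u = v
      · subst huv
        have h1 := (mem_filter.1 (hW hu)).2
        have h2 : (d : ℝ) ≤ 2 * ((Finset.univ.filter fun i => u i = true).card : ℝ) := by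
          exact_mod_cast h1
        simp only [and_self]
        have : (0 : ℝ) ≤ d := by positivity
        nlinarith
      · have h1 := hind u hu v hv huv
        rw [hAint] at h1
        push_cast at h1
        have h2 : (l : ℝ) ≤ d := by exact_mod_cast hl2
        have h3 : (0 : ℝ) < q := by exact_mod_cast hq0
        have h4 : (0 : ℝ) ≤ l := by positivity
        have h5 : q * (ε / 2 * d) ≤
            q * ((Finset.univ.filter fun i => u i = true ∧ v i = true).card : ℝ) := by
          nlinarith
        exact le_of_mul_le_mul_left h5 h3)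
  have hV' : (2 : ℝ) ^ d ≤ 2 * 𝒱.card := by exact_mod_cast hV
  have e : Real.exp (ε ^ 2 * d / 8) * Real.exp (-((ε / 2) ^ 2 * d / 2)) = 1 := by
    rw [← Real.exp_add, ← Real.exp_zero]; congr 1; ring
  have hp : (0 : ℝ) < 2 ^ d * Real.exp (-((ε / 2) ^ 2 * d / 2)) := by positivity
  refine le_of_mul_le_mul_right ?_ hp
  calc Real.exp (ε ^ 2 * d / 8) / 2 * (2 ^ d * Real.exp (-((ε / 2) ^ 2 * d / 2)))
      = 2 ^ d / 2 * (Real.exp (ε ^ 2 * d / 8) * Real.exp (-((ε / 2) ^ 2 * d / 2))) := by ring
    _ = 2 ^ d / 2 := by rw [e, mul_one]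
    _ ≤ 𝒱.card := by linarith
    _ ≤ _ := h

theorem one_le_chiStar {c ε : ℝ} (hc : c < 1) {n m : ℕ} (hn : 0 < n) (hm : 0 < m) :
    (1 : ℝ) ≤ chiStar n m c ε := by
  have h := card_le_chiStar_mul (c := c) (ε := ε) (n := n) (m := m) (a := 1) (S := Fin n)
    (V := Unit) (by simp) Finset.univ (by simp) (by simpa using Nat.succ_le_of_lt hm) (fun _ => Finset.univ)
    (by
      intro _ _
      have : (0 : ℝ) < n := by exact_mod_cast hn
      simp only [card_univ, Fintype.card_fin]
      nlinarith)
    (by
      intro W _ _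
      have := card_le_univ W
      simp only [Fintype.card_unique] at this
      exact_mod_cast this)
  simpa using h

/-- The polynomial lower bound, in all ranges of `n` and `m`. -/
theorem le_chiStar {c ε : ℝ} (hc : c ≤ 1 / 2) (hε : 0 < ε) (hε1 : ε ≤ 1) {n m : ℕ}
    (hn : 0 < n) (hm : 0 < m) :
    (1 / 3 : ℝ) * ((min m (2 ^ n) : ℕ) : ℝ) ^ (ε ^ 3 / 16) ≤ chiStar n m c ε := by
  set M : ℕ := min m (2 ^ n) with hM
  have hM0 : 0 < M := lt_min hm (by positivity)
  have hMR : (0 : ℝ) < M := by exact_mod_cast hM0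
  set d := min (Nat.log 2 m) ⌊ε * n / 2⌋₊ with hd
  have hlog2 : Real.log 2 < 1 := by
    have := Real.log_two_lt_d9; linarith
  have hkey : ε / 2 * Real.log M ≤ d + 1 := by
    rcases min_choice (Nat.log 2 m) ⌊ε * n / 2⌋₊ with h | h
    · rw [hd, h]
      have h1 : m < 2 ^ (Nat.log 2 m + 1) := Nat.lt_pow_succ_log_self (by norm_num) m
      have h2 : (M : ℝ) ≤ 2 ^ (Nat.log 2 m + 1) := by
        have : M ≤ 2 ^ (Nat.log 2 m + 1) := (min_le_left _ _).trans h1.le
        exact_mod_cast this
      have h3 := Real.log_le_log hMR h2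
      rw [Real.log_pow] at h3
      push_cast at h3
      have h4 : 0 ≤ Real.log M := Real.log_nonneg (by exact_mod_cast hM0)
      have h5 : (0 : ℝ) ≤ Nat.log 2 m := by positivity
      nlinarith
    · rw [hd, h]
      have h1 : ε * n / 2 < ⌊ε * n / 2⌋₊ + 1 := Nat.lt_floor_add_one _
      have h2 : (M : ℝ) ≤ 2 ^ n := by
        have : M ≤ 2 ^ n := min_le_right _ _
        exact_mod_cast this
      have h3 := Real.log_le_log hMR h2
      rw [Real.log_pow] at h3
      have h5 : (0 : ℝ) ≤ n := by positivity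
      have h6 : Real.log M ≤ n := by nlinarith
      nlinarith
  have hpow : (M : ℝ) ^ (ε ^ 3 / 16) ≤ Real.exp (ε ^ 2 * d / 8) * Real.exp (1 / 8) := by
    rw [Real.rpow_def_of_pos hMR, ← Real.exp_add]
    apply Real.exp_le_exp.2
    have h1 : ε ^ 2 ≤ 1 := pow_le_one₀ hε.le hε1
    have h2 := mul_le_mul_of_nonneg_left hkey (sq_nonneg ε)
    nlinarith
  have hexp : Real.exp (1 / 8) ≤ 3 / 2 := by
    have h1 := Real.add_one_le_exp (-(1 / 8) : ℝ)
    have h2 : Real.exp (1 / 8) * Real.exp (-(1 / 8) : ℝ) = 1 := by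
      rw [← Real.exp_add]; simp
    nlinarith [Real.exp_pos (1 / 8 : ℝ)]
  have hmain : Real.exp (ε ^ 2 * d / 8) / 2 ≤ chiStar n m c ε := by
    rcases Nat.eq_zero_or_pos d with h0 | h0
    · have := one_le_chiStar (ε := ε) (c := c) (by linarith) hn hm
      rw [h0]; simp only [Nat.cast_zero, mul_zero, zero_div, Real.exp_zero]
      linarith
    · refine exp_le_chiStar hc hε hε1 h0 ?_ ?_
      · exact (Nat.pow_le_pow_right (by norm_num) (min_le_left _ _)).trans
          (Nat.pow_log_le_self 2 hm.ne')
      · exact le_trans (by exact_mod_cast min_le_right _ _) (Nat.floor_le (by positivity))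
  nlinarith [Real.exp_pos (ε ^ 2 * d / 8), mul_le_mul_of_nonneg_left hexp
    (Real.exp_pos (ε ^ 2 * d / 8)).le]

end Pool.Agent.MP_3a192b_co
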