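import Pool.Agent.MP_3a192b_co.HalfD
import Pool.Agent.MP_3a192b_co.Lower

/-! The lower bound with exponent of order `ε²` and the two-sided estimate at `c = 1/2`. -/

open Finset

namespace Pool.Agent.MP_3a192b_co.Half

/-- The lower bound from the half cube blown up with blocks of size `q` and `l` further points. -/
theorem exp_le_chiStar' {c ε : ℝ} (hc : c ≤ 1 / 2) (hε : 0 < ε) (hε1 : ε ≤ 1) {n m d q l : ℕ}
    (hdm : 2 ^ d ≤ m) (hnl : n = q * d + l) (hq0 : 0 < q) (hl1 : 1 ≤ l)
    (hl2 : (l : ℝ) ≤ ε * n / 2) :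
    Real.exp (ε ^ 2 * d / 8) / 2 ≤ chiStar n m c ε := by
  classical
  have hn0 : (0 : ℝ) < n := by
    have : 0 < n := by omega
    exact_mod_cast this
  let A : (Fin d → Bool) → Finset ((Fin q × Fin d) ⊕ Fin l) := fun u =>
    (Finset.univ ×ˢ (Finset.univ.filter fun i => u i = true)).disjSum Finset.univ
  have hAcard : ∀ u, (A u).card = q * (Finset.univ.filter fun i => u i = true).card + l := by
    intro u; simp [A, card_disjSum]
  have hAint : ∀ u v, (A u ∩ A v).card =
      q * (Finset.univ.filter fun i => u i = true ∧ v i = true).card + l := by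
    intro u v
    have : A u ∩ A v = (Finset.univ ×ˢ
        (Finset.univ.filter fun i => u i = true ∧ v i = true)).disjSum Finset.univ := by
      ext (⟨a, b⟩ | z) <;> simp [A]
    rw [this]; simp [card_disjSum]
  set 𝒱 := Finset.univ.filter fun u : Fin d → Bool =>
    d ≤ 2 * (Finset.univ.filter fun i => u i = true).card with h𝒱
  have hV := half_cube d
  rw [← h𝒱] at hV
  have hne : 𝒱.Nonempty := by
    rw [← card_pos]
    have : 0 < 2 ^ d := by positivity
    omega
  have hnR : (n : ℝ) = q * d + l := by exact_mod_cast hnl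
  have h := card_le_chiStar_mul (c := c) (ε := ε) (n := n) (m := m)
    (a := 2 ^ d * Real.exp (-((ε / 2) ^ 2 * d / 2))) (S := (Fin q × Fin d) ⊕ Fin l)
    (by simp [hnl.symm]) 𝒱 hne
    (le_trans (by simpa using card_le_univ 𝒱) hdm) A
    (by
      intro u hu
      rw [hAcard]
      have h1 := (mem_filter.1 hu).2
      have h2 : (d : ℝ) ≤ 2 * ((Finset.univ.filter fun i => u i = true).card : ℝ) := by
        exact_mod_cast h1
      have h3 : (1 : ℝ) ≤ l := by exact_mod_cast hl1
      have h4 : c * n ≤ 1 / 2 * n := mul_le_mul_of_nonneg_right hc hn0.le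
      have h5 : (0 : ℝ) ≤ q := by positivity
      push_cast
      nlinarith [mul_le_mul_of_nonneg_left h2 h5])
    (by
      intro W hW hind
      refine cube_intersecting d (by positivity) W fun u hu v hv => ?_
      by_cases huv : u = v
      · subst huv
        have h1 := (mem_filter.1 (hW hu)).2
        have h2 : (d : ℝ) ≤ 2 * ((Finset.univ.filter fun i => u i = true).card : ℝ) := by
          exact_mod_cast h1
        simp only [and_self]
        have : (0 : ℝ) ≤ d := by positivity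
        nlinarith
      · have h1 := hind u hu v hv huv
        rw [hAint] at h1
        push_cast at h1
        have h3 : (0 : ℝ) < q := by exact_mod_cast hq0
        have h4 : (0 : ℝ) ≤ l := by positivity
        have h5 : q * (ε / 2 * d) ≤
            q * ((Finset.univ.filter fun i => u i = true ∧ v i = true).card : ℝ) := by
          nlinarith
        exact le_of_mul_le_mul_left h5 h3)
  have hV' : (2 : ℝ) ^ d ≤ 2 * 𝒱.card := by exact_mod_cast hV
  have e : Real.exp (ε ^ 2 * d / 8) * Real.exp (-((ε / 2) ^ 2 * d / 2)) = 1 := by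
    rw [← Real.exp_add, ← Real.exp_zero]; congr 1; ring
  have hp : (0 : ℝ) < 2 ^ d * Real.exp (-((ε / 2) ^ 2 * d / 2)) := by positivity
  refine le_of_mul_le_mul_right ?_ hp
  calc Real.exp (ε ^ 2 * d / 8) / 2 * (2 ^ d * Real.exp (-((ε / 2) ^ 2 * d / 2)))
      = 2 ^ d / 2 * (Real.exp (ε ^ 2 * d / 8) * Real.exp (-((ε / 2) ^ 2 * d / 2))) := by ring
    _ = 2 ^ d / 2 := by rw [e, mul_one]
    _ ≤ 𝒱.card := by linarith
    _ ≤ _ := h

theorem le_chiStar_half {c ε : ℝ} (hc : c ≤ 1 / 2) (hε : 0 < ε) (hε1 : ε ≤ 1) {n m : ℕ}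
    (hn : 0 < n) (hm : 0 < m) :
    (1 / 4 : ℝ) * ((min m (2 ^ n) : ℕ) : ℝ) ^ (ε ^ 2 / 16) ≤ chiStar n m c ε := by
  set M : ℕ := min m (2 ^ n) with hM
  have hM0 : 0 < M := lt_min hm (by positivity)
  have hMR : (0 : ℝ) < M := by exact_mod_cast hM0
  obtain ⟨d₀, hd₀⟩ : ∃ d₀, d₀ = min (Nat.log 2 m) n := ⟨_, rfl⟩
  have hd1 : d₀ ≤ Nat.log 2 m := hd₀ ▸ min_le_left _ _
  have hd2 : d₀ ≤ n := hd₀ ▸ min_le_right _ _
  have hlog2 : Real.log 2 < 1 := by
    have := Real.log_two_lt_d9; linarith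
  have hkey : Real.log M ≤ d₀ + 1 := by
    have h2 : M ≤ 2 ^ (d₀ + 1) := by
      rcases min_choice (Nat.log 2 m) n with h | h
      · rw [hd₀, h]
        exact (min_le_left _ _).trans (Nat.lt_pow_succ_log_self (by norm_num) m).le
      · rw [hd₀, h]
        exact (min_le_right _ _).trans (Nat.pow_le_pow_right (by norm_num) (Nat.le_succ n))
    have h3 : (M : ℝ) ≤ 2 ^ (d₀ + 1) := by exact_mod_cast h2
    have h4 := Real.log_le_log hMR h3
    rw [Real.log_pow] at h4
    push_cast at h4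
    have h5 : (0 : ℝ) ≤ d₀ := by positivity
    nlinarith
  have hε2 : ε ^ 2 ≤ 1 := pow_le_one₀ hε.le hε1
  have hexp : ∀ x : ℝ, x ≤ 1 / 2 → Real.exp x ≤ 2 := by
    intro x hx
    have h1 := Real.add_one_le_exp (-x)
    have h2 : Real.exp x * Real.exp (-x) = 1 := by rw [← Real.exp_add]; simp
    nlinarith [Real.exp_pos x]
  rw [Real.rpow_def_of_pos hMR]
  by_cases hsmall : ε * d₀ ≤ 8
  · have h1 := one_le_chiStar (ε := ε) (c := c) (by linarith) hn hm
    have h2 : Real.log M * (ε ^ 2 / 16) ≤ 1 / 2 + 1 / 2 := by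
      have := mul_le_mul_of_nonneg_right hkey (show 0 ≤ ε ^ 2 / 16 by positivity)
      nlinarith
    have h3 := Real.exp_le_exp.2 h2
    rw [Real.exp_add] at h3
    have h4 := hexp (1 / 2) le_rfl
    nlinarith [Real.exp_pos (1 / 2 : ℝ)]
  · rw [not_le] at hsmall
    have hd0R : (0 : ℝ) < d₀ := by
      by_contra h
      have : (d₀ : ℝ) = 0 := le_antisymm (not_lt.1 h) (by positivity)
      rw [this] at hsmall
      linarith
    have hd0 : 0 < d₀ := by exact_mod_cast hd0R
    obtain ⟨q, hq⟩ : ∃ q, q = (n - 1) / d₀ + 1 := ⟨_, rfl⟩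
    have hq0 : 0 < q := hq ▸ Nat.succ_pos _
    have hq1 : n ≤ q * d₀ := by
      have := Nat.lt_div_mul_add (a := n - 1) hd0
      rw [hq, add_mul, one_mul]
      omega
    have hq2 : q * d₀ ≤ n + d₀ := by
      have := Nat.div_mul_le_self (n - 1) d₀
      rw [hq, add_mul, one_mul]
      omega
    obtain ⟨d, hd⟩ : ∃ d, d = (n - 1) / q := ⟨_, rfl⟩
    have hd3 : q * d ≤ n - 1 := by rw [hd, mul_comm]; exact Nat.div_mul_le_self _ _
    have hd4 : n - 1 < q * d + q := by
      have := Nat.lt_div_mul_add (a := n - 1) hq0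
      rw [hd, mul_comm q]
      exact this
    have hd5 : d ≤ d₀ := by
      have : q * d ≤ q * d₀ := by omega
      exact Nat.le_of_mul_le_mul_left this hq0
    have hqR : (0 : ℝ) < q := by exact_mod_cast hq0
    have hq2R : (q : ℝ) * d₀ ≤ 2 * n := by
      have : q * d₀ ≤ 2 * n := by omega
      exact_mod_cast this
    have hlR : ((n - q * d : ℕ) : ℝ) ≤ q := by
      have : n - q * d ≤ q := by omega
      exact_mod_cast this
    have hnR : (n : ℝ) ≤ q * d + q := by
      have : n ≤ q * d + q := by omega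
      exact_mod_cast this
    have hmain := exp_le_chiStar' hc hε hε1 (n := n) (m := m) (d := d) (q := q) (l := n - q * d)
      ((Nat.pow_le_pow_right (by norm_num) (hd5.trans hd1)).trans (Nat.pow_log_le_self 2 hm.ne'))
      (by omega) hq0 (by omega)
      (hlR.trans (by
        have h1 := mul_le_mul_of_nonneg_left hq2R hε.le
        nlinarith))
    have h6 : (d₀ : ℝ) ≤ 2 * d + 2 := by
      have : (q : ℝ) * d₀ ≤ q * (2 * d + 2) := by linarith
      exact le_of_mul_le_mul_left this hqR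
    have h7 : Real.log M * (ε ^ 2 / 16) ≤ ε ^ 2 * d / 8 + 1 / 2 := by
      have := mul_le_mul_of_nonneg_right (hkey.trans (add_le_add_left h6 1))
        (show 0 ≤ ε ^ 2 / 16 by positivity)
      nlinarith
    have h8 := Real.exp_le_exp.2 h7
    rw [Real.exp_add] at h8
    have h9 := hexp (1 / 2) le_rfl
    nlinarith [Real.exp_pos (ε ^ 2 * d / 8), mul_le_mul_of_nonneg_left h9
      (Real.exp_pos (ε ^ 2 * d / 8)).le]

theorem half_sharp {c ε : ℝ} (hε : 0 < ε) (hε1 : ε ≤ 1 / 2048) (hc1 : 1 / 2 - ε ≤ c)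
    (hc2 : c ≤ 1 / 2) {n m : ℕ} (hn : 1 ≤ n) (hm : 1 ≤ m) :
    (1 / 4 : ℝ) * ((min m (2 ^ n) : ℕ) : ℝ) ^ (ε ^ 2 / 16) ≤ chiStar n m c ε ∧
      (chiStar n m c ε : ℝ) ≤ 1 / ε ^ 4 * ((min m (2 ^ n) : ℕ) : ℝ) ^ (2 ^ 22 * ε ^ 2) := by
  refine ⟨le_chiStar_half hc2 hε (by linarith) hn hm, ?_⟩
  have h := chiStar_le_half (c := c) (ε := ε) (δ := 4 * ε) (by linarith) (by positivity)
    (by linarith) (by linarith) n m
  have e1 : 2 ^ 18 * (4 * ε) ^ 2 = 2 ^ 22 * ε ^ 2 := by ring
  rw [e1] at h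
  refine h.trans (mul_le_mul_of_nonneg_right ?_ (by positivity))
  rw [div_le_div_iff₀ (by positivity) (by positivity)]
  nlinarith [pow_pos hε 4]

end Pool.Agent.MP_3a192b_co.Half
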