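import Mathlib

/-! Smoothing along a reversible chain: entropy increments and Markov type two. -/

namespace Pool.Agent.MP_3a192b_co.HS

open Finset
open scoped RealInnerProductSpace

variable {X : Type} [Fintype X]

/-- The variational inequality for relative entropy. -/
lemma dv (p q f : X → ℝ) (hp : ∀ z, 0 ≤ p z) (hq : ∀ z, 0 ≤ q z) (h1 : ∑ z, p z = 1)
    (hpq : ∀ z, 0 < p z → 0 < q z) :
    0 < ∑ z, q z * Real.exp (f z) ∧ ∑ z, p z * f z ≤
      ∑ z, p z * (Real.log (p z) - Real.log (q z)) + Real.log (∑ z, q z * Real.exp (f z)) := by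
  set Z := ∑ z, q z * Real.exp (f z) with hZ
  have hZ0 : 0 < Z := by
    obtain ⟨z, -, hz⟩ := exists_ne_zero_of_sum_ne_zero (h1.trans_ne one_ne_zero)
    exact sum_pos' (fun z _ => mul_nonneg (hq z) (Real.exp_pos _).le)
      ⟨z, mem_univ _, mul_pos (hpq z ((hp z).lt_of_ne' hz)) (Real.exp_pos _)⟩
  refine ⟨hZ0, ?_⟩
  have key : ∀ z, p z * f z ≤ p z * (Real.log (p z) - Real.log (q z)) + p z * Real.log Z +
      (q z * Real.exp (f z) / Z - p z) := by
    intro z
    rcases (hp z).eq_or_lt with h | h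
    · have := hq z
      rw [← h]
      simp only [zero_mul, zero_add, sub_zero]
      positivity
    · have h2 := hpq z h
      have h3 := Real.log_le_sub_one_of_pos
        (show 0 < q z * Real.exp (f z) / (p z * Z) by positivity)
      rw [Real.log_div (by positivity) (by positivity), Real.log_mul h2.ne' (Real.exp_pos _).ne',
        Real.log_exp, Real.log_mul h.ne' hZ0.ne'] at h3
      have h4 := mul_le_mul_of_nonneg_left h3 h.le
      have h5 : p z * (q z * Real.exp (f z) / (p z * Z) - 1) = q z * Real.exp (f z) / Z - p z := by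
        field_simp
      rw [h5] at h4
      linarith
  have h6 := sum_le_sum fun z (_ : z ∈ univ) => key z
  rw [sum_add_distrib, sum_add_distrib, ← sum_mul, sum_sub_distrib, ← sum_div, h1, ← hZ,
    div_self hZ0.ne'] at h6
  linarith

/-- The stationary weight. -/
def st (w : X → X → ℝ) (x : X) : ℝ := ∑ y, w x y

variable [DecidableEq X]

/-- The law of the chain after `j` steps. -/
noncomputable def walk (w : X → X → ℝ) : ℕ → X → X → ℝ
  | 0, x, z => if x = z then 1 else 0
  | j + 1, x, z => (∑ y, w x y * walk w j y z) / st w x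

variable {E : Type} [NormedAddCommGroup E] [InnerProductSpace ℝ E]

/-- The mean position after `j` steps. -/
noncomputable def mean (w : X → X → ℝ) (Φ : X → E) (j : ℕ) (x : X) : E :=
  ∑ z, walk w j x z • Φ z

section chain

variable {w : X → X → ℝ} (h0 : ∀ x y, 0 ≤ w x y) (hs : ∀ x y, w x y = w y x)
  (hp : ∀ x, 0 < st w x)
include h0 hp

lemma walk_nonneg (j : ℕ) : ∀ x z, 0 ≤ walk w j x z := by
  induction j with
  | zero => intro x z; simp only [walk]; split_ifs <;> norm_num
  | succ j ih =>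
    exact fun x z => div_nonneg (sum_nonneg fun y _ => mul_nonneg (h0 _ _) (ih _ _)) (hp x).le

omit h0 in
lemma walk_step (j : ℕ) (x z : X) : st w x * walk w (j + 1) x z = ∑ y, w x y * walk w j y z :=
  mul_div_cancel₀ _ (hp x).ne'

omit h0 in
lemma walk_sum (j : ℕ) : ∀ x, ∑ z, walk w j x z = 1 := by
  induction j with
  | zero => intro x; simp [walk]
  | succ j ih =>
    intro x
    refine mul_left_cancel₀ (hp x).ne' ?_
    simp only [mul_sum, walk_step hp]
    rw [sum_comm]
    simp only [← mul_sum, ih, mul_one, st]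

lemma walk_pos {j : ℕ} {x y z : X} (hxy : 0 < w x y) (h : 0 < walk w j y z) :
    0 < walk w (j + 1) x z :=
  div_pos (sum_pos' (fun _ _ => mul_nonneg (h0 _ _) (walk_nonneg h0 hp j _ _))
    ⟨y, mem_univ _, mul_pos hxy h⟩) (hp x)

omit h0 in
lemma step_sum (j : ℕ) (F : X → X → ℝ) : ∑ x, ∑ y, w x y * ∑ z, walk w j y z * F x z =
    ∑ x, st w x * ∑ z, walk w (j + 1) x z * F x z := by
  refine sum_congr rfl fun x _ => ?_
  simp only [mul_sum, ← mul_assoc, walk_step hp, sum_mul]
  exact sum_comm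

omit h0 hp [DecidableEq X] in
include hs in
lemma right_sum (F : X → ℝ) : ∑ x, ∑ y, w x y * F y = ∑ y, st w y * F y := by
  rw [sum_comm]
  exact sum_congr rfl fun y _ => by simp only [st, sum_mul, hs y]

include hs in
/-- The entropy increments telescope. -/
lemma ent_le (T : ℕ) : ∑ j ∈ range T, ∑ x, ∑ y, w x y * ∑ z, walk w j y z *
      (Real.log (walk w j y z) - Real.log (walk w (j + 1) x z)) ≤
    (∑ x, st w x) * Real.log (Fintype.card X) := by
  have e : ∀ j, ∑ x, ∑ y, w x y * ∑ z, walk w j y z *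
      (Real.log (walk w j y z) - Real.log (walk w (j + 1) x z)) =
      (∑ x, st w x * ∑ z, walk w j x z * Real.log (walk w j x z)) -
        ∑ x, st w x * ∑ z, walk w (j + 1) x z * Real.log (walk w (j + 1) x z) := by
    intro j
    rw [← step_sum hp, ← right_sum hs]
    simp only [mul_sub, sum_sub_distrib]
  simp only [e]
  rw [sum_range_sub' (fun j => ∑ x, st w x * ∑ z, walk w j x z * Real.log (walk w j x z)),
    sum_mul, ← sum_sub_distrib]
  refine sum_le_sum fun x _ => ?_
  rw [← mul_sub]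
  refine mul_le_mul_of_nonneg_left ?_ (hp x).le
  have hM : (0 : ℝ) < Fintype.card X := by exact_mod_cast Fintype.card_pos_iff.2 ⟨x⟩
  have h1 := (dv (walk w T x) (fun _ => 1) (fun _ => 0) (walk_nonneg h0 hp T x)
    (fun _ => zero_le_one) (walk_sum hp T x) fun _ _ => one_pos).2
  have h2 : ∑ z, walk w 0 x z * Real.log (walk w 0 x z) = 0 :=
    sum_eq_zero fun z _ => by simp only [walk]; split_ifs <;> simp
  simp only [mul_zero, sum_const_zero, Real.log_one, sub_zero, Real.exp_zero, mul_one, sum_const,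
    card_univ, nsmul_eq_mul] at h1
  linarith

omit h0 in
lemma mean_step (Φ f : X → E) (j : ℕ) : ∑ x, ∑ y, w x y * ⟪f x, mean w Φ j y⟫ =
    ∑ x, st w x * ⟪f x, mean w Φ (j + 1) x⟫ := by
  simp only [mean, inner_sum, inner_smul_right]
  exact step_sum hp j fun x z => ⟪f x, Φ z⟫

omit h0 hp in
lemma mean_zero (Φ : X → E) : mean w Φ 0 = Φ := by
  funext x
  simp [mean, walk]

omit hp [DecidableEq X] in
include hs in
lemma form_nonneg (f : X → E) {σ : ℝ} (hσ : σ ^ 2 = 1) :
    0 ≤ ∑ x, st w x * ⟪f x, f x⟫ + σ * ∑ x, ∑ y, w x y * ⟪f x, f y⟫ := by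
  have h1 : 0 ≤ ∑ x, ∑ y, w x y * ⟪f x + σ • f y, f x + σ • f y⟫ :=
    sum_nonneg fun x _ => sum_nonneg fun y _ => mul_nonneg (h0 _ _) real_inner_self_nonneg
  have h2 : ∀ x y, w x y * ⟪f x + σ • f y, f x + σ • f y⟫ =
      w x y * ⟪f x, f x⟫ + w x y * ⟪f y, f y⟫ + 2 * σ * (w x y * ⟪f x, f y⟫) := by
    intro x y
    simp only [inner_add_left, inner_add_right, real_inner_smul_left, real_inner_smul_right,
      real_inner_comm (f x) (f y)]
    linear_combination (w x y * ⟪f y, f y⟫) * hσ
  simp only [h2, sum_add_distrib, ← mul_sum, right_sum hs, ← sum_mul] at h1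
  change 0 ≤ ∑ x, st w x * ⟪f x, f x⟫ + _ + _ at h1
  linarith

include hs in
/-- Markov type two. -/
lemma markov (Φ : X → E) (j : ℕ) :
    ∑ x, st w x * ⟪Φ x, Φ x⟫ - ∑ x, st w x * ⟪Φ x, mean w Φ j x⟫ ≤
      j * (∑ x, st w x * ⟪Φ x, Φ x⟫ - ∑ x, ∑ y, w x y * ⟪Φ x, Φ y⟫) := by
  set α : ℕ → ℝ := fun n => ∑ x, st w x * ⟪Φ x, mean w Φ n x⟫ with hα
  have a1 : ∀ i k, ∑ x, st w x * ⟪mean w Φ i x, mean w Φ k x⟫ = α (i + k) := by
    intro i
    induction i with
    | zero => intro k; simp only [mean_zero, zero_add, hα]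
    | succ i ih =>
      intro k
      rw [show i + 1 + k = i + (k + 1) by ring, ← ih, ← mean_step hp]
      simp only [real_inner_comm _ (mean w Φ (i + 1) _)]
      rw [← mean_step hp, sum_comm]
      exact sum_congr rfl fun x _ => sum_congr rfl fun y _ => by rw [hs, real_inner_comm]
  have a2 : ∀ i k, ∑ x, ∑ y, w x y * ⟪mean w Φ i x, mean w Φ k y⟫ = α (i + k + 1) :=
    fun i k => by rw [mean_step hp, a1, add_assoc]
  have a3 : ∀ (i k : ℕ) (σ : ℝ), σ ^ 2 = 1 → 0 ≤ α (i + i) - 2 * α (i + k) + α (k + k) +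
      σ * (α (i + i + 1) - 2 * α (i + k + 1) + α (k + k + 1)) := by
    intro i k σ hσ
    have h := form_nonneg h0 hs (fun x => mean w Φ i x - mean w Φ k x) hσ
    simp only [inner_sub_left, inner_sub_right, mul_sub, sum_sub_distrib, a1, a2,
      add_comm k i] at h
    linarith
  have a4 : ∀ i, α (i + i) - α (i + i + 1) ≤ α 0 - α 1 := by
    intro i
    induction i with
    | zero => exact le_rfl
    | succ i ih =>
      have h := a3 i (i + 1) 1 (by norm_num)
      rw [show i + (i + 1) + 1 = i + 1 + (i + 1) by ring, ← add_assoc i i 1] at h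
      linarith
  have a5 : ∀ i, α 0 - α i ≤ i * (α 0 - α 1) := by
    intro i
    induction i with
    | zero => simp
    | succ i ih =>
      have h := a3 0 i (-1) (by norm_num)
      simp only [zero_add] at h
      push_cast
      linarith [a4 i]
  have e0 : ∑ x, st w x * ⟪Φ x, Φ x⟫ = α 0 := by simp only [hα, mean_zero]
  have e1 := a2 0 0
  rw [mean_zero] at e1
  rw [e0, e1]
  exact a5 j

end chain

end Pool.Agent.MP_3a192b_co.HS
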