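import Pool.Agent.MP_3a192b_co.HsA

/-! Certificates for all close pairs at once, by separation of convex sets. -/

namespace Pool.Agent.MP_3a192b_co.HS

open Finset
open scoped RealInnerProductSpace

lemma minimax {ι : Type} [Fintype ι] [Nonempty ι] (K : Set (ι → ℝ)) (hK : Convex ℝ K) (B : ℝ)
    (h : ∀ ν : ι → ℝ, (∀ i, 0 ≤ ν i) → ∑ i, ν i = 1 → ∃ c ∈ K, ∑ i, ν i * c i ≤ B) :
    ∃ c ∈ K, ∀ i, c i < B + 1 := by
  classical
  by_contra hc
  have hO : Convex ℝ {v : ι → ℝ | ∀ i, v i < B + 1} := by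
    rw [Set.ofPred_forall]
    exact convex_iInter fun i => (convex_Iio (B + 1)).linear_preimage
      (LinearMap.proj i : (ι → ℝ) →ₗ[ℝ] ℝ)
  have hO' : IsOpen {v : ι → ℝ | ∀ i, v i < B + 1} := by
    rw [Set.ofPred_forall]
    exact isOpen_iInter_of_finite fun i => isOpen_lt (continuous_apply i) continuous_const
  obtain ⟨f, u, h1, h2⟩ := geometric_hahn_banach_open hO hO' hK
    (Set.disjoint_left.2 fun v hv hvK => hc ⟨v, hvK, hv⟩)
  have hf : ∀ v : ι → ℝ, f v = ∑ i, f (Pi.single i 1) * v i := by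
    intro v
    conv_lhs => rw [← univ_sum_single v, map_sum]
    refine sum_congr rfl fun i _ => ?_
    rw [mul_comm, ← smul_eq_mul, ← map_smul, ← Pi.single_smul, smul_eq_mul, mul_one]
  have hn : ∀ i, 0 ≤ f (Pi.single i 1) := by
    intro i
    by_contra hi
    have hi' := not_le.1 hi
    have h3 := h1 (fun _ => B) fun _ => lt_add_one B
    have h4 := h1 ((fun _ => B) + ((u - f fun _ => B) / f (Pi.single i 1)) • Pi.single i 1)
      fun k => by
        have h5 := div_nonpos_of_nonneg_of_nonpos (sub_pos.2 h3).le hi'.le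
        have h6 : (0 : ℝ) ≤ (Pi.single i 1 : ι → ℝ) k := by
          rw [Pi.single_apply]; split_ifs <;> norm_num
        have := mul_nonpos_of_nonpos_of_nonneg h5 h6
        simp only [Pi.add_apply, Pi.smul_apply, smul_eq_mul]
        linarith
    rw [map_add, map_smul, smul_eq_mul, div_mul_cancel₀ _ hi'.ne] at h4
    linarith
  have h3 := h1 (fun _ => B + 1 / 2) fun _ => by linarith
  rw [hf, ← sum_mul] at h3
  rcases (sum_nonneg fun i (_ : i ∈ univ) => hn i).eq_or_lt with hN | hN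
  · obtain ⟨i⟩ := ‹Nonempty ι›
    obtain ⟨c, hcK, -⟩ := h (Pi.single i 1)
      (fun k => by rw [Pi.single_apply]; split_ifs <;> norm_num) (by simp)
    have h4 := h2 c hcK
    rw [hf, sum_eq_zero fun k hk => by
      rw [(sum_eq_zero_iff_of_nonneg fun i _ => hn i).1 hN.symm k hk, zero_mul]] at h4
    rw [← hN] at h3
    linarith
  · obtain ⟨c, hcK, h4⟩ := h (fun i => f (Pi.single i 1) / ∑ k, f (Pi.single k 1))
      (fun i => div_nonneg (hn i) hN.le) (by rw [← sum_div, div_self hN.ne'])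
    simp only [div_mul_eq_mul_div] at h4
    rw [← sum_div, div_le_iff₀ hN, ← hf] at h4
    linarith [h2 c hcK]

variable {X : Type} [Fintype X] {E : Type} [NormedAddCommGroup E] [InnerProductSpace ℝ E]

/-- The normalised exponent. -/
noncomputable def ff (Φ : X → E) (l τ : ℝ) (x z : X) (g : E) : ℝ :=
  -(l * ⟪g, Φ z - Φ x⟫) - (l ^ 2 + l * τ) * (1 - ⟪Φ x, Φ z⟫)

/-- A certificate of cost `c`. -/
def Cert (Φ : X → E) (β τ : ℝ) (T : ℕ) (l : ℕ → ℝ) (c : X × X → ℝ) : Prop :=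
  ∃ (ψ : X → E) (r : X → ℕ → X → ℝ), (∀ x j z, 0 ≤ r x j z) ∧
    (∀ x, ∑ j ∈ range T, ∑ z, r x j z = 1) ∧ ∀ x y, ‖Φ x - Φ y‖ ≤ β → ∀ g,
      Real.exp (((∑ j ∈ range T, l j) * ⟪g, Φ x⟫ - ⟪g, ψ y⟫ - c (x, y)) / T) ≤
        ∑ j ∈ range T, ∑ z, r x j z * Real.exp (ff Φ (l j) τ x z g)

lemma cert_convex (Φ : X → E) (β τ : ℝ) (T : ℕ) (l : ℕ → ℝ) : Convex ℝ {c | Cert Φ β τ T l c} := by
  rintro c ⟨ψ, r, h1, h2, h3⟩ c' ⟨ψ', r', h1', h2', h3'⟩ a b ha hb hab
  refine ⟨fun y => a • ψ y + b • ψ' y, fun x j z => a * r x j z + b * r' x j z,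
    fun x j z => add_nonneg (mul_nonneg ha (h1 _ _ _)) (mul_nonneg hb (h1' _ _ _)),
    fun x => ?_, fun x y hxy g => ?_⟩
  · simp only [sum_add_distrib, ← mul_sum, h2, h2', mul_one, hab]
  · have h := convexOn_exp.2 (Set.mem_univ
      (((∑ j ∈ range T, l j) * ⟪g, Φ x⟫ - ⟪g, ψ y⟫ - c (x, y)) / T)) (Set.mem_univ
      (((∑ j ∈ range T, l j) * ⟪g, Φ x⟫ - ⟪g, ψ' y⟫ - c' (x, y)) / T)) ha hb hab
    simp only [smul_eq_mul] at h
    simp only [add_mul, mul_assoc, sum_add_distrib, ← mul_sum]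
    refine le_trans (le_of_eq (congrArg _ ?_)) (h.trans (add_le_add
      (mul_le_mul_of_nonneg_left (h3 x y hxy g) ha) (mul_le_mul_of_nonneg_left (h3' x y hxy g) hb)))
    simp only [inner_add_right, real_inner_smul_right, Pi.add_apply, Pi.smul_apply, smul_eq_mul]
    obtain rfl : b = 1 - a := by linarith
    ring

lemma one_sub_inner {a b : E} (ha : ‖a‖ = 1) (hb : ‖b‖ = 1) : 1 - ⟪a, b⟫ = ‖a - b‖ ^ 2 / 2 := by
  rw [norm_sub_sq_real, ha, hb]
  ring

variable [DecidableEq X]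

/-- The cost attached to a chain. -/
noncomputable def cost (w : X → X → ℝ) (Φ : X → E) (τ : ℝ) (T : ℕ) (l : ℕ → ℝ) (x y : X) : ℝ :=
  ∑ j ∈ range T, (∑ z, walk w j y z * (Real.log (walk w j y z) - Real.log (walk w (j + 1) x z)) +
    (l j ^ 2 + l j * τ) * (1 - ⟪Φ x, mean w Φ j y⟫))

section chain

variable {w : X → X → ℝ} (h0 : ∀ x y, 0 ≤ w x y) (hs : ∀ x y, w x y = w y x)
  (hp : ∀ x, 0 < st w x) {Φ : X → E} (hΦ : ∀ x, ‖Φ x‖ = 1) {β τ : ℝ} {T : ℕ} {l : ℕ → ℝ}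
include h0 hp

lemma cost_cert (hT : 0 < T) (hw : ∀ x y, ‖Φ x - Φ y‖ ≤ β → 0 < w x y) {c : X × X → ℝ}
    (hc : ∀ x y, ‖Φ x - Φ y‖ ≤ β → c (x, y) = cost w Φ τ T l x y) : Cert Φ β τ T l c := by
  have hT' : (0 : ℝ) < T := by exact_mod_cast hT
  refine ⟨fun y => ∑ j ∈ range T, l j • mean w Φ j y, fun x j z => 1 / T * walk w (j + 1) x z,
    fun x j z => mul_nonneg (by positivity) (walk_nonneg h0 hp _ _ _), fun x => ?_,
    fun x y hxy g => ?_⟩
  · simp [← mul_sum, walk_sum hp, hT.ne']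
  · have hd := fun j => dv (walk w j y) (walk w (j + 1) x) (fun z => ff Φ (l j) τ x z g)
      (walk_nonneg h0 hp _ _) (walk_nonneg h0 hp _ _) (walk_sum hp _ _)
      fun z => walk_pos h0 hp (hw x y hxy)
    have hJ := convexOn_exp.map_sum_le (t := range T) (w := fun _ => (1 / T : ℝ))
      (p := fun j => Real.log (∑ z, walk w (j + 1) x z * Real.exp (ff Φ (l j) τ x z g)))
      (fun _ _ => by positivity) (by simp [hT.ne']) fun _ _ => Set.mem_univ _
    simp only [smul_eq_mul, fun j => Real.exp_log (hd j).1] at hJ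
    simp only [mul_assoc, ← mul_sum] at hJ ⊢
    refine le_trans (Real.exp_le_exp.2 ?_) hJ
    rw [one_div_mul_eq_div]
    refine div_le_div_of_nonneg_right ?_ hT'.le
    rw [hc x y hxy, cost, inner_sum, sum_mul, ← sum_sub_distrib, ← sum_sub_distrib]
    refine sum_le_sum fun j _ => ?_
    have e : ∑ z, walk w j y z * ff Φ (l j) τ x z g = l j * ⟪g, Φ x⟫ - ⟪g, l j • mean w Φ j y⟫ -
        (l j ^ 2 + l j * τ) * (1 - ⟪Φ x, mean w Φ j y⟫) := by
      have e1 : ∀ z, walk w j y z * ff Φ (l j) τ x z g =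
          walk w j y z * (l j * ⟪g, Φ x⟫ - (l j ^ 2 + l j * τ)) - l j * (walk w j y z * ⟪g, Φ z⟫) +
            (l j ^ 2 + l j * τ) * (walk w j y z * ⟪Φ x, Φ z⟫) := by
        intro z
        rw [ff, inner_sub_right]
        ring
      simp only [e1, sum_add_distrib, sum_sub_distrib, ← mul_sum, ← sum_mul, walk_sum hp, mean,
        real_inner_smul_right, inner_sum]
      ring
    linarith [(hd j).2]

include hΦ in
lemma cost_nonneg (hl : ∀ j, 0 ≤ l j) (hτ : 0 ≤ τ) {x y : X} (hw : 0 < w x y) :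
    0 ≤ cost w Φ τ T l x y := by
  refine sum_nonneg fun j _ => add_nonneg ?_ (mul_nonneg (by have := hl j; positivity) ?_)
  · simpa [walk_sum hp] using (dv (walk w j y) (walk w (j + 1) x) (fun _ => 0)
      (walk_nonneg h0 hp _ _) (walk_nonneg h0 hp _ _) (walk_sum hp _ _)
      fun z => walk_pos h0 hp hw).2
  · rw [← walk_sum hp j y, mean, inner_sum, ← sum_sub_distrib]
    refine sum_nonneg fun z _ => ?_
    rw [real_inner_smul_right, ← mul_one_sub, one_sub_inner (hΦ _) (hΦ _)]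
    exact mul_nonneg (walk_nonneg h0 hp _ _ _) (by positivity)

include hs hΦ in
lemma cost_mean (hl : ∀ j, 0 ≤ l j) (hτ : 0 ≤ τ) (hw : ∀ x y, w x y ≠ 0 → ‖Φ x - Φ y‖ ≤ β) :
    ∑ x, ∑ y, w x y * cost w Φ τ T l x y ≤ (∑ x, st w x) * (Real.log (Fintype.card X) +
      ∑ j ∈ range T, (l j ^ 2 + l j * τ) * ((j + 1) * (β ^ 2 / 2))) := by
  have e : ∑ x, ∑ y, w x y * cost w Φ τ T l x y =
      ∑ j ∈ range T, ∑ x, ∑ y, w x y * ∑ z, walk w j y z *
        (Real.log (walk w j y z) - Real.log (walk w (j + 1) x z)) +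
      ∑ j ∈ range T, (l j ^ 2 + l j * τ) * ∑ x, ∑ y, w x y * (1 - ⟪Φ x, mean w Φ j y⟫) := by
    rw [← sum_add_distrib]
    simp only [cost, mul_sum (range T)]
    rw [sum_congr rfl fun x _ => sum_comm, sum_comm]
    refine sum_congr rfl fun j _ => ?_
    simp only [mul_add (w _ _), sum_add_distrib, mul_left_comm (w _ _) (l j ^ 2 + l j * τ),
      ← mul_sum]
  have e1 : ∑ x, st w x * ⟪Φ x, Φ x⟫ = ∑ x, ∑ y, w x y := by
    simp only [real_inner_self_eq_norm_sq, hΦ, one_pow, mul_one, st]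
  have e2 : ∑ x, ∑ y, w x y - ∑ x, ∑ y, w x y * ⟪Φ x, Φ y⟫ ≤ (∑ x, st w x) * (β ^ 2 / 2) := by
    simp only [st, sum_mul, ← sum_sub_distrib]
    refine sum_le_sum fun x _ => sum_le_sum fun y _ => ?_
    rw [← mul_one_sub, one_sub_inner (hΦ _) (hΦ _)]
    by_cases h : w x y = 0
    · simp [h]
    · have := hw x y h
      have := h0 x y
      gcongr
  rw [e, mul_add, mul_sum]
  refine add_le_add (ent_le h0 hs hp T) (sum_le_sum fun j _ => ?_)
  rw [mul_left_comm]
  refine mul_le_mul_of_nonneg_left ?_ (by have := hl j; positivity)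
  have h1 := markov h0 hs hp Φ (j + 1)
  rw [e1, ← mean_step hp] at h1
  simp only [mul_one_sub, sum_sub_distrib]
  refine h1.trans ?_
  rw [mul_left_comm]
  push_cast
  exact mul_le_mul_of_nonneg_left e2 (by positivity)

end chain

omit [DecidableEq X] in
lemma exists_cert [Nonempty X] {Φ : X → E} (hΦ : ∀ x, ‖Φ x‖ = 1) {β τ : ℝ} {T : ℕ} {l : ℕ → ℝ}
    (hβ : 0 ≤ β) (hT : 0 < T) (hl : ∀ j, 0 ≤ l j) (hτ : 0 ≤ τ) :
    ∃ c, Cert Φ β τ T l c ∧ ∀ p, c p < 3 * (Real.log (Fintype.card X) +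
      ∑ j ∈ range T, (l j ^ 2 + l j * τ) * ((j + 1) * (β ^ 2 / 2))) + 1 := by
  classical
  refine minimax _ (cert_convex Φ β τ T l) _ fun ν hν hν1 => ?_
  have hM : (0 : ℝ) < Fintype.card (X × X) := by exact_mod_cast Fintype.card_pos
  set w : X → X → ℝ := fun x y =>
    if ‖Φ x - Φ y‖ ≤ β then ν (x, y) + ν (y, x) + 1 / Fintype.card (X × X) else 0 with hw
  have hw1 : ∀ x y, ‖Φ x - Φ y‖ ≤ β → 0 < w x y := fun x y h => by
    have := hν (x, y)
    have := hν (y, x)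
    simp only [hw, if_pos h]
    positivity
  have hw2 : ∀ x y, w x y ≠ 0 → ‖Φ x - Φ y‖ ≤ β := fun x y h => by
    by_contra h'
    exact h (if_neg h')
  have h0 : ∀ x y, 0 ≤ w x y := fun x y => by
    by_cases h : w x y = 0
    · exact h.ge
    · exact (hw1 x y (hw2 x y h)).le
  have hs : ∀ x y, w x y = w y x := fun x y => by
    simp only [hw, norm_sub_rev (Φ x), add_comm (ν (x, y))]
  have hp : ∀ x, 0 < st w x := fun x =>
    sum_pos' (fun y _ => h0 x y) ⟨x, mem_univ _, hw1 x x (by simpa using hβ)⟩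
  have hZ : ∑ x, st w x ≤ 3 := by
    have e1 : ∑ x, ∑ y, ν (x, y) = 1 := by rw [← hν1, Fintype.sum_prod_type]
    have e2 : ∑ x, ∑ y, ν (y, x) = 1 := by rw [sum_comm, e1]
    have e3 : ∑ _x : X, ∑ _y : X, (1 / Fintype.card (X × X) : ℝ) = 1 := by
      rw [← Fintype.sum_prod_type', sum_const, card_univ, nsmul_eq_mul, mul_one_div_cancel hM.ne']
    calc _ ≤ ∑ x, ∑ y, (ν (x, y) + ν (y, x) + 1 / Fintype.card (X × X)) := by
          refine sum_le_sum fun x _ => sum_le_sum fun y _ => ?_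
          have := hν (x, y)
          have := hν (y, x)
          simp only [hw]
          split_ifs
          · exact le_rfl
          · positivity
      _ = 3 := by
          simp only [sum_add_distrib, e1, e2, e3]
          norm_num
  have hc := cost_cert (c := fun p => if ‖Φ p.1 - Φ p.2‖ ≤ β then cost w Φ τ T l p.1 p.2 else 0)
    h0 hp hT hw1 fun x y h => if_pos h
  refine ⟨fun p => if ‖Φ p.1 - Φ p.2‖ ≤ β then cost w Φ τ T l p.1 p.2 else 0, hc, ?_⟩
  refine le_trans ?_ ((cost_mean h0 hs hp hΦ hl hτ hw2).trans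
    (mul_le_mul_of_nonneg_right hZ (add_nonneg (Real.log_natCast_nonneg _)
      (sum_nonneg fun j _ => by have := hl j; positivity))))
  rw [Fintype.sum_prod_type]
  refine sum_le_sum fun x _ => sum_le_sum fun y _ => ?_
  by_cases h : ‖Φ x - Φ y‖ ≤ β
  · simp only [if_pos h]
    refine mul_le_mul_of_nonneg_right ?_ (cost_nonneg h0 hp hΦ hl hτ (hw1 x y h))
    have := hν (y, x)
    simp only [hw, if_pos h, add_assoc]
    exact le_add_of_nonneg_right (by positivity)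
  · simp only [hw, if_neg h, mul_zero, zero_mul, le_refl]

end Pool.Agent.MP_3a192b_co.HS
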