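import Pool.Agent.MP_3a192b_co.HsB

/-! Gaussian tilting and the rounding of nearly antipodal unit vectors. -/

set_option linter.unusedSectionVars false

namespace Pool.Agent.MP_3a192b_co.HS

open Finset MeasureTheory ProbabilityTheory
open scoped RealInnerProductSpace

variable {E : Type} [NormedAddCommGroup E] [InnerProductSpace ℝ E] [FiniteDimensional ℝ E]
  [MeasurableSpace E] [BorelSpace E]

lemma map_inner (w : E) :
    (stdGaussian E).map (fun g => ⟪w, g⟫) = gaussianReal 0 (‖w‖ ^ 2).toNNReal := by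
  have h := IsGaussian.map_eq_gaussianReal (μ := stdGaussian E) (innerSL ℝ w)
  rw [integral_strongDual_stdGaussian, variance_dual_stdGaussian, innerSL_apply_norm] at h
  exact h

lemma gexp (w : E) : Integrable (fun g => Real.exp ⟪g, w⟫) (stdGaussian E) ∧
    ∫ g, Real.exp ⟪g, w⟫ ∂stdGaussian E = Real.exp (‖w‖ ^ 2 / 2) := by
  have h := mgf_gaussianReal (map_inner w) 1
  have h2 := mgf_pos_iff.1 (h ▸ Real.exp_pos _)
  rw [Real.coe_toNNReal _ (sq_nonneg _)] at h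
  simp only [one_mul, mgf, zero_add, one_pow, mul_one] at h h2
  simp only [real_inner_comm w]
  exact ⟨h2, h⟩

/-- The mean of `P` under the Gaussian measure tilted by `w` is `b`. -/
def TI (w : E) (P : E → ℝ) (b : ℝ) : Prop :=
  Integrable (fun g => Real.exp (⟪g, w⟫ - ‖w‖ ^ 2 / 2) * P g) (stdGaussian E) ∧
    ∫ g, Real.exp (⟪g, w⟫ - ‖w‖ ^ 2 / 2) * P g ∂stdGaussian E = b

lemma TI_exp (w u : E) (a : ℝ) :
    TI w (fun g => Real.exp (⟪g, u⟫ + a)) (Real.exp (⟪w, u⟫ + ‖u‖ ^ 2 / 2 + a)) := by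
  have e : (fun g => Real.exp (⟪g, w⟫ - ‖w‖ ^ 2 / 2) * Real.exp (⟪g, u⟫ + a)) =
      fun g => Real.exp (a - ‖w‖ ^ 2 / 2) * Real.exp ⟪g, w + u⟫ := by
    funext g
    rw [← Real.exp_add, ← Real.exp_add, inner_add_right]
    congr 1
    ring
  unfold TI
  rw [e]
  refine ⟨(gexp _).1.const_mul _, ?_⟩
  rw [integral_const_mul, (gexp _).2, ← Real.exp_add, norm_add_sq_real]
  congr 1
  ring

lemma TI.add {w : E} {P Q : E → ℝ} {a b : ℝ} (h : TI w P a) (h' : TI w Q b) :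
    TI w (fun g => P g + Q g) (a + b) := by
  unfold TI
  simp only [mul_add]
  exact ⟨h.1.add h'.1, by rw [integral_add h.1 h'.1, h.2, h'.2]⟩

lemma TI.mul {w : E} {P : E → ℝ} {a : ℝ} (h : TI w P a) (c : ℝ) :
    TI w (fun g => c * P g) (c * a) := by
  unfold TI
  simp only [mul_left_comm _ c]
  exact ⟨h.1.const_mul c, by rw [integral_const_mul, h.2]⟩

lemma TI_sum {ι : Type} {w : E} (s : Finset ι) {P : ι → E → ℝ} {a : ι → ℝ}
    (h : ∀ i, TI w (P i) (a i)) : TI w (fun g => ∑ i ∈ s, P i g) (∑ i ∈ s, a i) := by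
  unfold TI
  simp only [mul_sum]
  exact ⟨integrable_finsetSum _ fun i _ => (h i).1, by
    rw [integral_finsetSum _ fun i _ => (h i).1]
    exact sum_congr rfl fun i _ => (h i).2⟩

/-- A set that is likely under the tilted measure has large measure. -/
lemma tilt {w : E} {P : E → ℝ} {b : ℝ} (h : TI w P b) (hb : b ≤ 1 / 2) (hP : ∀ g, 0 ≤ P g)
    {A : Set E} (hA : MeasurableSet A) (hbad : ∀ g, g ∉ A → 1 ≤ P g) :
    Real.exp (-‖w‖ ^ 2) / 4 ≤ (stdGaussian E).real A := by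
  set θ := Real.exp (-‖w‖ ^ 2) / 2 with hθ
  have hθ0 : 0 < θ := by positivity
  have h1 := (((TI_exp w 0 0).mul (2 * θ)).add (h.mul (-(2 * θ)))).add
    ((TI_exp w w (-(‖w‖ ^ 2 / 2))).mul (-θ ^ 2))
  have h2 := integral_mono h1.1 ((integrable_const (1 : ℝ)).indicator hA) fun g => by
    have h3 := Real.exp_pos (⟪g, w⟫ - ‖w‖ ^ 2 / 2)
    have h4 := hP g
    simp only [inner_zero_right, add_zero, Real.exp_zero, mul_one, ← sub_eq_add_neg]
    set l := Real.exp (⟪g, w⟫ - ‖w‖ ^ 2 / 2)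
    by_cases hg : g ∈ A
    · rw [Set.indicator_of_mem hg]
      nlinarith [sq_nonneg (θ * l - 1), mul_nonneg (mul_pos hθ0 h3).le h4]
    · rw [Set.indicator_of_notMem hg]
      nlinarith [sq_nonneg (θ * l), mul_nonneg (mul_pos hθ0 h3).le (sub_nonneg.2 (hbad g hg))]
  rw [h1.2, integral_indicator_const _ hA, smul_eq_mul, mul_one, real_inner_self_eq_norm_sq] at h2
  simp only [inner_zero_right, norm_zero, add_zero, add_neg_cancel_right] at h2
  have h5 : θ * Real.exp (‖w‖ ^ 2) = 1 / 2 := by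
    rw [hθ, div_mul_eq_mul_div, ← Real.exp_add, neg_add_cancel, Real.exp_zero]
  have h6 : Real.exp (0 + 0 ^ 2 / 2) = 1 := by simp
  rw [h6] at h2
  nlinarith

lemma TI_ff {X : Type} {Φ : X → E} (hΦ : ∀ x, ‖Φ x‖ = 1) (l τ : ℝ) (x z : X) {σ : ℝ}
    (hσ : σ ^ 2 = 1) : TI ((σ * τ) • Φ x) (fun g => Real.exp (ff Φ l τ x z (σ • g))) 1 := by
  have h := TI_exp ((σ * τ) • Φ x) ((-(σ * l)) • (Φ z - Φ x))
    (-((l ^ 2 + l * τ) * (1 - ⟪Φ x, Φ z⟫)))
  have e1 : ‖(-(σ * l)) • (Φ z - Φ x)‖ ^ 2 = l ^ 2 * (2 * (1 - ⟪Φ x, Φ z⟫)) := by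
    rw [norm_smul, mul_pow, Real.norm_eq_abs, sq_abs, neg_sq, mul_pow, hσ, norm_sub_rev,
      one_sub_inner (hΦ x) (hΦ z)]
    ring
  have e2 : ⟪(σ * τ) • Φ x, (-(σ * l)) • (Φ z - Φ x)⟫ = l * τ * (1 - ⟪Φ x, Φ z⟫) := by
    rw [real_inner_smul_left, real_inner_smul_right, inner_sub_right, real_inner_self_eq_norm_sq,
      hΦ]
    linear_combination (l * τ * (1 - ⟪Φ x, Φ z⟫)) * hσ
  rw [e1, e2] at h
  convert h using 2
  · rw [ff, real_inner_smul_left, real_inner_smul_right]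
    congr 1
    ring
  · rw [eq_comm, Real.exp_eq_one_iff]
    ring

lemma exp_neg_le : Real.exp (-(5 / 2)) ≤ 1 / 4 := by
  rw [Real.exp_neg, inv_le_comm₀ (Real.exp_pos _) (by norm_num)]
  refine le_trans ?_ (Real.quadratic_le_exp_of_nonneg (by norm_num))
  norm_num

/-- Rounding with a certificate. -/
lemma round {W : Type} [Fintype W] {φ : W → E} (hφ : ∀ u, ‖φ u‖ = 1) {β τ : ℝ} {T : ℕ}
    {l : ℕ → ℝ} (hβ : 0 ≤ β) (hT : 0 < T) {c : (W × Bool) × (W × Bool) → ℝ}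
    (hc : Cert (fun x : W × Bool => if x.2 then φ x.1 else -φ x.1) β τ T l c)
    (hl : 0 ≤ ∑ j ∈ range T, l j)
    (hB : ∀ p, c p + 3 * T ≤ (∑ j ∈ range T, l j) * (τ - 3)) :
    ∃ F : Finset W, (∀ u ∈ F, ∀ v ∈ F, β < ‖φ u + φ v‖) ∧
      Real.exp (-τ ^ 2) / 4 * Fintype.card W ≤ F.card := by
  classical
  obtain ⟨ψ, r, r0, r1, hc⟩ := hc
  set Φ : W × Bool → E := fun x => if x.2 then φ x.1 else -φ x.1 with hΦ
  have hΦ1 : ∀ x, ‖Φ x‖ = 1 := by
    rintro ⟨u, _ | _⟩ <;> simp [hΦ, hφ]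
  have hT' : (0 : ℝ) < T := by exact_mod_cast hT
  set A : W → Set E := fun u =>
    {g | ⟪g, ψ (u, false)⟫ < 0 ∧ ∀ v, ‖φ u + φ v‖ ≤ β → 0 < ⟪g, ψ (v, false)⟫} with hA
  have hAm : ∀ u, MeasurableSet (A u) := fun u => by
    simp only [hA]
    measurability
  have hG : ∀ (x : W × Bool) (σ : ℝ), σ ^ 2 = 1 → TI ((σ * τ) • Φ x)
      (fun g => ∑ j ∈ range T, ∑ z, r x j z * Real.exp (ff Φ (l j) τ x z (σ • g))) 1 := by
    intro x σ hσ
    have := TI_sum (range T) fun j => TI_sum univ fun z => (TI_ff hΦ1 (l j) τ x z hσ).mul (r x j z)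
    simpa only [mul_one, r1] using this
  have key : ∀ x y g, ‖Φ x - Φ y‖ ≤ β → τ - 3 ≤ ⟪g, Φ x⟫ → ⟪g, ψ y⟫ ≤ 0 →
      8 ≤ ∑ j ∈ range T, ∑ z, r x j z * Real.exp (ff Φ (l j) τ x z g) := by
    intro x y g hxy h1 h2
    refine le_trans (le_trans ?_ (Real.exp_le_exp.2 (show (3 : ℝ) ≤ _ from ?_))) (hc x y hxy g)
    · refine le_trans ?_ (Real.quadratic_le_exp_of_nonneg (by norm_num))
      norm_num
    · rw [le_div_iff₀ hT']
      linarith [hB (x, y), mul_le_mul_of_nonneg_left h1 hl]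
  have hlow : ∀ u, Real.exp (-τ ^ 2) / 4 ≤ (stdGaussian E).real (A u) := by
    intro u
    have h1 := hG (u, true) 1 (by norm_num)
    have h2 := hG (u, false) (-1) (by norm_num)
    have h3 := TI_exp (τ • φ u) (-φ u) (τ - 3)
    have e1 : (1 * τ) • Φ (u, true) = τ • φ u := by simp [hΦ]
    have e2 : (-1 * τ) • Φ (u, false) = τ • φ u := by simp [hΦ]
    have e3 : ⟪τ • φ u, -φ u⟫ + ‖-φ u‖ ^ 2 / 2 + (τ - 3) = -(5 / 2) := by
      rw [inner_neg_right, real_inner_smul_left, real_inner_self_eq_norm_sq, norm_neg, hφ]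
      ring
    have e4 : ‖τ • φ u‖ ^ 2 = τ ^ 2 := by
      rw [norm_smul, hφ, mul_one, Real.norm_eq_abs, sq_abs]
    rw [e1] at h1
    rw [e2] at h2
    rw [e3] at h3
    have hs : ∀ x g, 0 ≤ ∑ j ∈ range T, ∑ z, r x j z * Real.exp (ff Φ (l j) τ x z g) :=
      fun x g => sum_nonneg fun j _ => sum_nonneg fun z _ =>
        mul_nonneg (r0 _ _ _) (Real.exp_pos _).le
    rw [← e4]
    refine tilt (((h1.mul (1 / 8)).add (h2.mul (1 / 8))).add h3) (by linarith [exp_neg_le])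
      (fun g => ?_) (hAm u) fun g hg => ?_
    · have := hs (u, true) ((1 : ℝ) • g)
      have := hs (u, false) ((-1 : ℝ) • g)
      positivity
    · have a1 := hs (u, true) ((1 : ℝ) • g)
      have a2 := hs (u, false) ((-1 : ℝ) • g)
      have a3 := Real.exp_pos (⟪g, -φ u⟫ + (τ - 3))
      by_cases hτ : τ - 3 ≤ ⟪g, φ u⟫
      · by_cases hg1 : ⟪g, ψ (u, false)⟫ < 0
        · obtain ⟨v, hv⟩ := not_forall.1 fun h => hg ⟨hg1, h⟩
          obtain ⟨hv1, hv2⟩ := Classical.not_imp.1 hv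
          have := key (u, true) (v, false) ((1 : ℝ) • g) (by simpa [hΦ] using hv1)
            (by simpa [hΦ] using hτ) (by simpa using hv2)
          linarith
        · have := key (u, false) (u, false) ((-1 : ℝ) • g) (by simpa using hβ)
            (by simpa [hΦ] using hτ) (by simpa using hg1)
          linarith
      · have := Real.one_le_exp (show 0 ≤ ⟪g, -φ u⟫ + (τ - 3) by
          rw [inner_neg_right]; linarith [not_le.1 hτ])
        linarith
  have hint : ∀ u, Integrable ((A u).indicator fun _ => (1 : ℝ)) (stdGaussian E) :=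
    fun u => (integrable_const _).indicator (hAm u)
  obtain ⟨g, hg⟩ := exists_integral_le (integrable_finsetSum univ fun u _ => hint u)
  rw [integral_finsetSum _ fun u _ => hint u] at hg
  refine ⟨univ.filter fun u => g ∈ A u, fun u hu v hv => ?_, ?_⟩
  · by_contra h
    exact lt_asymm (mem_filter.1 hv).2.1 ((mem_filter.1 hu).2.2 v (not_lt.1 h))
  · calc _ = ∑ _u : W, Real.exp (-τ ^ 2) / 4 := by rw [sum_const, card_univ, nsmul_eq_mul, mul_comm]
      _ ≤ _ := sum_le_sum fun u _ => by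
          rw [integral_indicator_const _ (hAm u), smul_eq_mul, mul_one]
          exact hlow u
      _ ≤ _ := hg
      _ = _ := by
          rw [card_filter]
          push_cast
          exact sum_congr rfl fun u _ => by rw [Set.indicator_apply]

end Pool.Agent.MP_3a192b_co.HS
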