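import Pool.Agent.MP_3a192b_co.HsC

/-! Large independent sets in graphs whose edges join nearly antipodal unit vectors. -/

namespace Pool.Agent.MP_3a192b_co.HS

open Finset MeasureTheory ProbabilityTheory
open scoped RealInnerProductSpace

section vec

variable {E : Type} [NormedAddCommGroup E] [InnerProductSpace ℝ E] [FiniteDimensional ℝ E]
  [MeasurableSpace E] [BorelSpace E]

/-- Large subfamilies without nearly antipodal pairs. -/
lemma vec_indep {W : Type} [Fintype W] [Nonempty W] {φ : W → E} (hφ : ∀ u, ‖φ u‖ = 1) {β γ : ℝ}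
    {T : ℕ} (hβ : 0 < β) (hT : 0 < T) (h3 : 3 * β ^ 2 * T ≤ 1)
    (hγ : 242 * β ^ 2 ≤ γ * Real.log (T + 1)) (hγ0 : 0 ≤ γ) (hγ1 : γ ≤ 1) :
    ∃ F : Finset W, (∀ u ∈ F, ∀ v ∈ F, β < ‖φ u + φ v‖) ∧
      Real.exp (-153) / 8 * (Fintype.card W : ℝ) ^ (1 - γ) ≤ F.card := by
  have hT1 : (1 : ℝ) ≤ T := by exact_mod_cast hT
  set S : ℝ := ∑ j ∈ range T, ((j : ℝ) + 1)⁻¹ with hS
  have hS1 : 1 ≤ S := by
    have := single_le_sum (f := fun j : ℕ => ((j : ℝ) + 1)⁻¹) (fun j _ => by positivity)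
      (mem_range.2 hT)
    simpa using this
  have hS2 : Real.log (T + 1) ≤ S := by
    have := log_add_one_le_harmonic T
    simpa [harmonic] using this
  have hW : (0 : ℝ) < Fintype.card W := by exact_mod_cast Fintype.card_pos
  set M : ℝ := Real.log (Fintype.card (W × Bool)) with hM
  have hM0 : 0 ≤ M := Real.log_natCast_nonneg _
  set μ := √((M + T) / S) / β with hμ
  have hμ0 : 0 ≤ μ := by positivity
  have hμ2 : μ ^ 2 * β ^ 2 * S = M + T := by
    rw [hμ, div_pow, Real.sq_sqrt (by positivity)]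
    field_simp
  set τ := 6 + 11 * μ * β ^ 2 with hτ
  have hτ0 : 0 ≤ τ := by positivity
  obtain ⟨c, hc, hB⟩ := exists_cert (Φ := fun x : W × Bool => if x.2 then φ x.1 else -φ x.1)
    (by rintro ⟨u, _ | _⟩ <;> simp [hφ]) (l := fun j => μ * ((j : ℝ) + 1)⁻¹) hβ.le hT
    (fun j => by positivity) hτ0
  have e1 : ∑ j ∈ range T, ((μ * ((j : ℝ) + 1)⁻¹) ^ 2 + μ * ((j : ℝ) + 1)⁻¹ * τ) *
      ((j + 1) * (β ^ 2 / 2)) = μ ^ 2 * β ^ 2 * S / 2 + T * (μ * τ * β ^ 2 / 2) := by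
    rw [hS, mul_sum, sum_div, ← nsmul_eq_mul, ← card_range T, ← sum_const, card_range,
      ← sum_add_distrib]
    refine sum_congr rfl fun j _ => ?_
    field_simp
  obtain ⟨F, hF, hcard⟩ := round hφ hβ.le hT hc (sum_nonneg fun j _ => by positivity) fun p => by
    have h1 := hB p
    rw [e1, hμ2] at h1
    rw [← mul_sum, ← hS]
    have h2 : 3 * β ^ 2 * T * (μ * τ) ≤ S * (μ * τ) :=
      mul_le_mul_of_nonneg_right (h3.trans hS1) (by positivity)
    have h4 : μ * S * τ = 6 * (μ * S) + 11 * (M + T) := by rw [← hμ2, hτ]; ring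
    nlinarith
  refine ⟨F, hF, le_trans ?_ hcard⟩
  have h5 : τ ^ 2 ≤ 153 + γ * M := by
    have h6 : τ ^ 2 ≤ 72 + 242 * (μ * β ^ 2) ^ 2 := by
      rw [hτ]; nlinarith [sq_nonneg (6 - 11 * μ * β ^ 2)]
    have h7 : 242 * (μ * β ^ 2) ^ 2 * S ≤ (81 + γ * M) * S := by
      have h8 : 242 * β ^ 2 * M ≤ γ * S * M :=
        mul_le_mul_of_nonneg_right (hγ.trans (mul_le_mul_of_nonneg_left hS2 hγ0)) hM0
      have h9 : 242 * (μ * β ^ 2) ^ 2 * S = 242 * β ^ 2 * (M + T) := by rw [← hμ2]; ring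
      nlinarith
    linarith [le_of_mul_le_mul_right h7 (by linarith : 0 < S)]
  have h6 : M = Real.log 2 + Real.log (Fintype.card W) := by
    rw [hM, Fintype.card_prod, Fintype.card_bool, ← Real.log_mul (by norm_num) hW.ne', mul_comm]
    push_cast
    rfl
  have h7 : Real.exp (-153) / 8 * (Fintype.card W : ℝ) ^ (1 - γ) =
      Real.exp (-153 - Real.log 2 - Real.log (Fintype.card W) * γ) / 4 * Fintype.card W := by
    rw [Real.rpow_sub hW, Real.rpow_one, Real.exp_sub, Real.exp_sub, Real.exp_log (by norm_num),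
      Real.rpow_def_of_pos hW]
    ring
  rw [h7]
  have h8 : γ * Real.log 2 ≤ 1 * Real.log 2 :=
    mul_le_mul_of_nonneg_right hγ1 (Real.log_nonneg (by norm_num))
  gcongr
  rw [h6] at h5
  linarith

end vec

end Pool.Agent.MP_3a192b_co.HS
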