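import Pool.Agent.MP_3a192b_co.Anti

/-! Linear threshold sets in the discrete cube: clipping, alignment of signs and tilting. -/

namespace Pool.Agent.MP_3a192b_co.HS

open Finset

variable {d : ℕ}

/-- The vector with signs changed. -/
def fl (e : Fin d → Bool) (v : Fin d → ℝ) (k : Fin d) : ℝ := if e k = true then v k else -v k

lemma card_flip (e : Fin d → Bool) (P : ((Fin d → ℝ) → ℝ) → Prop) [DecidablePred P] :
    (univ.filter fun x : Fin d → Bool => P fun v => sg x (fl e v)).card =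
      (univ.filter fun x : Fin d → Bool => P (sg x)).card := by
  have h : Function.Involutive fun (x : Fin d → Bool) k => x k == e k := fun x => by
    funext k
    change ((x k == e k) == e k) = x k
    cases x k <;> cases e k <;> rfl
  refine card_bijective _ h.bijective fun x => ?_
  have e1 : (sg fun k => x k == e k) = fun v => sg x (fl e v) := by
    funext v
    refine sum_congr rfl fun k _ => ?_
    change (if (x k == e k) = true then _ else _) = _
    unfold fl
    cases x k <;> cases e k <;> simp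
  simp only [mem_filter, mem_univ, true_and, e1]

lemma sg_mono {a : Fin d → ℝ} (ha : ∀ k, 0 ≤ a k) : Monotone fun x : Fin d → Bool => sg x a := by
  refine fun x y h => sum_le_sum fun k _ => ?_
  have h1 := h k
  have h2 := ha k
  revert h1
  cases x k <;> cases y k <;> simp [h2]

lemma harris {f g : (Fin d → Bool) → ℝ} (hf : ∀ x, 0 ≤ f x) (hg : ∀ x, 0 ≤ g x) (h1 : Monotone f)
    (h2 : Monotone g) : (∑ x, f x) * ∑ x, g x ≤ 2 ^ d * ∑ x, f x * g x := by
  simpa using fkg f g (fun _ => (1 : ℝ)) (fun _ => zero_le_one) hf hg h1 h2 fun _ _ => le_rfl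

lemma ind_mono {a : Fin d → ℝ} (ha : ∀ k, 0 ≤ a k) (s : ℝ) :
    Monotone fun x : Fin d → Bool => if s < sg x a then (1 : ℝ) else 0 := by
  intro x y h
  have := sg_mono ha h
  simp only at this ⊢
  split_ifs with h1 h2
  · exact le_rfl
  · exact absurd (h1.trans_le this) h2
  · exact zero_le_one
  · exact le_rfl

lemma harris_sets {a a' : Fin d → ℝ} (ha : ∀ k, 0 ≤ a k) (ha' : ∀ k, 0 ≤ a' k) {s s' c : ℝ}
    (hc : 0 ≤ c) (h : c * 2 ^ d ≤ (univ.filter fun x => s < sg x a).card)
    (h' : c * 2 ^ d ≤ (univ.filter fun x => s' < sg x a').card) :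
    c ^ 2 * 2 ^ d ≤ ∑ x, (if s < sg x a then (1 : ℝ) else 0) * if s' < sg x a' then 1 else 0 := by
  have h1 := harris (fun x => by positivity) (fun x => by positivity) (ind_mono ha s)
    (ind_mono ha' s')
  rw [sum_boole, sum_boole] at h1
  refine le_of_mul_le_mul_left (le_trans ?_ h1) (by positivity)
  calc _ = c * 2 ^ d * (c * 2 ^ d) := by ring
    _ ≤ _ := by gcongr

/-- The density of a biased product measure. -/
def den (y : Fin d → ℝ) (x : Fin d → Bool) : ℝ := ∏ k, (1 + fl x y k)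

lemma sum_cube (F : Fin d → Bool → ℝ) :
    ∑ x : Fin d → Bool, ∏ k, F k (x k) = ∏ k, (F k true + F k false) := by
  rw [← Fintype.prod_sum]
  simp only [Fintype.sum_bool]

lemma den_exp {y a : Fin d → ℝ} (h0 : ∀ k, 0 ≤ y k) (h1 : ∀ k, y k ≤ 1) (ha : ∀ k, |a k| ≤ 1) :
    ∑ x, den y x * Real.exp (-sg x a) ≤ 2 ^ d * Real.exp (∑ k, a k ^ 2 - ∑ k, a k * y k) := by
  have e : ∀ x, den y x * Real.exp (-sg x a) = ∏ k, ((1 + if x k = true then y k else -y k) *
      Real.exp (-if x k = true then a k else -a k)) := fun x => by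
    rw [prod_mul_distrib, ← Real.exp_sum, sum_neg_distrib]
    rfl
  simp only [e]
  rw [sum_cube fun k b => (1 + if b = true then y k else -y k) *
    Real.exp (-if b = true then a k else -a k), ← sum_sub_distrib, Real.exp_sum]
  have e2 : (2 : ℝ) ^ d = ∏ _k : Fin d, 2 := by simp
  rw [e2, ← prod_mul_distrib]
  simp only [if_true, Bool.false_eq_true, if_false, neg_neg]
  refine prod_le_prod (fun k _ => ?_) fun k _ => ?_
  · have := h0 k
    have : 0 ≤ 1 + -y k := by linarith [h1 k]
    positivity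
  · have b1 := (abs_le.1 (Real.abs_exp_sub_one_sub_id_le (ha k))).2
    have b2 := (abs_le.1 (Real.abs_exp_sub_one_sub_id_le ((abs_neg _).trans_le (ha k)))).2
    have b3 := Real.add_one_le_exp (a k ^ 2 - a k * y k)
    nlinarith [mul_le_mul_of_nonneg_left b1 (show 0 ≤ 1 + -y k by linarith [h1 k]),
      mul_le_mul_of_nonneg_left b2 (show 0 ≤ 1 + y k by linarith [h0 k])]

lemma den_sum (y : Fin d → ℝ) : ∑ x, den y x = 2 ^ d := by
  refine (sum_cube fun k b => 1 + if b = true then y k else -y k).trans ?_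
  simp only [if_true, Bool.false_eq_true, if_false]
  rw [prod_congr rfl fun k _ => (by ring : 1 + y k + (1 + -y k) = 2)]
  simp

lemma den_sq (y : Fin d → ℝ) : ∑ x, den y x ^ 2 ≤ 2 ^ d * Real.exp (∑ k, y k ^ 2) := by
  simp only [den, ← prod_pow]
  refine (sum_cube fun k b => (1 + if b = true then y k else -y k) ^ 2).trans_le ?_
  have e2 : (2 : ℝ) ^ d = ∏ _k : Fin d, 2 := by simp
  rw [e2, Real.exp_sum, ← prod_mul_distrib]
  refine prod_le_prod (fun k _ => by positivity) fun k _ => ?_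
  simp only [if_true, Bool.false_eq_true, if_false]
  nlinarith [Real.add_one_le_exp (y k ^ 2)]

lemma head_card {φ r : Fin d → ℝ} {s c t : ℝ} (h1 : ∑ k, φ k ^ 2 = 1) (ht0 : 0 ≤ t)
    (ht : Real.exp (-(t ^ 2 / 2)) ≤ c / 2)
    (hA : c * 2 ^ d < (univ.filter fun x => s < sg x fun k => φ k + r k).card) :
    c / 2 * 2 ^ d ≤ (univ.filter fun x => s - t < sg x r).card := by
  have h2 := tail_card φ ht0 one_pos h1.le
  have h3 : (univ.filter fun x => s < sg x fun k => φ k + r k) ⊆
      (univ.filter fun x => s - t < sg x r) ∪ univ.filter fun x => t < sg x φ := by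
    intro x hx
    simp only [mem_union, mem_filter, mem_univ, true_and, sg_add] at hx ⊢
    by_contra h
    rw [not_or, not_lt, not_lt] at h
    linarith [h.1, h.2]
  have h4 := (Nat.cast_le (α := ℝ)).2 ((card_le_card h3).trans (card_union_le _ _))
  rw [mul_one] at h2
  push_cast at h4
  linarith [mul_le_mul_of_nonneg_right ht (show (0 : ℝ) ≤ 2 ^ d by positivity)]

/-- Two aligned threshold sets whose regular parts are not antipodal have a large intersection. -/
lemma pair_pos {φ φ' r r' : Fin d → ℝ} {s s' c t σ δ β : ℝ} (hr : ∀ k, 0 ≤ r k)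
    (hr' : ∀ k, 0 ≤ r' k) (hw : ∀ k, 0 ≤ φ k + φ' k) (h1 : ∑ k, φ k ^ 2 = 1)
    (h1' : ∑ k, φ' k ^ 2 = 1) (hδ : ∀ k, |φ k| ≤ δ) (hδ' : ∀ k, |φ' k| ≤ δ) (hδ1 : δ ≤ 1)
    (hβ : 0 < β) (hβδ : 2 * σ * δ ≤ β ^ 2) (hn : β ^ 2 < ∑ k, (φ k + φ' k) ^ 2) (hc : 0 ≤ c)
    (ht0 : 0 ≤ t) (ht : Real.exp (-(t ^ 2 / 2)) ≤ c / 2) (hσ0 : 0 ≤ σ)
    (hσ : Real.exp (t + 1 - σ / 2) ≤ c ^ 2 / 16)
    (hA : c * 2 ^ d < (univ.filter fun x => s < sg x fun k => φ k + r k).card)
    (hA' : c * 2 ^ d < (univ.filter fun x => s' < sg x fun k => φ' k + r' k).card) :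
    (c ^ 2 / 8) ^ 2 * Real.exp (-(σ ^ 2 / β ^ 2)) * 2 ^ d ≤ (univ.filter fun x =>
      (s < sg x fun k => φ k + r k) ∧ s' < sg x fun k => φ' k + r' k).card := by
  set n := ∑ k, (φ k + φ' k) ^ 2 with hn2
  have hn0 : 0 < n := lt_trans (by positivity) hn
  set y : Fin d → ℝ := fun k => σ / n * (φ k + φ' k) with hy
  have y0 : ∀ k, 0 ≤ y k := fun k => mul_nonneg (by positivity) (hw k)
  have y1 : ∀ k, y k ≤ 1 := fun k => by
    simp only [hy]
    rw [div_mul_eq_mul_div, div_le_one hn0]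
    nlinarith [mul_le_mul_of_nonneg_left (add_le_add (le_of_abs_le (hδ k)) (le_of_abs_le (hδ' k)))
      hσ0]
  have e0 : n = 2 + 2 * ∑ k, φ k * φ' k := by
    simp only [hn2, add_sq, sum_add_distrib, h1, h1', mul_assoc, ← mul_sum]
    ring
  have pen : ∀ a : Fin d → ℝ, (∀ k, |a k| ≤ δ) → ∑ k, a k ^ 2 = 1 →
      ∑ k, a k * (φ k + φ' k) = n / 2 →
      ∑ x, den y x * Real.exp (t - sg x a) ≤ c ^ 2 / 16 * 2 ^ d := by
    intro a a1 a2 a3
    have h2 := den_exp y0 y1 fun k => (a1 k).trans hδ1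
    have e1 : ∑ k, a k * y k = σ / 2 := by
      simp only [hy, mul_left_comm (a _), ← mul_sum, a3]
      field_simp
    rw [a2, e1] at h2
    simp only [sub_eq_add_neg t, Real.exp_add, mul_left_comm _ (Real.exp t), ← mul_sum]
    calc _ ≤ Real.exp t * (2 ^ d * Real.exp (1 - σ / 2)) := by gcongr
      _ = Real.exp (t + 1 - σ / 2) * 2 ^ d := by rw [add_sub_assoc, Real.exp_add]; ring
      _ ≤ _ := by gcongr
  have p1 := pen φ hδ h1 (by
    simp only [mul_add, sum_add_distrib, ← sq, h1, e0]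
    ring)
  have p2 := pen φ' hδ' h1' (by
    simp only [mul_add, sum_add_distrib, ← sq, h1', e0, mul_comm (φ' _) (φ _)]
    ring)
  have d0 : ∀ x, 0 ≤ den y x := fun x => prod_nonneg fun k _ => by
    unfold fl
    split_ifs <;> linarith [y0 k, y1 k]
  have dm : Monotone (den y) := fun x x' h => prod_le_prod (fun k _ => by
      unfold fl
      split_ifs <;> linarith [y0 k, y1 k]) fun k _ => by
    have h1 := h k
    have h2 := y0 k
    unfold fl
    revert h1
    cases x k <;> cases x' k <;> simp [h2]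
  have g1 := harris_sets hr hr' (by positivity) (head_card h1 ht0 ht hA) (head_card h1' ht0 ht hA')
  have g2 := harris d0 (g := fun x => (if s - t < sg x r then (1 : ℝ) else 0) *
    if s' - t < sg x r' then 1 else 0) (fun x => by positivity) dm
    ((ind_mono hr _).mul (ind_mono hr' _) (fun x => by positivity) fun x => by positivity)
  rw [den_sum] at g2
  have g3 := g1.trans (le_of_mul_le_mul_left g2 (by positivity))
  set I : (Fin d → Bool) → ℝ := fun x =>
    if (s < sg x fun k => φ k + r k) ∧ s' < sg x fun k => φ' k + r' k then 1 else 0 with hI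
  have g4 : c ^ 2 / 8 * 2 ^ d ≤ ∑ x, den y x * I x := by
    have g5 : ∑ x, den y x * ((if s - t < sg x r then (1 : ℝ) else 0) *
        if s' - t < sg x r' then 1 else 0) ≤ ∑ x, (den y x * I x + den y x * Real.exp (t - sg x φ) +
          den y x * Real.exp (t - sg x φ')) := by
      refine sum_le_sum fun x _ => ?_
      rw [← mul_add, ← mul_add]
      refine mul_le_mul_of_nonneg_left ?_ (d0 x)
      have a1 := Real.add_one_le_exp (t - sg x φ)
      have a2 := Real.add_one_le_exp (t - sg x φ')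
      have a3 := Real.exp_pos (t - sg x φ)
      have a4 := Real.exp_pos (t - sg x φ')
      simp only [hI, sg_add]
      split_ifs with b1 b2 b3 b4 b5 b6 b7 <;> try linarith
      rcases not_and_or.1 b3 with b | b <;> linarith [not_lt.1 b]
    rw [sum_add_distrib, sum_add_distrib] at g5
    linarith
  have g6 := sum_mul_sq_le_sq_mul_sq univ (den y) I
  have e3 : ∑ x, I x ^ 2 = (univ.filter fun x =>
      (s < sg x fun k => φ k + r k) ∧ s' < sg x fun k => φ' k + r' k).card := by
    simp only [hI, ite_pow, one_pow, zero_pow two_ne_zero, sum_boole]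
  have e4 : ∑ k, y k ^ 2 ≤ σ ^ 2 / β ^ 2 := by
    simp only [hy, mul_pow, ← mul_sum, ← hn2]
    rw [show (σ / n) ^ 2 * n = σ ^ 2 / n by field_simp]
    gcongr
  rw [e3] at g6
  have g7 := (pow_le_pow_left₀ (by positivity) g4 2).trans (g6.trans (mul_le_mul_of_nonneg_right
    ((den_sq y).trans (mul_le_mul_of_nonneg_left (Real.exp_le_exp.2 e4) (by positivity)))
    (Nat.cast_nonneg _)))
  refine le_of_mul_le_mul_left (le_trans (le_of_eq ?_) g7) (by positivity)
  rw [Real.exp_neg]
  field_simp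

/-- Clipping a vector with many nonzero coordinates. -/
lemma clip (v : Fin d → ℝ) {δ : ℝ} (hδ : 0 < δ)
    (hs : 1 / δ ^ 2 ≤ (univ.filter fun k => v k ≠ 0).card) :
    ∃ (ρ : ℝ) (φ r : Fin d → ℝ), 0 < ρ ∧ (∀ k, ρ * v k = φ k + r k) ∧ ∑ k, φ k ^ 2 = 1 ∧
      (∀ k, |φ k| ≤ δ) ∧ ∀ k, r k ≠ 0 → (φ k = δ ∧ 0 < r k) ∨ (φ k = -δ ∧ r k < 0) := by
  have hc : Continuous fun μ : ℝ => ∑ k, max (-1) (min (μ * v k) 1) ^ 2 := by fun_prop
  have h0 : 0 ≤ ∑ k, |v k|⁻¹ := sum_nonneg fun k _ => by positivity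
  obtain ⟨μ, hμ, h1⟩ := intermediate_value_Icc h0 hc.continuousOn (show 1 / δ ^ 2 ∈ _ from
    ⟨by simp [sq_nonneg], hs.trans (by
      rw [← sum_boole]
      refine sum_le_sum fun k _ => ?_
      split_ifs with h
      · have a1 : |v k|⁻¹ ≤ ∑ k, |v k|⁻¹ :=
          single_le_sum (f := fun k => |v k|⁻¹) (fun k _ => by positivity) (mem_univ k)
        rw [inv_le_iff_one_le_mul₀ (abs_pos.2 h)] at a1
        rcases abs_cases (v k) with ⟨b, -⟩ | ⟨b, -⟩ <;> rw [b] at a1
        · rw [min_eq_right a1]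
          norm_num
        · rw [max_eq_left (min_le_of_left_le (by linarith))]
          norm_num
      · positivity)⟩)
  have hμ0 : 0 < μ := hμ.1.lt_of_ne fun h => by
    rw [← h] at h1
    simp [hδ.ne', eq_comm] at h1
  refine ⟨δ * μ, fun k => δ * max (-1) (min (μ * v k) 1),
    fun k => δ * (μ * v k - max (-1) (min (μ * v k) 1)), by positivity, fun k => by ring, ?_,
    fun k => ?_, fun k hk => ?_⟩
  · simp only at h1
    simp only [mul_pow, ← mul_sum, h1]
    field_simp
  · rw [abs_mul, abs_of_pos hδ]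
    exact mul_le_of_le_one_right hδ.le
      (abs_le.2 ⟨le_max_left _ _, max_le (by norm_num) (min_le_right _ _)⟩)
  · dsimp only at hk ⊢
    rcases lt_or_ge 1 (μ * v k) with h | h
    · rw [min_eq_right h.le, max_eq_right (by norm_num)]
      exact Or.inl ⟨mul_one _, mul_pos hδ (by linarith)⟩
    · rw [min_eq_left h] at hk ⊢
      rcases lt_or_ge (μ * v k) (-1) with h' | h'
      · rw [max_eq_left h'.le]
        exact Or.inr ⟨mul_neg_one _, mul_neg_of_pos_of_neg hδ (by linarith)⟩
      · rw [max_eq_right h', sub_self, mul_zero] at hk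
        exact absurd rfl hk

/-- A sign pattern that agrees with many sparse vectors. -/
lemma align {W : Type} (A : Finset W) (a : W → Fin d → ℝ) (h : ℕ)
    (ha : ∀ i ∈ A, (univ.filter fun k => a i k ≠ 0).card ≤ h) :
    ∃ o : Fin d → Bool,
      (1 / 2 : ℝ) ^ h * A.card ≤ (A.filter fun i => ∀ k, 0 ≤ fl o (a i) k).card := by
  have h1 : ∀ i ∈ A, 2 ^ d * (1 / 2 : ℝ) ^ h ≤
      ∑ o : Fin d → Bool, if ∀ k, 0 ≤ fl o (a i) k then 1 else 0 := by
    intro i hi
    have e : ∀ o : Fin d → Bool, (if ∀ k, 0 ≤ fl o (a i) k then (1 : ℝ) else 0) =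
        ∏ k, if 0 ≤ (if o k = true then a i k else -a i k) then 1 else 0 := fun o => by
      rw [prod_boole]
      simp [fl]
    simp only [e]
    rw [sum_cube fun k b => if 0 ≤ (if b = true then a i k else -a i k) then (1 : ℝ) else 0]
    calc _ ≤ 2 ^ d * (1 / 2 : ℝ) ^ (univ.filter fun k => a i k ≠ 0).card :=
          mul_le_mul_of_nonneg_left (pow_le_pow_of_le_one (by norm_num) (by norm_num) (ha i hi))
            (by positivity)
      _ = ∏ k, (2 * if a i k ≠ 0 then (1 / 2 : ℝ) else 1) := by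
          rw [prod_mul_distrib, ← prod_filter]
          simp
      _ ≤ _ := prod_le_prod (fun k _ => by positivity) fun k _ => by
          rcases lt_trichotomy (a i k) 0 with b | b | b
          · simp [b.ne, b.le, b.not_ge]
          · simp [b, one_add_one_eq_two]
          · simp [b.ne', b.le, b.not_ge]
  have h2 := sum_le_sum h1
  rw [sum_comm] at h2
  obtain ⟨o, -, ho⟩ := exists_le_of_sum_le (f := fun _ => (1 / 2 : ℝ) ^ h * A.card)
    (univ_nonempty (α := Fin d → Bool)) (le_trans (le_of_eq (by simp; ring)) h2)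
  exact ⟨o, by rwa [sum_boole] at ho⟩

end Pool.Agent.MP_3a192b_co.HS
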