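import Pool.Agent.MP_3a192b_co.HsD
import Pool.Agent.MP_3a192b_co.HsF
import Pool.Agent.MP_3a192b_co.CubeDefs
import Pool.Agent.MP_3a192b_co.Upper

/-! The upper bound for families of linear threshold sets in the discrete cube. -/

namespace Pool.Agent.MP_3a192b_co.HS

open Finset

variable {d : ℕ}

lemma ltf_eq (v : Fin d → ℝ) (s : ℝ) : ltf v s = univ.filter fun x => s < sg x v := rfl

lemma ltf_inter (v v' : Fin d → ℝ) (s s' : ℝ) :
    ltf v s ∩ ltf v' s' = univ.filter fun x => s < sg x v ∧ s' < sg x v' := (filter_and _ _ _).symm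

lemma ltf_scale {v φ r : Fin d → ℝ} {ρ : ℝ} (hρ : 0 < ρ) (h : ∀ k, ρ * v k = φ k + r k) (s : ℝ) :
    ltf v s = ltf (fun k => φ k + r k) (ρ * s) := by
  refine filter_congr fun x _ => ?_
  rw [← mul_lt_mul_iff_right₀ hρ, mul_sum]
  refine iff_of_eq (congrArg _ (sum_congr rfl fun k _ => ?_))
  split_ifs
  · exact h k
  · rw [mul_neg, h k]

lemma card_ltf_fl (e : Fin d → Bool) (v : Fin d → ℝ) (s : ℝ) :
    (ltf (fl e v) s).card = (ltf v s).card := by
  classical
  rw [ltf_eq, ltf_eq]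
  convert card_flip e fun f => s < f v

lemma card_inter_fl (e : Fin d → Bool) (v v' : Fin d → ℝ) (s s' : ℝ) :
    (ltf (fl e v) s ∩ ltf (fl e v') s').card = (ltf v s ∩ ltf v' s').card := by
  classical
  rw [ltf_inter, ltf_inter]
  convert card_flip e fun f => s < f v ∧ s' < f v'

lemma pair {φ φ' r r' : Fin d → ℝ} {s s' c t σ δ β : ℝ} {o : Fin d → Bool}
    (hr : ∀ k, 0 ≤ fl o r k) (hr' : ∀ k, 0 ≤ fl o r' k)
    (hw : ∀ k, r k ≠ 0 → (φ k = δ ∧ 0 < r k) ∨ (φ k = -δ ∧ r k < 0))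
    (hw' : ∀ k, r' k ≠ 0 → (φ' k = δ ∧ 0 < r' k) ∨ (φ' k = -δ ∧ r' k < 0))
    (h1 : ∑ k, φ k ^ 2 = 1) (h1' : ∑ k, φ' k ^ 2 = 1) (hδ : ∀ k, |φ k| ≤ δ)
    (hδ' : ∀ k, |φ' k| ≤ δ) (hδ1 : δ ≤ 1) (hβ : 0 < β) (hβδ : 2 * σ * δ ≤ β ^ 2)
    (hn : β ^ 2 < ∑ k, (φ k + φ' k) ^ 2) (hc : 0 ≤ c) (ht0 : 0 ≤ t)
    (ht : Real.exp (-(t ^ 2 / 2)) ≤ c / 2) (hσ0 : 0 ≤ σ)
    (hσ : Real.exp (t + 1 - σ / 2) ≤ c ^ 2 / 16)
    (hA : c * 2 ^ d < (ltf (fun k => φ k + r k) s).card)
    (hA' : c * 2 ^ d < (ltf (fun k => φ' k + r' k) s').card) :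
    (c ^ 2 / 8) ^ 2 * Real.exp (-(σ ^ 2 / β ^ 2)) * 2 ^ d ≤
      (ltf (fun k => φ k + r k) s ∩ ltf (fun k => φ' k + r' k) s').card := by
  obtain ⟨e, he⟩ : ∃ e : Fin d → Bool, ∀ k,
      0 ≤ fl e r k ∧ 0 ≤ fl e r' k ∧ 0 ≤ fl e φ k + fl e φ' k := by
    refine Classical.skolem (p := fun k (b : Bool) => 0 ≤ (if b = true then r k else -r k) ∧
      0 ≤ (if b = true then r' k else -r' k) ∧
      0 ≤ (if b = true then φ k else -φ k) + if b = true then φ' k else -φ' k) |>.1 fun k => ?_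
    have a1 := abs_le.1 (hδ k)
    have a2 := abs_le.1 (hδ' k)
    have a3 := hr k
    have a4 := hr' k
    unfold fl at a3 a4
    by_cases b1 : r k = 0
    · by_cases b2 : r' k = 0
      · rcases le_total 0 (φ k + φ' k) with b | b
        · exact ⟨true, by simp [b1, b2, b]⟩
        · exact ⟨false, by simp [b1], by simp [b2], by
            simp only [Bool.false_eq_true, if_false]; linarith⟩
      · refine ⟨o k, a3, a4, ?_⟩
        rcases hw' k b2 with b | b <;> split_ifs at a4 ⊢ <;> linarith [b.1, b.2]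
    · refine ⟨o k, a3, a4, ?_⟩
      rcases hw k b1 with b | b <;> split_ifs at a3 ⊢ <;> linarith [b.1, b.2]
  have f1 : ∀ a b : Fin d → ℝ, fl e (fun k => a k + b k) = fun k => fl e a k + fl e b k :=
    fun a b => funext fun k => by unfold fl; split_ifs <;> ring
  have f2 : ∀ (a : Fin d → ℝ) k, fl e a k ^ 2 = a k ^ 2 := fun a k => by
    unfold fl; split_ifs <;> ring
  have f3 : ∀ (a : Fin d → ℝ) k, |fl e a k| = |a k| := fun a k => by
    unfold fl; split_ifs <;> simp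
  rw [← card_ltf_fl e, f1] at hA hA'
  rw [← card_inter_fl e, f1, f1, ltf_inter]
  refine pair_pos (fun k => (he k).1) (fun k => (he k).2.1) (fun k => (he k).2.2)
    (by simp only [f2, h1]) (by simp only [f2, h1']) (by simpa only [f3] using hδ)
    (by simpa only [f3] using hδ') hδ1 hβ hβδ (hn.trans_eq (sum_congr rfl fun k _ => ?_)) hc ht0 ht
    hσ0 hσ hA hA'
  rw [← f2 (fun k => φ k + φ' k) k, f1]

/-- The combinatorial relation that forces a large intersection. -/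
def Rel {m : ℕ} (big : Fin m → Prop) (a : Fin m → Fin d → ℝ)
    (φ : Fin m → EuclideanSpace ℝ (Fin d)) (β : ℝ) (i j : Fin m) : Prop :=
  (∃ o, (∀ k, 0 ≤ fl o (a i) k) ∧ ∀ k, 0 ≤ fl o (a j) k) ∧
    ((¬ big i ∧ ¬ big j) ∨ (big i ∧ big j ∧ β < ‖φ i + φ j‖))

lemma rel_indep {m T h : ℕ} {big : Fin m → Prop} {a : Fin m → Fin d → ℝ}
    {φ : Fin m → EuclideanSpace ℝ (Fin d)} {β γ : ℝ} (hφ : ∀ i, big i → ‖φ i‖ = 1)
    (ha : ∀ i, (univ.filter fun k => a i k ≠ 0).card ≤ h) (hβ : 0 < β) (hT : 0 < T)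
    (h3 : 3 * β ^ 2 * T ≤ 1) (hγ : 242 * β ^ 2 ≤ γ * Real.log (T + 1)) (hγ0 : 0 ≤ γ) (hγ1 : γ ≤ 1)
    (A : Finset (Fin m)) (hne : A.Nonempty) :
    ∃ W ⊆ A, (∀ i ∈ W, ∀ j ∈ W, Rel big a φ β i j) ∧
      Real.exp (-153) / 8 * ((1 / 2) ^ h / 2) * (A.card : ℝ) ^ (1 - γ) ≤ W.card := by
  classical
  obtain ⟨o, ho⟩ := align A a h fun i _ => ha i
  set U := A.filter fun i => ∀ k, 0 ≤ fl o (a i) k with hU
  have hsplit := card_filter_add_card_filter_not (s := U) big
  set κ : ℝ := (1 / 2) ^ h / 2 with hκ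
  have hκ0 : 0 < κ := by positivity
  have hκ1 : κ ≤ 1 := by
    have : (1 / 2 : ℝ) ^ h ≤ 1 := pow_le_one₀ (by norm_num) (by norm_num)
    linarith
  have hA1 : (1 : ℝ) ≤ A.card := by exact_mod_cast hne.card_pos
  have he : Real.exp (-153) ≤ 1 := Real.exp_le_one_iff.2 (by norm_num)
  by_cases hcase : κ * A.card ≤ (U.filter fun i => ¬ big i).card
  · refine ⟨U.filter fun i => ¬ big i, (filter_subset _ _).trans (filter_subset _ _),
      fun i hi j hj => ⟨⟨o, (mem_filter.1 (mem_filter.1 hi).1).2,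
        (mem_filter.1 (mem_filter.1 hj).1).2⟩, Or.inl ⟨(mem_filter.1 hi).2, (mem_filter.1 hj).2⟩⟩,
      le_trans ?_ hcase⟩
    have a1 : (A.card : ℝ) ^ (1 - γ) ≤ A.card := by
      simpa using Real.rpow_le_rpow_of_exponent_le hA1 (show 1 - γ ≤ 1 by linarith)
    calc _ ≤ 1 * κ * A.card := by gcongr; linarith
      _ = _ := by ring
  · have hbig1 : κ * A.card ≤ (U.filter big).card := by
      have : ((U.filter big).card : ℝ) + (U.filter fun i => ¬ big i).card = U.card := by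
        exact_mod_cast hsplit
      have e : (1 / 2 : ℝ) ^ h * A.card = 2 * (κ * A.card) := by rw [hκ]; ring
      linarith [not_le.1 hcase]
    have hne1 : (U.filter big).Nonempty := by
      rw [← card_pos]
      exact_mod_cast lt_of_lt_of_le (by positivity : (0 : ℝ) < κ * A.card) hbig1
    have := hne1.to_subtype
    obtain ⟨F, hF, hcard⟩ := vec_indep (φ := fun u : U.filter big => φ u)
      (fun u => hφ u (mem_filter.1 u.2).2) hβ hT h3 hγ hγ0 hγ1
    refine ⟨F.map (Function.Embedding.subtype _), fun i hi => ?_, fun i hi j hj => ?_, ?_⟩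
    · obtain ⟨u, -, rfl⟩ := mem_map.1 hi
      exact (mem_filter.1 (mem_filter.1 u.2).1).1
    · obtain ⟨u, hu, rfl⟩ := mem_map.1 hi
      obtain ⟨u', hu', rfl⟩ := mem_map.1 hj
      exact ⟨⟨o, (mem_filter.1 (mem_filter.1 u.2).1).2, (mem_filter.1 (mem_filter.1 u'.2).1).2⟩,
        Or.inr ⟨(mem_filter.1 u.2).2, (mem_filter.1 u'.2).2, hF u hu u' hu'⟩⟩
    · rw [card_map]
      refine le_trans ?_ hcard
      rw [Fintype.card_coe, mul_assoc]
      refine mul_le_mul_of_nonneg_left (le_trans ?_ (Real.rpow_le_rpow (by positivity) hbig1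
        (by linarith))) (by positivity)
      rw [Real.mul_rpow hκ0.le (by positivity)]
      refine mul_le_mul_of_nonneg_right ?_ (by positivity)
      simpa using Real.rpow_le_rpow_of_exponent_ge hκ0 hκ1 (show 1 - γ ≤ 1 by linarith)

lemma card_small_sum {R : ℝ} (hR : 0 < R) (B : ℕ) :
    (((Fintype.piFinset fun _ : Fin d => range B).filter
      fun n => ∑ k, (n k : ℝ) ≤ R * d).card : ℝ) ≤ (Real.exp 1 * (R + 1)) ^ d := by
  have h1 : Real.exp (-(1 / R)) ≤ R / (R + 1) := by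
    rw [Real.exp_neg, inv_le_comm₀ (Real.exp_pos _) (by positivity), inv_div, add_div,
      div_self hR.ne', add_comm]
    exact Real.add_one_le_exp _
  have h2 : ∑ j ∈ range B, Real.exp (-(1 / R)) ^ j ≤ R + 1 := by
    have h3 : R / (R + 1) < 1 := (div_lt_one (by positivity)).2 (lt_add_one R)
    calc _ ≤ ∑ j ∈ range B, (R / (R + 1)) ^ j := by gcongr
      _ ≤ _ := (summable_geometric_of_lt_one (by positivity) h3).sum_le_tsum _
          fun _ _ => by positivity
      _ = _ := by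
          rw [tsum_geometric_of_lt_one (by positivity) h3]
          field_simp
          ring
  calc _ ≤ ∑ n ∈ Fintype.piFinset fun _ : Fin d => range B,
        Real.exp 1 ^ d * ∏ k, Real.exp (-(1 / R)) ^ n k := by
        rw [← sum_boole]
        refine sum_le_sum fun n _ => ?_
        split_ifs with h
        · simp only [← Real.exp_nat_mul]
          rw [← Real.exp_sum, ← Real.exp_add, ← sum_mul]
          refine Real.one_le_exp ?_
          rw [mul_neg, mul_one_div, mul_one, ← sub_eq_add_neg, sub_nonneg, div_le_iff₀' hR]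
          exact h
        · positivity
    _ = Real.exp 1 ^ d * ∏ _k : Fin d, ∑ j ∈ range B, Real.exp (-(1 / R)) ^ j := by
        rw [← mul_sum, prod_univ_sum]
    _ ≤ _ := by
        rw [prod_const, card_univ, Fintype.card_fin, mul_pow]
        gcongr

/-- Few representatives suffice. -/
lemma exists_rep {m : ℕ} (big : Fin m → Prop) (a : Fin m → Fin d → ℝ)
    (φ : Fin m → EuclideanSpace ℝ (Fin d)) {β : ℝ} (hβ : 0 < β) (hφ : ∀ i, ‖φ i‖ ≤ 1) :
    ∃ ρ : Fin m → Fin m, ((univ.image ρ).card : ℝ) ≤ 2 * (6 * (Real.exp 1 * (1 / β + 1))) ^ d ∧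
      ∀ i j, Rel big a φ (3 * β) (ρ i) (ρ j) → Rel big a φ β i j := by
  classical
  let τ : Fin m → Bool × (Fin d → SignType) × (Fin d → Bool) × (Fin d → ℕ) := fun i =>
    (decide (big i), fun k => SignType.sign (a i k), fun k => decide (0 ≤ φ i k),
      fun k => ⌊|φ i k| * (√d / β)⌋₊)
  have hex : ∀ i, ∃ j, τ j = τ i := fun i => ⟨i, rfl⟩
  let g : ∀ p, (∃ j, τ j = p) → Fin m := fun p h => h.choose
  have hg : ∀ i, τ (g _ (hex i)) = τ i := fun i => (hex i).choose_spec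
  refine ⟨fun i => g _ (hex i), ?_, ?_⟩
  · have h1 : (univ.image fun i => g _ (hex i)).card ≤ (univ ×ˢ univ ×ˢ univ ×ˢ
        ((Fintype.piFinset fun _ : Fin d => range (⌊√d / β⌋₊ + 1)).filter
          fun n => ∑ k, (n k : ℝ) ≤ 1 / β * d) :
        Finset (Bool × (Fin d → SignType) × (Fin d → Bool) × (Fin d → ℕ))).card := by
      refine card_le_card_of_injOn τ (fun i _ => ?_) fun i hi j hj h => ?_
      · simp only [τ, coe_product, Set.mem_prod, mem_coe, mem_univ, true_and, mem_filter,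
          Fintype.mem_piFinset, mem_range]
        refine ⟨fun k => Nat.lt_succ_of_le (Nat.floor_le_floor (mul_le_of_le_one_left
          (by positivity) ((PiLp.norm_apply_le (φ i) k).trans (hφ i)))), ?_⟩
        have a1 : ∑ k, |φ i k| ≤ √d := by
          refine Real.le_sqrt_of_sq_le (sq_sum_le_card_mul_sum_sq.trans ?_)
          simp only [sq_abs, card_univ, Fintype.card_fin]
          rw [← EuclideanSpace.real_norm_sq_eq]
          exact mul_le_of_le_one_right (by positivity) (pow_le_one₀ (norm_nonneg _) (hφ i))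
        calc _ ≤ ∑ k, |φ i k| * (√d / β) := sum_le_sum fun k _ => Nat.floor_le (by positivity)
          _ ≤ √d * (√d / β) := by rw [← sum_mul]; gcongr
          _ = _ := by rw [← mul_div_assoc, Real.mul_self_sqrt (by positivity)]; ring
      · obtain ⟨i', -, rfl⟩ := mem_image.1 hi
        obtain ⟨j', -, rfl⟩ := mem_image.1 hj
        rw [hg, hg] at h
        simp only [h]
    have h2 := (Nat.cast_le (α := ℝ)).2 h1
    have h3 : Fintype.card SignType = 3 := rfl
    simp only [card_product, card_univ, Fintype.card_bool, Fintype.card_fun, Fintype.card_fin,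
      h3] at h2
    push_cast at h2
    refine h2.trans ?_
    rw [mul_pow, show (6 : ℝ) = 3 * 2 by norm_num, mul_pow, mul_assoc]
    gcongr
    exact card_small_sum (by positivity) _
  · have h1 : ∀ i j, τ i = τ j → (big i ↔ big j) ∧ (∀ o k, 0 ≤ fl o (a i) k → 0 ≤ fl o (a j) k) ∧
        ‖φ i - φ j‖ ≤ β := by
      intro i j h
      simp only [τ, Prod.mk.injEq, decide_eq_decide, funext_iff] at h
      refine ⟨h.1, fun o k => ?_, ?_⟩
      · unfold fl
        split_ifs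
        · rw [← sign_nonneg_iff, ← sign_nonneg_iff (a := a j k), h.2.1 k]
          exact id
        · rw [neg_nonneg, neg_nonneg, ← sign_nonpos_iff, ← sign_nonpos_iff (a := a j k), h.2.1 k]
          exact id
      · refine (sq_le_sq₀ (norm_nonneg _) hβ.le).1 ?_
        rw [EuclideanSpace.real_norm_sq_eq]
        rcases Nat.eq_zero_or_pos d with rfl | hd
        · simpa using sq_nonneg β
        have hd' : (0 : ℝ) < d := by exact_mod_cast hd
        have a1 : ∀ k, (φ i k - φ j k) ^ 2 ≤ β ^ 2 / d := fun k => by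
          have b1 := Nat.floor_le (show 0 ≤ |φ i k| * (√d / β) by positivity)
          have b2 := Nat.floor_le (show 0 ≤ |φ j k| * (√d / β) by positivity)
          have b3 := Nat.lt_floor_add_one (|φ i k| * (√d / β))
          have b4 := Nat.lt_floor_add_one (|φ j k| * (√d / β))
          rw [h.2.2.2 k] at b1 b3
          have b5 : ((|φ i k| - |φ j k|) * (√d / β)) ^ 2 ≤ 1 := by
            rw [sq_le_one_iff_abs_le_one, abs_le, sub_mul]
            constructor <;> linarith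
          have b6 : (|φ i k| - |φ j k|) ^ 2 = (φ i k - φ j k) ^ 2 := by
            by_cases b : 0 ≤ φ i k
            · rw [abs_of_nonneg b, abs_of_nonneg ((h.2.2.1 k).1 b)]
            · rw [abs_of_neg (not_le.1 b), abs_of_neg (not_le.1 fun b' => b ((h.2.2.1 k).2 b'))]
              ring
          rw [mul_pow, b6, div_pow, Real.sq_sqrt hd'.le, ← mul_div_assoc,
            div_le_one (by positivity)] at b5
          rwa [le_div_iff₀ hd']
        calc _ ≤ ∑ _k : Fin d, β ^ 2 / d := sum_le_sum fun k _ => a1 k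
          _ = _ := by
            rw [sum_const, card_univ, Fintype.card_fin, nsmul_eq_mul]
            field_simp
    rintro i j ⟨⟨o, o1, o2⟩, h⟩
    obtain ⟨a1, a2, a3⟩ := h1 _ _ (hg i)
    obtain ⟨b1, b2, b3⟩ := h1 _ _ (hg j)
    refine ⟨⟨o, fun k => a2 o k (o1 k), fun k => b2 o k (o2 k)⟩, ?_⟩
    rw [← a1, ← b1]
    refine h.imp_right fun h => ⟨h.1, h.2.1, ?_⟩
    have c1 := norm_add₃_le (a := φ i + φ j) (b := φ (g _ (hex i)) - φ i)
      (c := φ (g _ (hex j)) - φ j)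
    rw [show φ i + φ j + (φ (g _ (hex i)) - φ i) + (φ (g _ (hex j)) - φ j) =
      φ (g _ (hex i)) + φ (g _ (hex j)) by abel] at c1
    linarith [h.2.2]

lemma cubeGraph_adj {m : ℕ} (ε : ℝ) (v : Fin m → Fin d → ℝ) (s : Fin m → ℝ) (i j : Fin m) :
    (cubeGraph ε v s).Adj i j ↔
      i ≠ j ∧ ((ltf (v i) (s i) ∩ ltf (v j) (s j)).card : ℝ) < ε * 2 ^ d := by
  unfold cubeGraph
  rw [SimpleGraph.fromRel_adj, inter_comm (ltf (v j) (s j)), or_self]

lemma bdd_cube (d m : ℕ) (c ε : ℝ) :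
    BddAbove {k : ℕ | ∃ (v : Fin m → Fin d → ℝ) (s : Fin m → ℝ),
      (∀ i, c * 2 ^ d < ((ltf (v i) (s i)).card : ℝ)) ∧
        (cubeGraph ε v s).chromaticNumber = (k : ℕ∞)} := by
  refine ⟨m, ?_⟩
  rintro k ⟨v, s, -, hk⟩
  have := (cubeGraph ε v s).chromaticNumber_le_card
  rw [hk, Fintype.card_fin] at this
  exact_mod_cast this

lemma chiCube_le {T : ℕ} {c ε t σ δ β γ : ℝ} (hδ0 : 0 < δ) (hδ1 : δ ≤ 1) (hβ : 0 < β)
    (hβδ : 2 * σ * δ ≤ β ^ 2) (hc : 0 ≤ c) (ht0 : 0 ≤ t) (ht : Real.exp (-(t ^ 2 / 2)) ≤ c / 2)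
    (hσ0 : 0 ≤ σ) (hσ : Real.exp (t + 1 - σ / 2) ≤ c ^ 2 / 16) (hε : ε ≤ c ^ 2)
    (hε' : ε ≤ (c ^ 2 / 8) ^ 2 * Real.exp (-(σ ^ 2 / β ^ 2))) (hT : 0 < T)
    (h3 : 3 * (3 * β) ^ 2 * T ≤ 1) (hγ : 242 * (3 * β) ^ 2 ≤ γ * Real.log (T + 1)) (hγ0 : 0 < γ)
    (hγ1 : γ ≤ 1) (d m : ℕ) : (chiCube d m c ε : ℝ) ≤
      1 / (Real.exp (-153) / 8 * ((1 / 2) ^ ⌊1 / δ ^ 2⌋₊ / 2) * γ) *
        (min (m : ℝ) (2 * (6 * (Real.exp 1 * (1 / β + 1))) ^ d)) ^ γ := by
  classical
  unfold chiCube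
  set S := {k : ℕ | ∃ (v : Fin m → Fin d → ℝ) (s : Fin m → ℝ),
    (∀ i, c * 2 ^ d < ((ltf (v i) (s i)).card : ℝ)) ∧
      (cubeGraph ε v s).chromaticNumber = (k : ℕ∞)} with hS
  rcases S.eq_empty_or_nonempty with h0 | h0
  · rw [h0, csSup_empty, Nat.bot_eq_zero, Nat.cast_zero]
    positivity
  obtain ⟨v, s, hv, hk⟩ := Nat.sSup_mem h0 (bdd_cube d m c ε)
  have hd : ∀ i, ∃ (ρ : ℝ) (φ r : Fin d → ℝ), ∑ k, φ k ^ 2 ≤ 1 ∧
      (1 / δ ^ 2 ≤ (univ.filter fun k => v i k ≠ 0).card →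
      0 < ρ ∧ (∀ k, ρ * v i k = φ k + r k) ∧ ∑ k, φ k ^ 2 = 1 ∧ (∀ k, |φ k| ≤ δ) ∧
        ∀ k, r k ≠ 0 → (φ k = δ ∧ 0 < r k) ∨ (φ k = -δ ∧ r k < 0)) := fun i => by
    by_cases h : 1 / δ ^ 2 ≤ (univ.filter fun k => v i k ≠ 0).card
    · obtain ⟨ρ, φ, r, h⟩ := clip (v i) hδ0 h
      exact ⟨ρ, φ, r, h.2.2.1.le, fun _ => h⟩
    · exact ⟨0, 0, 0, by simp, fun h' => absurd h' h⟩
  choose ρ φ r hφ hd using hd
  set big : Fin m → Prop := fun i => 1 / δ ^ 2 ≤ (univ.filter fun k => v i k ≠ 0).card with hbig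
  obtain ⟨π, hπ1, hπ2⟩ := exists_rep big (fun i => if big i then r i else v i)
    (fun i => WithLp.toLp 2 (φ i)) hβ fun i => by
      rw [← sq_le_one_iff₀ (norm_nonneg _), EuclideanSpace.real_norm_sq_eq]
      exact hφ i
  obtain ⟨k, f, hk1, hf1, hf2⟩ := exists_colouring
    (Rel big (fun i => if big i then r i else v i) (fun i => WithLp.toLp 2 (φ i)) (3 * β))
    (fun _ => True) (by positivity) hγ0 hγ1 (fun A hne _ => rel_indep (h := ⌊1 / δ ^ 2⌋₊)
      (fun i hi => by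
        rw [← sq_eq_sq₀ (norm_nonneg _) zero_le_one, EuclideanSpace.real_norm_sq_eq, one_pow]
        exact (hd i hi).2.2.1)
      (fun i => by
        refine Nat.le_floor ?_
        by_cases h : big i
        · obtain ⟨-, -, a1, -, a2⟩ := hd i h
          rw [if_pos h, le_div_iff₀ (by positivity), ← a1, ← nsmul_eq_mul, ← sum_const]
          refine le_trans (sum_le_sum fun k hk => ?_) (sum_le_sum_of_subset_of_nonneg
            (subset_univ _) fun k _ _ => sq_nonneg _)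
          rcases a2 k (mem_filter.1 hk).2 with b | b <;> simp [b.1]
        · rw [if_neg h]
          exact (not_le.1 h).le)
      (by positivity) hT h3 hγ hγ0.le hγ1 A hne) (univ.image π) fun _ _ => trivial
  have hcol : (cubeGraph ε v s).Colorable k := by
    rw [SimpleGraph.colorable_iff_exists_bdd_nat_coloring]
    refine ⟨SimpleGraph.Coloring.mk (fun i => f (π i)) fun {i j} hij he => ?_,
      fun i => hf1 _ (mem_image_of_mem _ (mem_univ _))⟩
    rw [cubeGraph_adj] at hij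
    obtain ⟨⟨o, a1, a2⟩, h⟩ := hπ2 i j
      (hf2 _ (mem_image_of_mem _ (mem_univ i)) _ (mem_image_of_mem _ (mem_univ j)) he)
    refine not_le.2 hij.2 ?_
    rcases h with ⟨hi, hj⟩ | ⟨hi, hj, h⟩
    · simp only [if_neg hi] at a1
      simp only [if_neg hj] at a2
      have a3 := harris_sets a1 a2 hc (s := s i) (s' := s j)
        ((hv i).le.trans_eq (by rw [← card_ltf_fl o]; rfl))
        ((hv j).le.trans_eq (by rw [← card_ltf_fl o]; rfl))
      simp only [ite_zero_mul_ite_zero, mul_one, sum_boole] at a3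
      rw [← card_inter_fl o, ltf_inter]
      exact (mul_le_mul_of_nonneg_right hε (by positivity)).trans a3
    · simp only [if_pos hi] at a1
      simp only [if_pos hj] at a2
      obtain ⟨b1, b2, b3, b4, b5⟩ := hd i hi
      obtain ⟨c1, c2, c3, c4, c5⟩ := hd j hj
      have d1 := pow_lt_pow_left₀ h hβ.le two_ne_zero
      rw [EuclideanSpace.real_norm_sq_eq] at d1
      have d2 := hv i
      have d3 := hv j
      rw [ltf_scale b1 b2] at d2 ⊢
      rw [ltf_scale c1 c2] at d3 ⊢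
      exact (mul_le_mul_of_nonneg_right hε' (by positivity)).trans
        (pair a1 a2 b5 c5 b3 c3 b4 c4 hδ1 hβ hβδ d1 hc ht0 ht hσ0 hσ d2 d3)
  have h1 := hcol.chromaticNumber_le
  rw [hk] at h1
  have h2 : sSup S ≤ k := by exact_mod_cast h1
  refine le_trans (by exact_mod_cast h2) (hk1.trans ?_)
  gcongr
  refine le_min ?_ hπ1
  exact_mod_cast card_image_le.trans_eq (by simp)

end Pool.Agent.MP_3a192b_co.HS
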