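import Pool.Agent.MP_3a192b_co.HsG

/-! The lower bound for families of linear threshold sets and the two-sided estimate. -/

namespace Pool.Agent.MP_3a192b_co.HS

open Finset

lemma card_le_chiCube_mul {V : Type} {d m : ℕ} {c ε a t : ℝ} (U : Finset V) (hne : U.Nonempty)
    (hm : U.card ≤ m) (v : V → Fin d → ℝ) (hv : ∀ x ∈ U, c * 2 ^ d < ((ltf (v x) t).card : ℝ))
    (hind : ∀ W ⊆ U, (∀ x ∈ W, ∀ y ∈ W, x ≠ y →
      ε * 2 ^ d ≤ ((ltf (v x) t ∩ ltf (v y) t).card : ℝ)) → (W.card : ℝ) ≤ a) :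
    (U.card : ℝ) ≤ chiCube d m c ε * a := by
  classical
  obtain ⟨σ⟩ : Nonempty (U ↪ Fin m) :=
    Function.Embedding.nonempty_of_card_le (by simpa using hm)
  have : Nonempty U := hne.to_subtype
  let π : Fin m → U := Function.invFun σ
  have hπ : ∀ x, π (σ x) = x := Function.leftInverse_invFun σ.injective
  have h1 := (cubeGraph ε (fun i => v (π i)) fun _ => t).colorable_chromaticNumber_of_fintype
  obtain ⟨C⟩ : (cubeGraph ε (fun i => v (π i)) fun _ => t).Colorable (chiCube d m c ε) :=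
    h1.mono (le_csSup (bdd_cube d m c ε) ⟨_, _, fun i => hv _ (π i).2,
      (ENat.natCast_toNat (SimpleGraph.chromaticNumber_ne_top_iff_exists.2 ⟨_, h1⟩)).symm⟩)
  set k := chiCube d m c ε with hk
  let W : Fin k → Finset V := fun j =>
    (Finset.univ.filter fun x : U => C (σ x) = j).map (Function.Embedding.subtype _)
  have hW : ∀ j, ((W j).card : ℝ) ≤ a := by
    intro j
    refine hind _ ?_ ?_
    · intro x hx
      obtain ⟨w, -, rfl⟩ := mem_map.1 hx
      exact w.2
    · intro x hx y hy hxy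
      obtain ⟨x', hx', rfl⟩ := mem_map.1 hx
      obtain ⟨y', hy', rfl⟩ := mem_map.1 hy
      by_contra hlt
      refine C.valid ((cubeGraph_adj _ _ _ (σ x') (σ y')).2
        ⟨fun h => hxy (by rw [σ.injective h]), ?_⟩)
        (((mem_filter.1 hx').2).trans ((mem_filter.1 hy').2).symm)
      simp only [hπ]
      exact not_le.1 hlt
  have hcard : U.card = ∑ j : Fin k, (W j).card := by
    simp only [W, card_map]
    rw [← card_eq_sum_card_fiberwise (f := fun x : U => C (σ x)) (s := Finset.univ)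
      (t := Finset.univ) (fun _ _ => mem_coe.2 (mem_univ _))]
    simp
  calc (U.card : ℝ) = ∑ j : Fin k, ((W j).card : ℝ) := by rw [hcard]; push_cast; rfl
    _ ≤ ∑ _j : Fin k, a := Finset.sum_le_sum fun j _ => hW j
    _ = k * a := by simp

lemma one_le_chiCube {c ε : ℝ} (hc : c < 1) (d : ℕ) {m : ℕ} (hm : 1 ≤ m) :
    (1 : ℝ) ≤ chiCube d m c ε := by
  have h := card_le_chiCube_mul (c := c) (ε := ε) (a := 1) (t := -1) (m := m) (d := d) {()}
    (singleton_nonempty _) (by simpa using hm) (fun _ => 0) (fun _ _ => by simpa [ltf] using hc)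
    fun W hW _ => by exact_mod_cast card_le_card hW
  simpa using h

lemma card_tail {d : ℕ} (A : Finset (Fin d → Bool)) :
    ((univ.filter fun x : Fin (d + 1) → Bool => Fin.tail x ∈ A).card : ℝ) = 2 * A.card := by
  have h : (univ.filter fun x : Fin (d + 1) → Bool => Fin.tail x ∈ A).card =
      ((univ : Finset Bool) ×ˢ A).card :=
    (card_equiv (Fin.consEquiv fun _ => Bool) fun p => by simp [Fin.consEquiv]).symm
  rw [h, card_product]
  simp

lemma ltf_cons {d : ℕ} (v : Fin d → ℝ) (s : ℝ) :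
    ltf (Fin.cons 0 v) s = univ.filter fun x : Fin (d + 1) → Bool => Fin.tail x ∈ ltf v s := by
  ext x
  simp only [ltf, mem_filter, mem_univ, true_and, Fin.sum_univ_succ, Fin.cons_zero, neg_zero,
    ite_self, zero_add, Fin.cons_succ]
  rfl

lemma chiCube_mono (m : ℕ) (c ε : ℝ) : Monotone fun d => chiCube d m c ε := by
  refine monotone_nat_of_le_succ fun d => csSup_le_csSup' (bdd_cube _ m c ε) ?_
  rintro k ⟨v, s, hv, hk⟩
  refine ⟨fun i => Fin.cons 0 (v i), s, fun i => ?_, ?_⟩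
  · rw [ltf_cons, card_tail, pow_succ]
    linarith [hv i]
  · rw [← hk]
    congr 1
    ext i j
    rw [cubeGraph_adj, cubeGraph_adj, ltf_cons, ltf_cons, ← filter_and]
    simp only [← mem_inter]
    rw [card_tail, pow_succ]
    exact and_congr_right fun _ => ⟨fun h => by linarith, fun h => by linarith⟩

lemma le_chiCube {s ε θ : ℝ} (hs : 0 < s) (hε : 0 < ε) (hε1 : ε < 1) (hεs : ε ≤ 1 / 2 - s)
    (hθ : 0 < θ) (hθs : 256 * θ * Real.log (1 / ε) ≤ s ^ 2) {L d m : ℕ}
    (hθL : 6 ≤ θ * ((2 * L : ℕ) : ℝ) ^ 2) (hd : 16 ≤ s ^ 2 * d) (hm : (2 * L) ^ d ≤ m) :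
    Real.exp (θ * d / 48) / 2 ≤ chiCube d m (1 / 2 - s) ε := by
  classical
  have hL : 0 < L := by
    rcases Nat.eq_zero_or_pos L with h | h
    · rw [h] at hθL
      norm_num at hθL
    · exact h
  have hdR : (0 : ℝ) < d := by
    by_contra h
    have : (d : ℝ) = 0 := le_antisymm (not_lt.1 h) (by positivity)
    rw [this] at hd
    linarith
  have hd0 : 0 < d := by exact_mod_cast hdR
  have hLR : (0 : ℝ) < L := by exact_mod_cast hL
  have hsd : 0 < √(d : ℝ) := Real.sqrt_pos.2 hdR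
  have hsd2 : √(d : ℝ) ^ 2 = d := Real.sq_sqrt hdR.le
  have hsd4 : 4 ≤ s * √(d : ℝ) := by
    refine (pow_le_pow_iff_left₀ (by norm_num) (by positivity) two_ne_zero).1 ?_
    rw [mul_pow, hsd2]; linarith
  set K := 2 * L with hK
  have hK0 : 0 < K := by omega
  have hKR : (K : ℝ) = 2 * L := by rw [hK]; push_cast; ring
  have hKpos : (0 : ℝ) < K := by exact_mod_cast hK0
  set u : ℝ := s / 4 * L * √(d : ℝ) with hu
  have hu0 : 0 ≤ u := by positivity
  have h1 := small_sum_card hL hd0 hu0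
  have h2 : (u / L + 1) / √(d : ℝ) ≤ s / 2 := by
    rw [div_le_iff₀ hsd]
    have : u / L = s / 4 * √(d : ℝ) := by rw [hu]; field_simp
    rw [this]; linarith
  have h3 := exists_good (K := K) (d := d) (u := u) (τ := s / 2) (by positivity)
    (h1.trans (mul_le_mul_of_nonneg_right h2 (by positivity)))
  set U := Finset.univ.filter fun x : Fin d → Fin K =>
      ((Finset.univ.filter fun g : Fin d → Bool => |sg g fun i => zc (x i)| ≤ u).card : ℝ) ≤
        2 * (s / 2) * 2 ^ d with hU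
  have hne : U.Nonempty := by
    rw [← card_pos]
    exact_mod_cast lt_of_lt_of_le (by positivity : (0 : ℝ) < (K : ℝ) ^ d / 2) h3
  have h2d : (0 : ℝ) < 2 ^ d := by positivity
  have hA : ∀ x ∈ U, (1 / 2 - s) * 2 ^ d < ((ltf (fun i => zc (x i)) u).card : ℝ) := by
    intro x hx
    have c1 := (mem_filter.1 hx).2
    have c3 := (Nat.cast_le (α := ℝ)).2 (halfspace_card (fun i => zc (x i)) u)
    push_cast at c3
    rw [ltf_eq]
    linarith [mul_pos hs h2d]
  have hE : ∀ x y : Fin d → Fin K,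
      ∑ i, (((x i : ℕ) : ℝ) + (y i : ℕ) + 1 - K) ^ 2 ≤ θ * (K : ℝ) ^ 2 * d →
      ((ltf (fun i => zc (x i)) u ∩ ltf (fun i => zc (y i)) u).card : ℝ) < ε * 2 ^ d := by
    intro x y c1
    have c2 : ltf (fun i => zc (x i)) u ∩ ltf (fun i => zc (y i)) u ⊆
        Finset.univ.filter fun g : Fin d → Bool => 2 * u < sg g fun i => zc (x i) + zc (y i) := by
      intro g hg
      simp only [ltf_inter, mem_filter, mem_univ, true_and] at hg ⊢
      rw [sg_add]; linarith [hg.1, hg.2]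
    have c3 := tail_card (fun i => zc (x i) + zc (y i)) (v := 2 * u)
      (ρ := 4 * (θ * (K : ℝ) ^ 2 * d)) (by positivity) (by positivity) (by
        calc ∑ i, (zc (x i) + zc (y i)) ^ 2
            = 4 * ∑ i, (((x i : ℕ) : ℝ) + (y i : ℕ) + 1 - K) ^ 2 := by
              rw [Finset.mul_sum]
              refine Finset.sum_congr rfl fun i _ => ?_
              unfold zc; ring
          _ ≤ _ := by linarith)
    have c4 : Real.exp (-((2 * u) ^ 2 / (2 * (4 * (θ * (K : ℝ) ^ 2 * d))))) ≤ ε ^ 2 := by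
      have e : (2 * u) ^ 2 / (2 * (4 * (θ * (K : ℝ) ^ 2 * d))) = s ^ 2 / (128 * θ) := by
        rw [hu, hKR, mul_pow, mul_pow, hsd2]; field_simp; ring
      rw [e, ← Real.le_log_iff_exp_le (by positivity)]
      have e2 : Real.log (ε ^ 2) = -(2 * Real.log (1 / ε)) := by
        rw [Real.log_pow, one_div, Real.log_inv]; push_cast; ring
      rw [e2, neg_le_neg_iff, le_div_iff₀ (by positivity)]
      linarith
    calc _ ≤ _ := (Nat.cast_le (α := ℝ)).2 (card_le_card c2)
      _ ≤ _ := c3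
      _ ≤ ε ^ 2 * 2 ^ d := mul_le_mul_of_nonneg_right c4 h2d.le
      _ < _ := mul_lt_mul_of_pos_right (by nlinarith) h2d
  have h := card_le_chiCube_mul (c := 1 / 2 - s) (ε := ε) (t := u) (m := m)
    (a := (K : ℝ) ^ d * Real.exp (-(θ * d / 48))) U hne
    (le_trans (by simpa using card_le_univ U) hm) (fun x i => zc (x i)) hA
    fun W hW hind => grid_far hK0 d hθL W fun x hx y hy => by
      by_contra hc
      have c1 := hE x y (not_le.1 hc).le
      by_cases hxy : x = y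
      · subst hxy
        rw [inter_self] at c1
        linarith [hA x (hW hx), mul_le_mul_of_nonneg_right hεs h2d.le]
      · linarith [hind x hx y hy hxy]
  have hp : (0 : ℝ) < (K : ℝ) ^ d * Real.exp (-(θ * d / 48)) := by positivity
  refine le_of_mul_le_mul_right (le_trans (le_trans (le_of_eq ?_) h3) h) hp
  rw [Real.exp_neg]
  field_simp

lemma exp_neg_log {ε : ℝ} (hε : 0 < ε) : Real.exp (-Real.log (1 / ε)) = ε := by
  rw [one_div, Real.log_inv, neg_neg, Real.exp_log hε]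

lemma lower {s ε : ℝ} (hs : 0 < s) (hs1 : s ≤ 1 / 2) (hε : 0 < ε) (hεs : ε ≤ 1 / 2 - s)
    (hL : 4 + 6144 / s ^ 2 ≤ Real.log (1 / ε)) (D : ℕ) {m : ℕ} (hm : 1 ≤ m) :
    s ^ 2 / 12288 * (min (D : ℝ) (Real.log m / Real.log (Real.log (1 / ε))) / Real.log (1 / ε)) -
      2 ≤ Real.log (chiCube D m (1 / 2 - s) ε) := by
  have h1 := fun L d => le_chiCube (θ := s ^ 2 / (256 * Real.log (1 / ε))) (L := L) (d := d)
    (m := m) hs hε (by linarith) hεs
  set L := Real.log (1 / ε) with hLdef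
  have h0 : 0 < 6144 / s ^ 2 := by positivity
  have hs2 : 0 < s ^ 2 := by positivity
  have hL0 : 0 < L := by linarith
  have hK1 : L / 2 ≤ ((2 * ⌈L / 4⌉₊ : ℕ) : ℝ) := by
    push_cast
    linarith [Nat.le_ceil (L / 4)]
  have hK2 : ((2 * ⌈L / 4⌉₊ : ℕ) : ℝ) ≤ L := by
    push_cast
    linarith [Nat.ceil_lt_add_one (show 0 ≤ L / 4 by positivity)]
  have hK3 : 1 < 2 * ⌈L / 4⌉₊ := by
    exact_mod_cast (show (1 : ℝ) < ((2 * ⌈L / 4⌉₊ : ℕ) : ℝ) by linarith)
  have h2 := Nat.lt_pow_succ_log_self hK3 m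
  have h5 := h1 ⌈L / 4⌉₊ (min D (Nat.log (2 * ⌈L / 4⌉₊) m)) (by positivity)
    (le_of_eq (by field_simp))
    (by
      have a1 : 6144 ≤ L * s ^ 2 := (div_le_iff₀ hs2).1 (by linarith)
      calc (6 : ℝ) ≤ s ^ 2 / (256 * L) * (L / 2) ^ 2 := by
            rw [show s ^ 2 / (256 * L) * (L / 2) ^ 2 = L * s ^ 2 / 1024 by field_simp; norm_num]
            linarith
        _ ≤ _ := by gcongr)
  have h6 := (Nat.pow_le_pow_right hK3.le (min_le_right D _)).trans
    (Nat.pow_log_le_self (2 * ⌈L / 4⌉₊) (by omega : m ≠ 0))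
  set K := 2 * ⌈L / 4⌉₊
  have hl : 0 < Real.log L := Real.log_pos (by linarith)
  have h3 : Real.log m / Real.log L ≤ Nat.log K m + 1 := by
    have a1 : (m : ℝ) ≤ L ^ (Nat.log K m + 1) :=
      le_trans (by exact_mod_cast h2.le) (pow_le_pow_left₀ (Nat.cast_nonneg K) hK2 _)
    have := Real.log_le_log (by exact_mod_cast hm) a1
    rwa [Real.log_pow, Nat.cast_succ, ← div_le_iff₀ hl] at this
  have h9 : min (D : ℝ) (Real.log m / Real.log L) ≤ (min D (Nat.log K m) : ℕ) + 1 := by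
    rw [Nat.cast_min, ← min_add_add_right]
    exact min_le_min (by linarith) h3
  have h10 : (chiCube (min D (Nat.log K m)) m (1 / 2 - s) ε : ℝ) ≤ chiCube D m (1 / 2 - s) ε :=
    Nat.cast_le.2 (chiCube_mono m _ ε (min_le_left _ _))
  set d := min D (Nat.log K m)
  have h4 : s ^ 2 / 12288 * (min (D : ℝ) (Real.log m / Real.log L) / L) ≤
      s ^ 2 / (256 * L) * (d + 1) / 48 :=
    calc _ ≤ s ^ 2 / 12288 * ((d + 1) / L) := by gcongr
      _ = _ := by field_simp; norm_num
  have h7 : s ^ 2 / (256 * L) ≤ 1 := by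
    rw [div_le_one (by positivity)]
    nlinarith
  by_cases hd : 16 ≤ s ^ 2 * d
  · refine le_trans ?_ (Real.log_le_log (by positivity) ((h5 hd h6).trans h10))
    rw [Real.log_div (Real.exp_pos _).ne' (by norm_num), Real.log_exp]
    linarith [Real.log_two_lt_d9]
  · have h8 : s ^ 2 / (256 * L) * d ≤ 1 := by
      rw [div_mul_eq_mul_div, div_le_one (by positivity)]
      linarith [not_le.1 hd]
    linarith [Real.log_nonneg (one_le_chiCube (c := 1 / 2 - s) (ε := ε) (by linarith) D hm)]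

lemma log_min_le {L R γ G : ℝ} (hL : 0 < L) (h2 : 1 ≤ Real.log L) (hR0 : 0 < R) (hR : R ≤ L)
    (hG : 0 ≤ G) (hγ : γ = G / (L * Real.log L)) (d : ℕ) {m : ℕ} (hm : 1 ≤ m) :
    γ * Real.log (min (m : ℝ) (2 * (6 * (Real.exp 1 * R)) ^ d)) ≤
      4 * G * (min (d : ℝ) (Real.log m / Real.log L) / L) + γ := by
  have hm0 : (0 : ℝ) < m := by exact_mod_cast hm
  have hγ0 : 0 ≤ γ := by rw [hγ]; positivity
  have hp : 0 < min (m : ℝ) (2 * (6 * (Real.exp 1 * R)) ^ d) := lt_min hm0 (by positivity)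
  have h3 : Real.log (min (m : ℝ) (2 * (6 * (Real.exp 1 * R)) ^ d)) ≤
      4 * (min (d : ℝ) (Real.log m / Real.log L) * Real.log L) + 1 := by
    rcases le_total (d : ℝ) (Real.log m / Real.log L) with h | h
    · refine (Real.log_le_log hp (min_le_right _ _)).trans ?_
      have a1 : Real.log (6 * (Real.exp 1 * R)) ≤ 4 * Real.log L := by
        rw [Real.log_mul (by norm_num) (by positivity), Real.log_mul (by positivity) hR0.ne',
          Real.log_exp, show (6 : ℝ) = 2 ^ 2 * (3 / 2) by norm_num,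
          Real.log_mul (by norm_num) (by norm_num), Real.log_pow]
        push_cast
        linarith [Real.log_le_log hR0 hR, Real.log_two_lt_d9,
          Real.log_le_sub_one_of_pos (show (0 : ℝ) < 3 / 2 by norm_num)]
      rw [min_eq_left h, Real.log_mul (by norm_num) (by positivity), Real.log_pow]
      linarith [mul_le_mul_of_nonneg_left a1 (Nat.cast_nonneg (α := ℝ) d), Real.log_two_lt_d9]
    · refine (Real.log_le_log hp (min_le_left _ _)).trans ?_
      rw [min_eq_right h, div_mul_cancel₀ _ (by linarith)]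
      linarith [Real.log_natCast_nonneg m]
  refine (mul_le_mul_of_nonneg_left h3 hγ0).trans (le_of_eq ?_)
  rw [hγ]
  field_simp

lemma upper {c ε t σ : ℝ} (hc : 0 < c) (hc1 : c < 1) (ht0 : 0 ≤ t)
    (ht : Real.exp (-(t ^ 2 / 2)) ≤ c / 2) (h7 : 7 ≤ σ)
    (hσ : Real.exp (t + 1 - σ / 2) ≤ c ^ 2 / 16) (hε : 0 < ε) (hεc : ε ≤ (c ^ 2 / 8) ^ 4)
    (hL : 2916 * σ ^ 4 ≤ Real.log (1 / ε)) : ∃ C : ℝ, ∀ d m : ℕ, 1 ≤ m →
      Real.log (chiCube d m c ε) ≤ 4 * (8712 * σ ^ 2) *
        (min (d : ℝ) (Real.log m / Real.log (Real.log (1 / ε))) / Real.log (1 / ε)) + C := by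
  have he := exp_neg_log hε
  set L := Real.log (1 / ε) with hLdef
  have h49 : 49 ≤ σ ^ 2 := by nlinarith
  have h1 : 8712 * σ ^ 2 ≤ L := by nlinarith
  have hL0 : 0 < L := by linarith
  have h2 : 1 ≤ Real.log L := by
    rw [Real.le_log_iff_exp_le hL0]
    linarith [Real.exp_one_lt_three]
  have hσ0 : 0 < 54 * σ ^ 2 := by linarith
  have hσ1 : 0 < σ := by linarith
  set γ := 8712 * σ ^ 2 / (L * Real.log L) with hγ
  have hγ0 : 0 < γ := by positivity
  have hβ : √(2 * σ ^ 2 / L) ^ 2 = 2 * σ ^ 2 / L := Real.sq_sqrt (by positivity)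
  have hβ1 : 1 / √(2 * σ ^ 2 / L) + 1 ≤ L := by
    have a1 : 2 / L ≤ √(2 * σ ^ 2 / L) := Real.le_sqrt_of_sq_le (by
      rw [div_pow, div_le_div_iff₀ (by positivity) hL0]
      nlinarith [mul_pos hL0 hL0])
    have a2 := one_div_le_one_div_of_le (by positivity) a1
    rw [one_div_div] at a2
    linarith
  have hT1 : Real.log L / 2 ≤ Real.log (⌊L / (54 * σ ^ 2)⌋₊ + 1) := by
    refine le_trans ?_ (Real.log_le_log (by positivity) (Nat.lt_floor_add_one _).le)
    have := Real.log_le_log (by positivity) (show (54 * σ ^ 2) ^ 2 ≤ L by linarith)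
    rw [Real.log_pow] at this
    rw [Real.log_div hL0.ne' hσ0.ne']
    push_cast at this
    linarith
  have hc2 : c ^ 2 ≤ 1 := by nlinarith
  have hp : (c ^ 2 / 8) ^ 4 ≤ (c ^ 2 / 8) ^ 1 :=
    pow_le_pow_of_le_one (by positivity) (by linarith) (by norm_num)
  have hx : Real.exp (-(L / 2)) ^ 2 = ε := by
    rw [← he, sq, ← Real.exp_add]
    congr 1
    ring
  have hx2 : Real.exp (-(L / 2)) ≤ (c ^ 2 / 8) ^ 2 :=
    (pow_le_pow_iff_left₀ (by positivity) (by positivity) two_ne_zero).1 (by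
      rw [hx, ← pow_mul]; exact hεc)
  have h3 := chiCube_le (ε := ε) (β := √(2 * σ ^ 2 / L)) (γ := γ) (T := ⌊L / (54 * σ ^ 2)⌋₊)
    (δ := σ / L) (by positivity) ((div_le_one hL0).2 (by nlinarith)) (by positivity)
    (le_of_eq (by rw [hβ]; ring)) hc.le ht0 ht hσ1.le hσ (by nlinarith)
    (by
      rw [hβ, show σ ^ 2 / (2 * σ ^ 2 / L) = L / 2 by field_simp, ← hx, sq (Real.exp _)]
      exact mul_le_mul_of_nonneg_right hx2 (Real.exp_pos _).le)
    (Nat.floor_pos.2 ((one_le_div hσ0).2 (by linarith)))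
    (by
      rw [mul_pow, hβ]
      calc _ ≤ 3 * (3 ^ 2 * (2 * σ ^ 2 / L)) * (L / (54 * σ ^ 2)) :=
            mul_le_mul_of_nonneg_left (Nat.floor_le (by positivity)) (by positivity)
        _ = 1 := by field_simp; norm_num)
    (by
      rw [mul_pow, hβ]
      calc _ = γ * (Real.log L / 2) := by rw [hγ]; field_simp; norm_num
        _ ≤ _ := mul_le_mul_of_nonneg_left hT1 hγ0.le)
    hγ0 ((div_le_one (by positivity)).2 (by nlinarith))
  refine ⟨Real.log (1 / (Real.exp (-153) / 8 * ((1 / 2) ^ ⌊1 / (σ / L) ^ 2⌋₊ / 2) * γ)) + γ,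
    fun d m hm => ?_⟩
  have hm0 : (0 : ℝ) < m := by exact_mod_cast hm
  have h4 := Real.log_le_log (lt_of_lt_of_le one_pos (one_le_chiCube hc1 d hm)) (h3 d m)
  rw [Real.log_mul (by positivity) (by positivity), Real.log_rpow (by positivity)] at h4
  linarith [log_min_le hL0 h2 (by positivity) hβ1 (by positivity) hγ d hm]

theorem cube_ltf {c : ℝ} (hc0 : 0 < c) (hc : c < 1 / 2) :
    ∃ a b ε₀ : ℝ, 0 < a ∧ 0 < b ∧ 0 < ε₀ ∧ ∀ ε : ℝ, 0 < ε → ε < ε₀ → ∃ C : ℝ, ∀ d m : ℕ, 1 ≤ m →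
      a * (min (d : ℝ) (Real.log m / Real.log (Real.log (1 / ε))) / Real.log (1 / ε)) - C ≤
          Real.log (chiCube d m c ε) ∧
        Real.log (chiCube d m c ε) ≤
          b * (min (d : ℝ) (Real.log m / Real.log (Real.log (1 / ε))) / Real.log (1 / ε)) + C := by
  obtain ⟨s, rfl⟩ : ∃ s, c = 1 / 2 - s := ⟨1 / 2 - c, by ring⟩
  have hs : 0 < s := by linarith
  set c := 1 / 2 - s with hcs
  have l1 : Real.log (c / 2) < 0 := Real.log_neg (by positivity) (by linarith)
  have l2 : Real.log (c ^ 2 / 16) < 0 := Real.log_neg (by positivity) (by nlinarith)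
  set t := 1 - Real.log (c / 2) with ht
  set σ := 7 + 2 * (t + 1 - Real.log (c ^ 2 / 16)) with hσ
  have h7 : 7 ≤ σ := by linarith
  refine ⟨s ^ 2 / 12288, 4 * (8712 * σ ^ 2), min (min c ((c ^ 2 / 8) ^ 4))
    (Real.exp (-max (2916 * σ ^ 4) (4 + 6144 / s ^ 2))), by positivity, by positivity,
    by positivity, fun ε hε hε0 => ?_⟩
  simp only [lt_min_iff] at hε0
  have hL : max (2916 * σ ^ 4) (4 + 6144 / s ^ 2) ≤ Real.log (1 / ε) := by
    rw [one_div, Real.log_inv, le_neg]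
    exact ((Real.log_lt_iff_lt_exp hε).2 hε0.2).le
  obtain ⟨C, hC⟩ := upper (t := t) hc0 (by linarith) (by linarith)
    ((Real.le_log_iff_exp_le (by positivity)).1 (by nlinarith [sq_nonneg (t - 1)])) h7
    ((Real.le_log_iff_exp_le (by positivity)).1 (by linarith)) hε hε0.1.2.le
    (le_of_max_le_left hL)
  refine ⟨max C 2, fun d m hm => ?_⟩
  have h2 := lower hs (by linarith) hε hε0.1.1.le (le_of_max_le_right hL) d hm
  exact ⟨by linarith [le_max_right C 2], by linarith [hC d m hm, le_max_left C 2]⟩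

end Pool.Agent.MP_3a192b_co.HS
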