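import Pool.Agent.MP_3a192b_co.Anti
import Pool.Agent.MP_3a192b_co.Lower

namespace Pool.Agent.MP_3a192b_co

open Finset

theorem sharp_aux {s ε θ : ℝ} (hs : 0 < s) (hs1 : s ≤ 1 / 2) (hε : 0 < ε)
    (hεs : ε ≤ 1 / 2 - s) (hΛ2 : 2 ≤ Real.log (1 / ε))
    (hεΛ : ε * Real.log (1 / ε) ≤ s ^ 2 / 8)
    (hθ : 0 < θ) (hθs : 256 * θ * Real.log (1 / ε) ≤ s ^ 2) {L d n m m' : ℕ}
    (hL : 0 < L) (hθL : 6 ≤ θ * ((2 * L : ℕ) : ℝ) ^ 2) (hd : 16 ≤ s ^ 2 * d)
    (hm : (2 * L) ^ d ≤ m) (hm' : (2 * L) ^ d ≤ m')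
    (hn : ((m' : ℝ) + (m' : ℝ) ^ 2) * Real.exp (-(ε * Real.log (1 / ε) / 2 * n)) < 1) :
    Real.exp (θ * d / 48) / 2 ≤ chiStar n m (1 / 2 - s) ε := by
  classical
  have hdR : (0 : ℝ) < d := by
    by_contra h
    have : (d : ℝ) = 0 := le_antisymm (not_lt.1 h) (by positivity)
    rw [this] at hd
    linarith
  have hd0 : 0 < d := by exact_mod_cast hdR
  have hLR : (0 : ℝ) < L := by exact_mod_cast hL
  have hsd : 0 < √(d : ℝ) := Real.sqrt_pos.2 hdR
  have hsd2 : √(d : ℝ) ^ 2 = d := Real.sq_sqrt hdR.le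
  have hsd4 : 4 ≤ s * √(d : ℝ) := by
    refine (pow_le_pow_iff_left₀ (by norm_num) (by positivity) two_ne_zero).1 ?_
    rw [mul_pow, hsd2]; linarith
  set K := 2 * L with hK
  have hK0 : 0 < K := by omega
  have hKR : (K : ℝ) = 2 * L := by rw [hK]; push_cast; ring
  have hKpos : (0 : ℝ) < K := by exact_mod_cast hK0
  set u : ℝ := s / 4 * L * √(d : ℝ) with hu
  have hu0 : 0 ≤ u := by positivity
  have h1 := small_sum_card hL hd0 hu0
  have h2 : (u / L + 1) / √(d : ℝ) ≤ s / 2 := by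
    rw [div_le_iff₀ hsd]
    have : u / L = s / 4 * √(d : ℝ) := by rw [hu]; field_simp
    rw [this]; linarith
  have h3 := exists_good (K := K) (d := d) (u := u) (τ := s / 2) (by positivity)
    (h1.trans (mul_le_mul_of_nonneg_right h2 (by positivity)))
  set 𝒱 := Finset.univ.filter fun x : Fin d → Fin K =>
      ((Finset.univ.filter fun g : Fin d → Bool => |sg g fun i => zc (x i)| ≤ u).card : ℝ) ≤
        2 * (s / 2) * 2 ^ d with h𝒱
  have hVm : 𝒱.card ≤ m := le_trans (by simpa using card_le_univ 𝒱) hm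
  have hVm' : 𝒱.card ≤ m' := le_trans (by simpa using card_le_univ 𝒱) hm'
  have hne : 𝒱.Nonempty := by
    rw [← card_pos]
    have : (0 : ℝ) < 𝒱.card := lt_of_lt_of_le (by positivity) h3
    exact_mod_cast this
  let A0 : (Fin d → Fin K) → Finset (Fin d → Bool) := fun x =>
    Finset.univ.filter fun g => u < sg g fun i => zc (x i)
  let E : Finset ((Fin d → Fin K) × (Fin d → Fin K)) := (𝒱 ×ˢ 𝒱).filter fun p =>
    ∑ i, (((p.1 i : ℕ) : ℝ) + (p.2 i : ℕ) + 1 - K) ^ 2 ≤ θ * (K : ℝ) ^ 2 * d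
  have hcardS : (Fintype.card (Fin d → Bool) : ℝ) = 2 ^ d := by simp
  obtain ⟨T, hT⟩ := sampling (S := Fin d → Bool) n (𝒱.disjSum E)
    (Sum.elim (fun x => (A0 x)ᶜ) (fun p => A0 p.1 ∩ A0 p.2))
    (Sum.elim (fun _ => (1 + s) / 2) (fun _ => ε ^ 2))
    (Sum.elim (fun _ => 1 / 2 + s) (fun _ => ε))
    (Sum.elim (fun _ => s / 4) (fun _ => Real.log (1 / ε))) (r := ε * Real.log (1 / ε) / 2)
    (by rintro (x | p) _ <;> simp only [Sum.elim_inl, Sum.elim_inr] <;> linarith)
    (by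
      rintro (x | p) _ <;> simp only [Sum.elim_inl, Sum.elim_inr]
      · have c1 := Real.abs_exp_sub_one_sub_id_le (x := s / 4)
          (by rw [abs_of_nonneg (by positivity)]; linarith)
        have c2 : Real.exp (s / 4) - 1 ≤ s / 4 + (s / 4) ^ 2 := by linarith [(abs_le.1 c1).2]
        have c3 := mul_le_mul_of_nonneg_left c2 (show (0 : ℝ) ≤ (1 + s) / 2 by positivity)
        nlinarith [mul_nonneg (sq_nonneg s) (show (0 : ℝ) ≤ 1 - s by linarith)]
      · rw [Real.exp_log (by positivity)]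
        have c1 : ε ^ 2 * (1 / ε - 1) = ε - ε ^ 2 := by field_simp
        rw [c1]
        nlinarith [sq_nonneg ε])
    (by
      rintro (x | p) hj <;> simp only [Sum.elim_inl, Sum.elim_inr] <;> rw [hcardS]
      · have hx : x ∈ 𝒱 := by simpa using hj
        have c1 := (mem_filter.1 hx).2
        have c2 := halfspace_card (fun i => zc (x i)) u
        have c3 : (2 : ℝ) ^ d ≤ 2 * ((A0 x).card : ℝ) +
            ((Finset.univ.filter fun g : Fin d → Bool =>
              |sg g fun i => zc (x i)| ≤ u).card : ℝ) := by exact_mod_cast c2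
        have c4 : (((A0 x)ᶜ.card : ℕ) : ℝ) = 2 ^ d - (A0 x).card := by
          rw [card_compl, Nat.cast_sub (card_le_univ _), hcardS]
        rw [c4]; linarith
      · have hp : p ∈ E := by simpa using hj
        have c1 := (mem_filter.1 hp).2
        have c2 : A0 p.1 ∩ A0 p.2 ⊆ Finset.univ.filter fun g : Fin d → Bool =>
            2 * u < sg g fun i => zc (p.1 i) + zc (p.2 i) := by
          intro g hg
          simp only [A0, mem_inter, mem_filter, mem_univ, true_and] at hg ⊢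
          rw [sg_add]; linarith [hg.1, hg.2]
        have c3 := tail_card (fun i => zc (p.1 i) + zc (p.2 i)) (v := 2 * u)
          (ρ := 4 * (θ * (K : ℝ) ^ 2 * d)) (by positivity) (by positivity) (by
            calc ∑ i, (zc (p.1 i) + zc (p.2 i)) ^ 2
                = 4 * ∑ i, (((p.1 i : ℕ) : ℝ) + (p.2 i : ℕ) + 1 - K) ^ 2 := by
                  rw [Finset.mul_sum]
                  refine Finset.sum_congr rfl fun i _ => ?_
                  unfold zc; ring
              _ ≤ _ := by linarith)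
        have c4 : Real.exp (-((2 * u) ^ 2 / (2 * (4 * (θ * (K : ℝ) ^ 2 * d))))) ≤ ε ^ 2 := by
          have e : (2 * u) ^ 2 / (2 * (4 * (θ * (K : ℝ) ^ 2 * d))) = s ^ 2 / (128 * θ) := by
            rw [hu, hKR, mul_pow, mul_pow, hsd2]; field_simp; ring
          rw [e, ← Real.le_log_iff_exp_le (by positivity)]
          have e2 : Real.log (ε ^ 2) = -(2 * Real.log (1 / ε)) := by
            rw [Real.log_pow, one_div, Real.log_inv]; push_cast; ring
          rw [e2, neg_le_neg_iff, le_div_iff₀ (by positivity)]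
          linarith
        calc (((A0 p.1 ∩ A0 p.2).card : ℕ) : ℝ) ≤ _ := by exact_mod_cast card_le_card c2
          _ ≤ _ := c3
          _ ≤ _ := mul_le_mul_of_nonneg_right c4 (by positivity))
    (by
      refine lt_of_le_of_lt (mul_le_mul_of_nonneg_right ?_ (Real.exp_pos _).le) hn
      have c1 : E.card ≤ m' ^ 2 := by
        refine (card_filter_le _ _).trans ?_
        rw [card_product, sq]
        exact Nat.mul_le_mul hVm' hVm'
      rw [card_disjSum]
      exact_mod_cast Nat.add_le_add hVm' c1)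
  let A : (Fin d → Fin K) → Finset (Fin n) := fun x => Finset.univ.filter fun i => T i ∈ A0 x
  have hn0 : (0 : ℝ) ≤ n := by positivity
  have hA : ∀ x ∈ 𝒱, (1 / 2 - s) * n < ((A x).card : ℝ) := by
    intro x hx
    have c1 := hT (Sum.inl x) (by simpa using hx)
    simp only [Sum.elim_inl, mem_compl] at c1
    have c2 := card_filter_add_card_filter_not (s := (Finset.univ : Finset (Fin n)))
      (fun i => T i ∈ A0 x)
    simp only [card_univ, Fintype.card_fin] at c2
    have c3 : ((A x).card : ℝ) + ((Finset.univ.filter fun i => T i ∉ A0 x).card : ℝ) = n := by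
      exact_mod_cast c2
    linarith
  have hE : ∀ x ∈ 𝒱, ∀ y ∈ 𝒱,
      ∑ i, (((x i : ℕ) : ℝ) + (y i : ℕ) + 1 - K) ^ 2 ≤ θ * (K : ℝ) ^ 2 * d →
      ((A x ∩ A y).card : ℝ) < ε * n := by
    intro x hx y hy hxy
    have c1 := hT (Sum.inr (x, y)) (by
      simp only [inr_mem_disjSum, E, mem_filter, mem_product]
      exact ⟨⟨hx, hy⟩, hxy⟩)
    simp only [Sum.elim_inr] at c1
    have e : A x ∩ A y = Finset.univ.filter fun i => T i ∈ A0 x ∩ A0 y := by
      ext i; simp [A]
    rw [e]; exact c1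
  have h := card_le_chiStar_mul (c := 1 / 2 - s) (ε := ε) (n := n) (m := m)
    (a := (K : ℝ) ^ d * Real.exp (-(θ * d / 48))) (S := Fin n) (by simp) 𝒱 hne hVm A
    hA
    (by
      intro W hW hind
      refine grid_far hK0 d hθL W fun x hx y hy => ?_
      by_contra hc
      have c1 := hE x (hW hx) y (hW hy) (not_le.1 hc).le
      by_cases hxy : x = y
      · subst hxy
        rw [inter_self] at c1
        have c2 := hA x (hW hx)
        have c3 : ε * n ≤ (1 / 2 - s) * n := mul_le_mul_of_nonneg_right hεs hn0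
        linarith
      · linarith [hind x hx y hy hxy])
  have e : Real.exp (θ * d / 48) * Real.exp (-(θ * d / 48)) = 1 := by
    rw [← Real.exp_add, add_neg_cancel, Real.exp_zero]
  have hp : (0 : ℝ) < (K : ℝ) ^ d * Real.exp (-(θ * d / 48)) := by positivity
  refine le_of_mul_le_mul_right ?_ hp
  calc Real.exp (θ * d / 48) / 2 * ((K : ℝ) ^ d * Real.exp (-(θ * d / 48)))
      = (K : ℝ) ^ d / 2 * (Real.exp (θ * d / 48) * Real.exp (-(θ * d / 48))) := by ring
    _ = (K : ℝ) ^ d / 2 := by rw [e, mul_one]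
    _ ≤ 𝒱.card := h3
    _ ≤ _ := h

theorem sharp_lower {c : ℝ} (hc0 : 0 < c) (hc : c < 1 / 2) :
    ∃ a : ℝ, 0 < a ∧ ∃ ε₀ : ℝ, 0 < ε₀ ∧ ∀ ε : ℝ, 0 < ε → ε < ε₀ → ∀ n m : ℕ, 1 ≤ n → 1 ≤ m →
      (1 / 3 : ℝ) * Real.exp (a / Real.log (Real.log (1 / ε)) *
        min (ε * n) (Real.log m / Real.log (1 / ε))) ≤ chiStar n m c ε := by
  set s := 1 / 2 - c with hsdef
  have hs : 0 < s := by linarith
  have hs1 : s ≤ 1 / 2 := by linarith
  have hcs : c = 1 / 2 - s := by linarith
  refine ⟨s ^ 2 / 147456, by positivity, min (Real.exp (-(1024 / s ^ 2))) c,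
    lt_min (Real.exp_pos _) hc0, fun ε hε hε0 n m hn0 hm => ?_⟩
  have hε1 : ε < Real.exp (-(1024 / s ^ 2)) := hε0.trans_le (min_le_left _ _)
  have hεs : ε ≤ 1 / 2 - s := hcs ▸ (hε0.trans_le (min_le_right _ _)).le
  set Λ := Real.log (1 / ε) with hΛ
  have hs2 : s ^ 2 ≤ 1 / 4 := by nlinarith
  have hs20 : 0 < s ^ 2 := by positivity
  have hΛ1 : 1024 / s ^ 2 < Λ := by
    have := Real.log_lt_log hε hε1
    rw [Real.log_exp] at this
    rw [hΛ, one_div, Real.log_inv]; linarith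
  have hΛ2 : 1024 < Λ * s ^ 2 := by rwa [div_lt_iff₀ hs20] at hΛ1
  have hΛ3 : 4096 ≤ Λ := by
    by_contra h
    push Not at h
    have h0 : 0 < Λ := lt_trans (by positivity) hΛ1
    nlinarith
  have hΛ0 : 0 < Λ := by linarith
  have hlΛ : 1 ≤ Real.log Λ := by
    rw [Real.le_log_iff_exp_le hΛ0]
    linarith [Real.exp_one_lt_d9]
  have hεΛ : ε * Λ ≤ s ^ 2 / 8 := by
    have c1 : Real.exp Λ = 1 / ε := Real.exp_log (by positivity)
    have c2 := Real.quadratic_le_exp_of_nonneg hΛ0.le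
    rw [c1, le_div_iff₀ hε] at c2
    have c3 : ε * Λ * Λ ≤ 2 := by nlinarith [mul_pos hε hΛ0]
    have c4 : 0 < ε * Λ := by positivity
    by_contra h
    push Not at h
    nlinarith [mul_lt_mul_of_pos_right h hΛ0]
  set θ := s ^ 2 / (256 * Λ) with hθdef
  have hθ : 0 < θ := by positivity
  have hθΛ : θ * (256 * Λ) = s ^ 2 := by rw [hθdef]; field_simp
  have hθ1 : θ ≤ 1 / 2 := by nlinarith
  have hlog2 : Real.log 2 < 1 := by
    have := Real.log_two_lt_d9; linarith
  have hθs : 256 * θ * Λ ≤ s ^ 2 := by linarith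
  set L := ⌈1 / θ⌉₊ with hLdef
  have hL1 : 1 / θ ≤ L := Nat.le_ceil _
  have hL2 : (L : ℝ) < 1 / θ + 1 := Nat.ceil_lt_add_one (by positivity)
  have hθi : 2 ≤ 1 / θ := by rw [le_div_iff₀ hθ]; linarith
  have hL : 0 < L := by
    have : (0 : ℝ) < L := by linarith
    exact_mod_cast this
  have hθL : 6 ≤ θ * ((2 * L : ℕ) : ℝ) ^ 2 := by
    have c1 : 1 ≤ θ * L := by rwa [div_le_iff₀ hθ, mul_comm] at hL1
    have c2 : (2 : ℝ) ≤ L := by linarith
    push_cast
    nlinarith
  have hKΛ : ((2 * L : ℕ) : ℝ) ≤ Λ ^ 2 := by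
    have c1 : 1 / θ = 256 * Λ / s ^ 2 := by rw [hθdef]; field_simp
    have c2 : 4 * (1 / θ) ≤ Λ ^ 2 := by
      rw [c1, ← mul_div_assoc, div_le_iff₀ hs20]; nlinarith
    push_cast
    linarith
  have hmR : (1 : ℝ) ≤ m := by exact_mod_cast hm
  have hlm : 0 ≤ Real.log m := Real.log_nonneg hmR
  set X := min (ε * n) (Real.log m / Λ) with hX
  have hX1 : X ≤ ε * n := min_le_left _ _
  have hX2 : Λ * X ≤ Real.log m := by
    have : X ≤ Real.log m / Λ := min_le_right _ _
    rwa [le_div_iff₀ hΛ0, mul_comm] at this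
  set d := ⌊(Λ * X / 4 - 1) / (2 * Real.log Λ)⌋₊ with hd
  have hd0 : (0 : ℝ) ≤ d := by positivity
  have hd1 : Λ * X / 4 - 1 < (d + 1) * (2 * Real.log Λ) := by
    have := Nat.lt_floor_add_one ((Λ * X / 4 - 1) / (2 * Real.log Λ))
    rwa [div_lt_iff₀ (by linarith)] at this
  have hpow : s ^ 2 / 147456 / Real.log Λ * X ≤ θ * (d + 1) / 48 := by
    have c1 : Λ * X ≤ 12 * ((d + 1) * Real.log Λ) := by nlinarith
    have c2 : s ^ 2 / 147456 / Real.log Λ * X = θ / 576 * (Λ * X) / Real.log Λ := by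
      rw [← hθΛ]; field_simp; ring
    rw [c2, div_le_iff₀ (by linarith)]
    nlinarith [mul_le_mul_of_nonneg_left c1 hθ.le]
  have hpow' := Real.exp_le_exp.2 hpow
  by_cases hd16 : 16 ≤ s ^ 2 * d
  · have hdpos : 0 < d := by
      rcases Nat.eq_zero_or_pos d with h | h
      · rw [h] at hd16; norm_num at hd16
      · exact h
    have hd2 : d * (2 * Real.log Λ) ≤ Λ * X / 4 - 1 := by
      have c0 : 0 ≤ (Λ * X / 4 - 1) / (2 * Real.log Λ) := by
        by_contra h
        push Not at h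
        rw [hd, Nat.floor_eq_zero.2 (by linarith)] at hdpos
        exact lt_irrefl _ hdpos
      have := Nat.floor_le c0
      rwa [le_div_iff₀ (by linarith)] at this
    have hKd : (((2 * L) ^ d : ℕ) : ℝ) ≤ Real.exp (Λ * X / 4 - 1) := by
      calc (((2 * L) ^ d : ℕ) : ℝ) = ((2 * L : ℕ) : ℝ) ^ d := by push_cast; ring
        _ ≤ (Λ ^ 2) ^ d := by gcongr
        _ = Real.exp (d * (2 * Real.log Λ)) := by
          rw [Real.exp_nat_mul, show (2 : ℝ) * Real.log Λ = Real.log (Λ ^ 2) by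
            rw [Real.log_pow]; norm_num, Real.exp_log (by positivity)]
        _ ≤ _ := Real.exp_le_exp.2 hd2
    have hX0 : 0 ≤ Λ * X := by nlinarith
    have hKm : (2 * L) ^ d ≤ m := by
      have : (((2 * L) ^ d : ℕ) : ℝ) ≤ m := by
        refine hKd.trans ?_
        rw [← Real.le_log_iff_exp_le (by linarith)]
        linarith
      exact_mod_cast this
    have h := sharp_aux hs hs1 hε hεs (by linarith) hεΛ hθ hθs hL hθL hd16 (n := n) (m := m)
      (m' := (2 * L) ^ d) hKm le_rfl (by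
        set M : ℝ := (((2 * L) ^ d : ℕ) : ℝ) with hM
        have hM1 : 1 ≤ M := by
          rw [hM]; exact_mod_cast Nat.one_le_pow _ _ (by omega)
        have c1 : Real.exp (-(ε * Λ / 2 * n)) ≤ Real.exp (-(Λ * X / 2)) := by
          apply Real.exp_le_exp.2
          nlinarith [mul_le_mul_of_nonneg_left hX1 hΛ0.le]
        have c2 : M ^ 2 ≤ Real.exp (Λ * X / 2) * Real.exp (-2) := by
          calc M ^ 2 ≤ (Real.exp (Λ * X / 4 - 1)) ^ 2 := by gcongr
            _ = _ := by rw [← Real.exp_nat_mul, ← Real.exp_add]; congr 1; push_cast; ring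
        have c3 : Real.exp (-2) < 1 / 2 := by
          rw [Real.exp_neg, inv_eq_one_div, div_lt_div_iff₀ (Real.exp_pos _) (by norm_num)]
          linarith [Real.add_one_le_exp (2 : ℝ)]
        have c4 : Real.exp (Λ * X / 2) * Real.exp (-(Λ * X / 2)) = 1 := by
          rw [← Real.exp_add, add_neg_cancel, Real.exp_zero]
        have c5 : M + M ^ 2 ≤ 2 * M ^ 2 := by nlinarith
        calc (M + M ^ 2) * Real.exp (-(ε * Λ / 2 * n))
            ≤ (2 * (Real.exp (Λ * X / 2) * Real.exp (-2))) * Real.exp (-(Λ * X / 2)) :=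
              mul_le_mul (by linarith) c1 (Real.exp_pos _).le (by positivity)
          _ = 2 * Real.exp (-2) * (Real.exp (Λ * X / 2) * Real.exp (-(Λ * X / 2))) := by ring
          _ < 1 := by rw [c4]; linarith)
    rw [← hcs] at h
    have hexp : Real.exp (θ / 48) ≤ 3 / 2 := by
      have h1 := Real.add_one_le_exp (-(θ / 48) : ℝ)
      have h2 : Real.exp (θ / 48) * Real.exp (-(θ / 48) : ℝ) = 1 := by
        rw [← Real.exp_add]; simp
      nlinarith [Real.exp_pos (θ / 48 : ℝ)]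
    have e : Real.exp (θ * (d + 1) / 48) = Real.exp (θ * d / 48) * Real.exp (θ / 48) := by
      rw [← Real.exp_add]; congr 1; ring
    rw [e] at hpow'
    nlinarith [Real.exp_pos (θ * d / 48), mul_le_mul_of_nonneg_left hexp
      (Real.exp_pos (θ * d / 48)).le]
  · push Not at hd16
    have h := one_le_chiStar (c := c) (ε := ε) (by linarith) hn0 hm
    have c1 : θ * (d + 1) / 48 ≤ 1 := by
      have : θ * d * (256 * Λ) < 16 := by nlinarith
      have hd0 : 0 ≤ θ * d := by positivity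
      have : θ * d ≤ 1 := by nlinarith
      linarith
    have c2 := Real.exp_le_exp.2 c1
    have c3 := Real.exp_one_lt_d9
    linarith

end Pool.Agent.MP_3a192b_co
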