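import Pool.Agent.MP_3a192b_co.Upper

namespace Pool.Agent.MP_3a192b_co

open Finset

/-- Tensorisation of an infimum-convolution type inequality. -/
theorem tensor {Ω : Type*} [Fintype Ω] (κ : Ω → Ω → ℝ) (K : ℝ) (hK : 0 ≤ K)
    (hκ : ∀ x y, 0 ≤ κ x y)
    (h1 : ∀ (s : ℝ) (α β : Ω → ℝ), 0 ≤ s → (∀ x, 0 ≤ α x) → (∀ y, 0 ≤ β y) →
      (∀ x y, α x * β y ≤ s * κ x y) → (∑ x, α x) * (∑ y, β y) ≤ s * K)
    (d : ℕ) : ∀ (s : ℝ) (α β : (Fin d → Ω) → ℝ), 0 ≤ s → (∀ x, 0 ≤ α x) → (∀ y, 0 ≤ β y) →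
      (∀ x y, α x * β y ≤ s * ∏ i, κ (x i) (y i)) → (∑ x, α x) * (∑ y, β y) ≤ s * K ^ d := by
  induction d with
  | zero =>
    intro s α β _ _ _ h
    simpa using h default default
  | succ d ih =>
    intro s α β hs hα hβ h
    have eα : ∑ x, α x = ∑ x0 : Ω, ∑ x' : Fin d → Ω, α (Fin.cons x0 x') := by
      rw [← (Fin.consEquiv fun _ : Fin (d + 1) => Ω).sum_comp, Fintype.sum_prod_type]
      rfl
    have eβ : ∑ x, β x = ∑ x0 : Ω, ∑ x' : Fin d → Ω, β (Fin.cons x0 x') := by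
      rw [← (Fin.consEquiv fun _ : Fin (d + 1) => Ω).sum_comp, Fintype.sum_prod_type]
      rfl
    rw [eα, eβ]
    have := h1 (s * K ^ d) (fun x0 => ∑ x' : Fin d → Ω, α (Fin.cons x0 x'))
      (fun x0 => ∑ x' : Fin d → Ω, β (Fin.cons x0 x')) (by positivity)
      (fun x => Finset.sum_nonneg fun _ _ => hα _) (fun x => Finset.sum_nonneg fun _ _ => hβ _)
      (fun x0 y0 => by
        have h2 := ih (s * κ x0 y0) (fun x' => α (Fin.cons x0 x')) (fun y' => β (Fin.cons y0 y'))
          (mul_nonneg hs (hκ _ _)) (fun _ => hα _) (fun _ => hβ _) (fun x' y' => by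
            have h3 := h (Fin.cons x0 x') (Fin.cons y0 y')
            rw [Fin.prod_univ_succ] at h3
            simpa [mul_assoc] using h3)
        calc _ ≤ s * κ x0 y0 * K ^ d := h2
          _ = s * K ^ d * κ x0 y0 := by ring)
    calc _ ≤ s * K ^ d * K := this
      _ = s * K ^ (d + 1) := by ring

/-- Transfer: a family on any finite types gives a lower bound for `chiStar`. -/
theorem card_le_chiStar_mul {V S : Type*} [Fintype S] [DecidableEq S] {n m : ℕ} {c ε a : ℝ}
    (hS : Fintype.card S = n) (𝒱 : Finset V) (hne : 𝒱.Nonempty) (hm : 𝒱.card ≤ m)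
    (A : V → Finset S) (hA : ∀ v ∈ 𝒱, c * n < ((A v).card : ℝ))
    (hind : ∀ W ⊆ 𝒱, (∀ u ∈ W, ∀ v ∈ W, u ≠ v → ε * n ≤ ((A u ∩ A v).card : ℝ)) →
      (W.card : ℝ) ≤ a) :
    (𝒱.card : ℝ) ≤ chiStar n m c ε * a := by
  classical
  let e : S ≃ Fin n := Fintype.equivFinOfCardEq hS
  obtain ⟨σ⟩ : Nonempty (𝒱 ↪ Fin m) :=
    Function.Embedding.nonempty_of_card_le (by simpa using hm)
  have : Nonempty 𝒱 := hne.to_subtype
  let π : Fin m → 𝒱 := Function.invFun σ
  have hπ : ∀ v, π (σ v) = v := Function.leftInverse_invFun σ.injective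
  let A' : Fin m → Finset (Fin n) := fun i => (A (π i).1).map e.toEmbedding
  have hA' : ∀ i, c * n < ((A' i).card : ℝ) := by
    intro i
    simp only [A', card_map]
    exact hA _ (π i).2
  obtain ⟨C⟩ := colorable_chiStar (ε := ε) A' hA'
  set k := chiStar n m c ε with hk
  let W : Fin k → Finset V := fun j =>
    (Finset.univ.filter fun v : 𝒱 => C (σ v) = j).map (Function.Embedding.subtype _)
  have hW : ∀ j, ((W j).card : ℝ) ≤ a := by
    intro j
    refine hind _ ?_ ?_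
    · intro v hv
      obtain ⟨w, -, rfl⟩ := mem_map.1 hv
      exact w.2
    · intro u hu v hv huv
      obtain ⟨u', hu', rfl⟩ := mem_map.1 hu
      obtain ⟨v', hv', rfl⟩ := mem_map.1 hv
      have hne' : σ u' ≠ σ v' := fun h => huv (by rw [σ.injective h])
      by_contra hlt
      have hadj : (smallGraph ε A').Adj (σ u') (σ v') := by
        rw [smallGraph_adj]
        refine ⟨hne', ?_⟩
        simp only [A', hπ, ← map_inter, card_map]
        exact not_le.1 hlt
      exact C.valid hadj (((mem_filter.1 hu').2).trans ((mem_filter.1 hv').2).symm)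
  have hcard : 𝒱.card = ∑ j : Fin k, (W j).card := by
    simp only [W, card_map]
    rw [← card_eq_sum_card_fiberwise (f := fun v : 𝒱 => C (σ v)) (s := Finset.univ)
      (t := Finset.univ) (fun _ _ => mem_coe.2 (mem_univ _))]
    simp
  calc (𝒱.card : ℝ) = ∑ j : Fin k, ((W j).card : ℝ) := by rw [hcard]; push_cast; rfl
    _ ≤ ∑ _j : Fin k, a := Finset.sum_le_sum fun j _ => hW j
    _ = k * a := by simp

end Pool.Agent.MP_3a192b_co
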