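import Pool.Agent.MP_3a192b_co.Tensor

namespace Pool.Agent.MP_3a192b_co

open Finset

/-- Relative entropy with respect to the uniform law controls the distribution function. -/
theorem cdf_sq_le {K : ℕ} (hK : 0 < K) (P : ℕ → ℝ) (hP : ∀ k, 0 ≤ P k)
    (h1 : ∑ k ∈ range K, P k = 1) {i : ℕ} (hi : i ≤ K) :
    (∑ k ∈ range i, P k - i / K) ^ 2 ≤ 4 * ∑ k ∈ range K, P k * Real.log (K * P k) := by
  have hKR : (0 : ℝ) < K := by exact_mod_cast hK
  set u : ℝ := 1 / K with hu
  have hu0 : 0 < u := by positivity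
  have hD : ∑ k ∈ range K, (√(P k) - √u) ^ 2 ≤ ∑ k ∈ range K, P k * Real.log (K * P k) := by
    have e : ∑ k ∈ range K, (√(P k) - √u) ^ 2 =
        ∑ k ∈ range K, (2 * P k - 2 * (√(P k) * √u)) := by
      have e1 : ∀ k, (√(P k) - √u) ^ 2 = (2 * P k - 2 * (√(P k) * √u)) + (u - P k) := by
        intro k
        have a1 := Real.sq_sqrt (hP k)
        have a2 := Real.sq_sqrt hu0.le
        nlinarith
      simp only [e1]
      have e0 : (K : ℝ) * u = 1 := by rw [hu]; field_simp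
      rw [Finset.sum_add_distrib, Finset.sum_sub_distrib (f := fun _ => u), h1, sum_const,
        card_range, nsmul_eq_mul, e0, sub_self, add_zero]
    rw [e]
    refine Finset.sum_le_sum fun k _ => ?_
    rcases (hP k).eq_or_lt with h0 | h0
    · simp [← h0]
    · have hs : 0 < √(P k) := Real.sqrt_pos.2 h0
      have hsu : 0 < √u := Real.sqrt_pos.2 hu0
      have a1 := Real.sq_sqrt (hP k)
      have a2 := Real.sq_sqrt hu0.le
      have e2 : (K : ℝ) * P k = ((√u / √(P k)) ^ 2)⁻¹ := by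
        rw [div_pow, a1, a2, hu]; field_simp
      have e3 := Real.log_le_sub_one_of_pos (div_pos hsu hs)
      rw [e2, Real.log_inv, Real.log_pow]
      have e4 : P k * (√u / √(P k)) = √(P k) * √u := by
        field_simp
        nlinarith
      push_cast
      nlinarith [mul_le_mul_of_nonneg_left e3 h0.le]
  have e5 : ∑ k ∈ range i, P k - i / K = ∑ k ∈ range i, (√(P k) - √u) * (√(P k) + √u) := by
    have e1 : ∀ k, (√(P k) - √u) * (√(P k) + √u) = P k - u := by
      intro k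
      have a1 := Real.sq_sqrt (hP k)
      have a2 := Real.sq_sqrt hu0.le
      nlinarith
    simp only [e1]
    rw [Finset.sum_sub_distrib, sum_const, card_range, nsmul_eq_mul, hu]
    ring
  rw [e5]
  have e6 := Finset.sum_mul_sq_le_sq_mul_sq (range i) (fun k => √(P k) - √u)
    (fun k => √(P k) + √u)
  have e7 : ∑ k ∈ range i, (√(P k) - √u) ^ 2 ≤ ∑ k ∈ range K, (√(P k) - √u) ^ 2 :=
    Finset.sum_le_sum_of_subset_of_nonneg (range_mono hi) fun _ _ _ => sq_nonneg _
  have e8 : ∑ k ∈ range i, (√(P k) + √u) ^ 2 ≤ 4 := by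
    calc ∑ k ∈ range i, (√(P k) + √u) ^ 2 ≤ ∑ k ∈ range K, (√(P k) + √u) ^ 2 :=
          Finset.sum_le_sum_of_subset_of_nonneg (range_mono hi) fun _ _ _ => sq_nonneg _
      _ ≤ ∑ k ∈ range K, (2 * P k + 2 * u) := by
          refine Finset.sum_le_sum fun k _ => ?_
          have a1 := Real.sq_sqrt (hP k)
          have a2 := Real.sq_sqrt hu0.le
          nlinarith [sq_nonneg (√(P k) - √u)]
      _ = 4 := by
          rw [Finset.sum_add_distrib, ← Finset.mul_sum, h1, sum_const, card_range, nsmul_eq_mul,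
            hu]
          field_simp
          ring
  have e9 : 0 ≤ ∑ k ∈ range i, (√(P k) - √u) ^ 2 := Finset.sum_nonneg fun _ _ => sq_nonneg _
  calc _ ≤ _ := e6
    _ ≤ (∑ k ∈ range i, (√(P k) - √u) ^ 2) * 4 := mul_le_mul_of_nonneg_left e8 e9
    _ ≤ _ := by linarith

theorem min_super {a a' b b' : ℝ} (ha : a ≤ a') (hb : b ≤ b') :
    0 ≤ min a' b' - min a' b - min a b' + min a b := by
  simp only [min_def]
  split_ifs <;> linarith

theorem min_super_pos {a a' b b' : ℝ} (ha : a ≤ a') (hb : b ≤ b')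
    (h : 0 < min a' b' - min a' b - min a b' + min a b) : a < a' ∧ b < b' ∧ b < a' ∧ a < b' := by
  simp only [min_def] at h
  refine ⟨?_, ?_, ?_, ?_⟩ <;> by_contra hc <;> push Not at hc <;> split_ifs at h <;> linarith

/-- The monotone coupling of two laws on `range K`. -/
theorem coupling {K : ℕ} (P Q : ℕ → ℝ) (hP : ∀ k, 0 ≤ P k) (hQ : ∀ k, 0 ≤ Q k)
    (hP1 : ∑ k ∈ range K, P k = 1) (hQ1 : ∑ k ∈ range K, Q k = 1) (f g : ℕ → ℝ) (ρ : ℝ)
    (h : ∀ i < K, ∀ j < K, 0 < P i → 0 < Q j →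
      ∑ k ∈ range j, Q k < ∑ k ∈ range (i + 1), P k →
      ∑ k ∈ range i, P k < ∑ k ∈ range (j + 1), Q k → f i + g j ≤ ρ) :
    ∑ i ∈ range K, P i * f i + ∑ j ∈ range K, Q j * g j ≤ ρ := by
  set F : ℕ → ℝ := fun i => ∑ k ∈ range i, P k with hF
  set G : ℕ → ℝ := fun i => ∑ k ∈ range i, Q k with hG
  have hFs : ∀ i, F (i + 1) = F i + P i := fun i => Finset.sum_range_succ _ _
  have hGs : ∀ i, G (i + 1) = G i + Q i := fun i => Finset.sum_range_succ _ _
  have hF0 : ∀ i, 0 ≤ F i := fun i => Finset.sum_nonneg fun k _ => hP k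
  have hG0 : ∀ i, 0 ≤ G i := fun i => Finset.sum_nonneg fun k _ => hQ k
  have hF1 : ∀ i ≤ K, F i ≤ 1 := fun i hi => hP1 ▸
    Finset.sum_le_sum_of_subset_of_nonneg (range_mono hi) fun k _ _ => hP k
  have hG1 : ∀ i ≤ K, G i ≤ 1 := fun i hi => hQ1 ▸
    Finset.sum_le_sum_of_subset_of_nonneg (range_mono hi) fun k _ _ => hQ k
  have hFz : F 0 = 0 := by simp [hF]
  have hGz : G 0 = 0 := by simp [hG]
  have hFK : F K = 1 := hP1
  have hGK : G K = 1 := hQ1
  let π : ℕ → ℕ → ℝ := fun i j =>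
    min (F (i + 1)) (G (j + 1)) - min (F (i + 1)) (G j) - min (F i) (G (j + 1)) + min (F i) (G j)
  have hrow : ∀ i < K, ∑ j ∈ range K, π i j = P i := by
    intro i hi
    have e : ∀ j, π i j = (min (F (i + 1)) (G (j + 1)) - min (F i) (G (j + 1))) -
        (min (F (i + 1)) (G j) - min (F i) (G j)) := fun j => by simp only [π]; ring
    simp only [e]
    rw [Finset.sum_range_sub (fun j => min (F (i + 1)) (G j) - min (F i) (G j)), hGK, hGz,
      min_eq_left (hF1 _ hi), min_eq_left (hF1 _ hi.le), min_eq_right (hF0 _),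
      min_eq_right (hF0 _), hFs]
    ring
  have hcol : ∀ j < K, ∑ i ∈ range K, π i j = Q j := by
    intro j hj
    have e : ∀ i, π i j = (min (F (i + 1)) (G (j + 1)) - min (F (i + 1)) (G j)) -
        (min (F i) (G (j + 1)) - min (F i) (G j)) := fun i => by simp only [π]; ring
    simp only [e]
    rw [Finset.sum_range_sub (fun i => min (F i) (G (j + 1)) - min (F i) (G j)), hFK, hFz,
      min_eq_right (hG1 _ hj), min_eq_right (hG1 _ hj.le), min_eq_left (hG0 _),
      min_eq_left (hG0 _), hGs]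
    ring
  have e1 : ∑ i ∈ range K, P i * f i = ∑ i ∈ range K, ∑ j ∈ range K, π i j * f i :=
    Finset.sum_congr rfl fun i hi => by rw [← Finset.sum_mul, hrow i (mem_range.1 hi)]
  have e2 : ∑ j ∈ range K, Q j * g j = ∑ i ∈ range K, ∑ j ∈ range K, π i j * g j := by
    rw [Finset.sum_comm]
    exact Finset.sum_congr rfl fun j hj => by rw [← Finset.sum_mul, hcol j (mem_range.1 hj)]
  have e3 : ρ = ∑ i ∈ range K, ∑ j ∈ range K, π i j * ρ := by
    have : ∀ i ∈ range K, ∑ j ∈ range K, π i j * ρ = P i * ρ := fun i hi => by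
      rw [← Finset.sum_mul, hrow i (mem_range.1 hi)]
    rw [Finset.sum_congr rfl this, ← Finset.sum_mul, hP1, one_mul]
  rw [e1, e2, ← Finset.sum_add_distrib, e3]
  refine Finset.sum_le_sum fun i hi => ?_
  rw [← Finset.sum_add_distrib]
  refine Finset.sum_le_sum fun j hj => ?_
  have hFi : F i ≤ F (i + 1) := by rw [hFs]; linarith [hP i]
  have hGj : G j ≤ G (j + 1) := by rw [hGs]; linarith [hQ j]
  have hπ : 0 ≤ π i j := min_super hFi hGj
  rw [← mul_add]
  rcases hπ.eq_or_lt with h0 | h0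
  · rw [← h0]; simp
  · obtain ⟨a1, a2, a3, a4⟩ := min_super_pos hFi hGj h0
    refine mul_le_mul_of_nonneg_left (h i (mem_range.1 hi) j (mem_range.1 hj) ?_ ?_ a3 a4) hπ
    · rw [hFs] at a1; linarith
    · rw [hGs] at a2; linarith

theorem pos_of_mul_pos_right' {s x : ℝ} (h : 0 < s * Real.exp x) : 0 < s :=
  (mul_pos_iff_of_pos_right (Real.exp_pos x)).1 h

/-- One-dimensional quadratic transport inequality for the uniform law on `range K`. -/
theorem path_one_dim_nat {K : ℕ} (hK : 0 < K) (s : ℝ) (α β : ℕ → ℝ) (hs : 0 ≤ s)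
    (hα : ∀ x, 0 ≤ α x) (hβ : ∀ y, 0 ≤ β y)
    (h : ∀ i < K, ∀ j < K, α i * β j ≤ s * Real.exp ((((i : ℝ) - j) / K) ^ 2 / 12)) :
    (∑ i ∈ range K, α i) * (∑ j ∈ range K, β j) ≤
      s * ((K : ℝ) ^ 2 * Real.exp (1 / (4 * (K : ℝ) ^ 2))) := by
  have hKR : (0 : ℝ) < K := by exact_mod_cast hK
  set A := ∑ i ∈ range K, α i with hA
  set B := ∑ i ∈ range K, β i with hB
  have hA0 : 0 ≤ A := Finset.sum_nonneg fun k _ => hα k
  have hB0 : 0 ≤ B := Finset.sum_nonneg fun k _ => hβ k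
  rcases hA0.eq_or_lt with hA1 | hA1
  · rw [← hA1, zero_mul]; positivity
  rcases hB0.eq_or_lt with hB1 | hB1
  · rw [← hB1, mul_zero]; positivity
  have hs1 : 0 < s := by
    obtain ⟨i, hi, hi0⟩ := Finset.exists_ne_zero_of_sum_ne_zero hA1.ne'
    obtain ⟨j, hj, hj0⟩ := Finset.exists_ne_zero_of_sum_ne_zero hB1.ne'
    have h1 : 0 < α i * β j :=
      mul_pos (lt_of_le_of_ne (hα i) hi0.symm) (lt_of_le_of_ne (hβ j) hj0.symm)
    have h2 := h i (mem_range.1 hi) j (mem_range.1 hj)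
    exact pos_of_mul_pos_right' (h1.trans_le h2)
  set P : ℕ → ℝ := fun k => α k / A with hPdef
  set Q : ℕ → ℝ := fun k => β k / B with hQdef
  have hP : ∀ k, 0 ≤ P k := fun k => div_nonneg (hα k) hA0
  have hQ : ∀ k, 0 ≤ Q k := fun k => div_nonneg (hβ k) hB0
  have hP1 : ∑ k ∈ range K, P k = 1 := by
    simp only [hPdef]; rw [← Finset.sum_div, ← hA, div_self hA1.ne']
  have hQ1 : ∑ k ∈ range K, Q k = 1 := by
    simp only [hQdef]; rw [← Finset.sum_div, ← hB, div_self hB1.ne']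
  set DP := ∑ k ∈ range K, P k * Real.log (K * P k) with hDP
  set DQ := ∑ k ∈ range K, Q k * Real.log (K * Q k) with hDQ
  have key := coupling P Q hP hQ hP1 hQ1 (fun i => Real.log (K * P i)) (fun j => Real.log (K * Q j))
    (Real.log (s * (K : ℝ) ^ 2 / (A * B)) + (1 / (4 * (K : ℝ) ^ 2) + DP + DQ)) (by
      intro i hi j hj hPi hQj h1 h2
      have c1 := cdf_sq_le hK P hP hP1 (i := i) hi.le
      have c2 := cdf_sq_le hK P hP hP1 (i := i + 1) hi
      have c3 := cdf_sq_le hK Q hQ hQ1 (i := j) hj.le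
      have c4 := cdf_sq_le hK Q hQ hQ1 (i := j + 1) hj
      rw [← hDP] at c1 c2
      rw [← hDQ] at c3 c4
      have hDP0 : 0 ≤ 4 * DP := le_trans (sq_nonneg _) c1
      have hDQ0 : 0 ≤ 4 * DQ := le_trans (sq_nonneg _) c3
      have d1 := abs_le.1 (Real.abs_le_sqrt c1)
      have d2 := abs_le.1 (Real.abs_le_sqrt c2)
      have d3 := abs_le.1 (Real.abs_le_sqrt c3)
      have d4 := abs_le.1 (Real.abs_le_sqrt c4)
      have t1 := Real.sq_sqrt hDP0
      have t2 := Real.sq_sqrt hDQ0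
      set τ1 := √(4 * DP)
      set τ2 := √(4 * DQ)
      push_cast at d2 d4
      rw [add_div] at d2 d4
      have g1 : |((i : ℝ) - j) / K| ≤ 1 / K + τ1 + τ2 := by
        rw [sub_div, abs_le]
        constructor <;> linarith [d1.1, d1.2, d2.1, d2.2, d3.1, d3.2, d4.1, d4.2]
      have g2 : (((i : ℝ) - j) / K) ^ 2 ≤ (1 / K + τ1 + τ2) ^ 2 := by
        rw [← sq_abs]
        exact pow_le_pow_left₀ (abs_nonneg _) g1 2
      have g3 : (((i : ℝ) - j) / K) ^ 2 / 12 ≤ 1 / (4 * (K : ℝ) ^ 2) + DP + DQ := by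
        have e : 1 / (4 * (K : ℝ) ^ 2) = (1 / K) ^ 2 / 4 := by field_simp
        rw [e]
        nlinarith [sq_nonneg (1 / (K : ℝ) - τ1), sq_nonneg (1 / (K : ℝ) - τ2), sq_nonneg (τ1 - τ2)]
      have g4 : (K * P i) * (K * Q j) ≤ s * (K : ℝ) ^ 2 / (A * B) *
          Real.exp ((((i : ℝ) - j) / K) ^ 2 / 12) := by
        have e : (K * P i) * (K * Q j) = (K : ℝ) ^ 2 / (A * B) * (α i * β j) := by
          simp only [hPdef, hQdef]; field_simp
        rw [e]
        calc (K : ℝ) ^ 2 / (A * B) * (α i * β j) ≤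
            (K : ℝ) ^ 2 / (A * B) * (s * Real.exp ((((i : ℝ) - j) / K) ^ 2 / 12)) :=
              mul_le_mul_of_nonneg_left (h i hi j hj) (by positivity)
          _ = _ := by ring
      have g5 := Real.log_le_log (by positivity) g4
      rw [Real.log_mul (by positivity) (by positivity),
        Real.log_mul (x := s * (K : ℝ) ^ 2 / (A * B)) (by positivity) (by positivity),
        Real.log_exp] at g5
      linarith)
  rw [← hDP, ← hDQ] at key
  have k1 : -(1 / (4 * (K : ℝ) ^ 2)) ≤ Real.log (s * (K : ℝ) ^ 2 / (A * B)) := by linarith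
  rw [Real.le_log_iff_exp_le (by positivity), le_div_iff₀ (by positivity), Real.exp_neg,
    inv_mul_le_iff₀ (Real.exp_pos _)] at k1
  calc A * B ≤ _ := k1
    _ = _ := by ring

theorem path_one_dim {K : ℕ} (hK : 0 < K) (s : ℝ) (α β : Fin K → ℝ) (hs : 0 ≤ s)
    (hα : ∀ x, 0 ≤ α x) (hβ : ∀ y, 0 ≤ β y)
    (h : ∀ i j, α i * β j ≤ s * Real.exp (((((i : ℕ) : ℝ) + (j : ℕ) + 1 - K) / K) ^ 2 / 12)) :
    (∑ i, α i) * (∑ j, β j) ≤ s * ((K : ℝ) ^ 2 * Real.exp (1 / (4 * (K : ℝ) ^ 2))) := by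
  have h1 := path_one_dim_nat hK s (fun i => if hi : i < K then α ⟨i, hi⟩ else 0)
    (fun j => if hj : j < K then β (Fin.rev ⟨j, hj⟩) else 0) hs
    (fun i => by split_ifs; exacts [hα _, le_rfl]) (fun i => by split_ifs; exacts [hβ _, le_rfl])
    (by
      intro i hi j hj
      simp only [hi, hj, dif_pos]
      have := h ⟨i, hi⟩ (Fin.rev ⟨j, hj⟩)
      have e : (((Fin.rev (⟨j, hj⟩ : Fin K) : ℕ) : ℝ)) = K - (j + 1) := by
        rw [Fin.val_rev, Nat.cast_sub (by simpa using hj)]; simp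
      rw [e] at this
      convert this using 5
      simp only
      ring)
  rw [Finset.sum_range, Finset.sum_range] at h1
  simp only [Fin.is_lt, dif_pos, Fin.eta] at h1
  rw [← Equiv.sum_comp Fin.revPerm β]
  exact h1

/-- A subset of the grid that stays far from its antipodal image is exponentially small. -/
theorem grid_far {K : ℕ} (hK : 0 < K) (d : ℕ) {θ : ℝ} (hθ : 6 ≤ θ * (K : ℝ) ^ 2)
    (W : Finset (Fin d → Fin K))
    (hW : ∀ x ∈ W, ∀ y ∈ W, θ * (K : ℝ) ^ 2 * d ≤
      ∑ i, (((x i : ℕ) : ℝ) + (y i : ℕ) + 1 - K) ^ 2) :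
    (W.card : ℝ) ≤ (K : ℝ) ^ d * Real.exp (-(θ * d / 48)) := by
  classical
  have hKR : (0 : ℝ) < K := by exact_mod_cast hK
  have h := tensor (fun i j : Fin K => Real.exp (((((i : ℕ) : ℝ) + (j : ℕ) + 1 - K) / K) ^ 2 / 12))
    ((K : ℝ) ^ 2 * Real.exp (1 / (4 * (K : ℝ) ^ 2))) (by positivity) (fun _ _ => by positivity)
    (path_one_dim hK) d 1
    (fun u => if u ∈ W then Real.exp (θ * d / 24) else 0)
    (fun u => if u ∈ W then Real.exp (θ * d / 24) else 0) zero_le_one
    (fun u => by split_ifs <;> positivity) (fun u => by split_ifs <;> positivity)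
    (fun u v => by
      by_cases hu : u ∈ W
      · by_cases hv : v ∈ W
        · simp only [hu, hv, if_true, one_mul]
          rw [← Real.exp_sum, ← Real.exp_add]
          apply Real.exp_le_exp.2
          have h1 := hW u hu v hv
          simp only [div_pow]
          rw [← Finset.sum_div, ← Finset.sum_div, le_div_iff₀ (by norm_num),
            le_div_iff₀ (by positivity)]
          linarith
        · simp only [hv, if_false, mul_zero]; positivity
      · simp only [hu, if_false, zero_mul]; positivity)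
  have e1 : ∑ u : Fin d → Fin K, (if u ∈ W then Real.exp (θ * d / 24) else 0) =
      W.card * Real.exp (θ * d / 24) := by
    rw [Finset.sum_ite_mem, univ_inter, sum_const, nsmul_eq_mul]
  rw [e1, one_mul, ← sq] at h
  have h2 : ((K : ℝ) ^ 2 * Real.exp (1 / (4 * (K : ℝ) ^ 2))) ^ d ≤
      ((K : ℝ) ^ d * Real.exp (θ * d / 48)) ^ 2 := by
    rw [mul_pow, mul_pow, ← pow_mul, ← pow_mul, mul_comm 2 d, ← Real.exp_nat_mul,
      ← Real.exp_nat_mul]
    refine mul_le_mul_of_nonneg_left (Real.exp_le_exp.2 ?_) (by positivity)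
    have : 1 / (4 * (K : ℝ) ^ 2) ≤ θ / 24 := by
      rw [div_le_div_iff₀ (by positivity) (by norm_num)]; linarith
    have hd : (0 : ℝ) ≤ d := by positivity
    push_cast
    nlinarith
  have h3 : W.card * Real.exp (θ * d / 24) ≤ (K : ℝ) ^ d * Real.exp (θ * d / 48) :=
    (pow_le_pow_iff_left₀ (by positivity) (by positivity) two_ne_zero).1 (h.trans h2)
  have h5 : Real.exp (θ * d / 48) = Real.exp (-(θ * d / 48)) * Real.exp (θ * d / 24) := by
    rw [← Real.exp_add]; congr 1; ring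
  rw [h5, ← mul_assoc] at h3
  exact le_of_mul_le_mul_right h3 (Real.exp_pos _)

end Pool.Agent.MP_3a192b_co
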